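import Pool.Agent.N9.Kn

set_option autoImplicit false

/-! # Removing the degenerate solutions -/

namespace Pool.Agent.N9
open Finset Pool.Agent.DG

universe u

section
variable {G : Type u} [AddCommGroup G] [Fintype G] [DecidableEq G]

set_option linter.unusedSectionVars false

theorem two_inj (hodd : Odd (Fintype.card G)) {x y : G} (h : x + x = y + y) : x = y := by
  have h1 : (2 : ℕ) • (x - y) = 0 := by
    rw [two_nsmul, sub_add_sub_comm, h, sub_self]
  have h2 : (Fintype.card G) • (x - y) = 0 := card_nsmul_eq_zero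
  obtain ⟨k, hk⟩ := hodd
  rw [hk, add_nsmul, mul_nsmul, h1, nsmul_zero, zero_add, one_nsmul] at h2
  exact sub_eq_zero.1 h2

/-- The elements `x` of `A` with `-2x ∈ A`. -/
def EE (A : Finset G) : Finset G := A.filter (fun x => -(x + x) ∈ A)

/-- A smallest set covering all pairs `x, -2x` inside an admissible set contains no three-term
arithmetic progression. -/
theorem cover (hodd : Odd (Fintype.card G)) (A : Finset G) (hA : Adm A) :
    ∃ F : Finset G, F ⊆ EE A ∧ (∀ x ∈ EE A, x ∈ F ∨ -(x + x) ∈ F) ∧
      ThreeAPFree (F : Set G) := by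
  classical
  let fam : Finset (Finset G) := (EE A).powerset.filter
    (fun F => ∀ x ∈ EE A, x ∈ F ∨ -(x + x) ∈ F)
  have hfam : fam.Nonempty := ⟨EE A, Finset.mem_filter.2
    ⟨Finset.mem_powerset.2 (Finset.Subset.refl _), fun x hx => Or.inl hx⟩⟩
  obtain ⟨F, hF, hmin⟩ := Finset.exists_min_image fam Finset.card hfam
  rw [Finset.mem_filter, Finset.mem_powerset] at hF
  obtain ⟨hFE, hcov⟩ := hF
  -- `b`, `-2b`, `4b` are not all in `F`
  have key : ∀ b ∈ F, ∀ a ∈ F, ∀ c ∈ F, a = -(b + b) → c = -(a + a) → a ≠ b → a ≠ c → False := by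
    intro b hb a ha c hc hab hca hne hne'
    have hins : F.erase a ∈ fam := by
      rw [Finset.mem_filter, Finset.mem_powerset]
      refine ⟨(Finset.erase_subset _ _).trans hFE, ?_⟩
      intro x hx
      rcases hcov x hx with h | h
      · by_cases hxa : x = a
        · right
          rw [hxa, ← hca]
          exact Finset.mem_erase.2 ⟨fun h => hne' h.symm, hc⟩
        · left
          exact Finset.mem_erase.2 ⟨hxa, h⟩
      · by_cases hxa : -(x + x) = a
        · left
          have hxb : x = b := two_inj hodd (neg_injective (hxa.trans hab))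
          rw [hxb]
          exact Finset.mem_erase.2 ⟨fun h => hne h.symm, hb⟩
        · right
          exact Finset.mem_erase.2 ⟨hxa, h⟩
    have h1 := hmin _ hins
    have h2 := Finset.card_erase_lt_of_mem ha
    omega
  refine ⟨F, hFE, hcov, ?_⟩
  intro a ha b hb c hc habc
  by_contra hne
  have hac : a ≠ c := by
    rintro rfl
    exact hne (two_inj hodd habc)
  have haE := Finset.mem_filter.1 (hFE ha)
  have hbE := Finset.mem_filter.1 (hFE hb)
  have hcE := Finset.mem_filter.1 (hFE hc)
  have hbc : b ≠ c := by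
    rintro rfl
    exact hne (add_right_cancel habc)
  have h1 : a ≠ -(b + b) := by
    intro h
    refine key b hb a ha c hc h ?_ hne hac
    have e : c = b + b - a := by rw [← habc]; abel
    rw [e, h]; abel
  have h2 : c ≠ -(b + b) := by
    intro h
    refine key b hb c hc a ha h ?_ (fun h => hbc h.symm) (fun h => hac h.symm)
    have e : a = b + b - c := by rw [← habc]; abel
    rw [e, h]; abel
  apply hA a haE.1 c hcE.1 (-(b + b)) hbE.2 hac h1 h2
  rw [habc, add_neg_cancel]

end

/-- An admissible set in a group of odd order is sum-free up to one set without three-term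
arithmetic progressions. -/
theorem removal (G : Type u) [AddCommGroup G] [Finite G] (hodd : Nat.card G % 2 = 1)
    (A : Finset G) (hA : Adm A) :
    ∃ A' F : Finset G, SF A' ∧ ThreeAPFree (F : Set G) ∧ A.card = A'.card + F.card := by
  classical
  have _ := Fintype.ofFinite G
  rw [Nat.card_eq_fintype_card] at hodd
  obtain ⟨F, hFE, hcov, hF⟩ := cover (Nat.odd_iff.2 hodd) A hA
  set A' := A \ F with hA'
  have hA'A : A' ⊆ A := Finset.sdiff_subset
  have hFA : F ⊆ A := hFE.trans (Finset.filter_subset _ _)
  refine ⟨A', F, ?_, hF, ?_⟩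
  · have hdeg : ∀ x ∈ A', ∀ z ∈ A', x + x + z ≠ 0 := by
      intro x hx z hz h
      rw [hA', Finset.mem_sdiff] at hx hz
      have hz' : -(x + x) = z := neg_eq_of_add_eq_zero_right h
      have hxE : x ∈ EE A := by
        rw [EE, Finset.mem_filter, hz']
        exact ⟨hx.1, hz.1⟩
      rcases hcov x hxE with h1 | h1
      · exact hx.2 h1
      · rw [hz'] at h1
        exact hz.2 h1
    intro x hx y hy z hz h
    by_cases hxy : x = y
    · subst hxy; exact hdeg x hx z hz h
    by_cases hxz : x = z
    · subst hxz
      apply hdeg x hx y hy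
      rw [← h]; abel
    by_cases hyz : y = z
    · subst hyz
      apply hdeg y hy x hx
      rw [← h]; abel
    exact hA x (hA'A hx) y (hA'A hy) z (hA'A hz) hxy hxz hyz h
  · have h5 := Finset.card_sdiff_add_card_eq_card hFA
    rw [← hA'] at h5
    omega

/-- Roth's theorem in finite abelian groups. -/
theorem roth_small (ε : ℝ) (hε : 0 < ε) : ∃ N : ℕ, ∀ (G : Type u) [AddCommGroup G] [Finite G],
    N ≤ Nat.card G → ∀ F : Finset G, ThreeAPFree (F : Set G) →
      (F.card : ℝ) ≤ ε * Nat.card G := by
  refine ⟨cornersTheoremBound ε, ?_⟩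
  intro G _ _ hN F hF
  classical
  have _ := Fintype.ofFinite G
  rw [Nat.card_eq_fintype_card] at hN ⊢
  by_contra hcon
  rw [not_le] at hcon
  exact roth_3ap_theorem ε hε hN F hcon.le hF

end Pool.Agent.N9
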