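import Pool.Agent.N9.Kn

set_option autoImplicit false

/-! # Families of nine fibres -/

namespace Pool.Agent.N9
open Finset Pool.Agent.DG

/-- The nine fibres of a sum-free set. -/
def FamSF {H : Type*} [AddCommGroup H] (A : ZMod 9 → Finset H) : Prop :=
  ∀ i j k : ZMod 9, i + j + k = 0 → NZ (A i) (A j) (A k)

/-- The density of the fibre over `i`. -/
noncomputable def al {H : Type*} (A : ZMod 9 → Finset H) (i : ZMod 9) : ℝ :=
  ((A i).card : ℝ) / (Nat.card H : ℝ)

section
variable {H : Type*} [AddCommGroup H] [Finite H] {m : ℕ} {A : ZMod 9 → Finset H}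

theorem cardH_pos : (0 : ℝ) < (Nat.card H : ℝ) := by exact_mod_cast Nat.card_pos

theorem al_nonneg (i : ZMod 9) : 0 ≤ al A i := by
  unfold al
  positivity

theorem al_eq_zero (i : ZMod 9) (h : ¬ (A i).Nonempty) : al A i = 0 := by
  rw [Finset.not_nonempty_iff_eq_empty] at h
  unfold al
  rw [h]
  simp

/-- Convert a natural-number bound `q * |A i| ≤ c * |H|`. -/
theorem al_le (i : ZMod 9) (q c : ℕ) (hle : q * (A i).card ≤ Nat.card H * c) :
    (q : ℝ) * al A i ≤ (c : ℝ) := by
  unfold al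
  have h := cardH_pos (H := H)
  rw [← mul_div_assoc, div_le_iff₀ h]
  have : ((q * (A i).card : ℕ) : ℝ) ≤ ((Nat.card H * c : ℕ) : ℝ) := by exact_mod_cast hle
  push_cast at this
  linarith

theorem al_sum3 (i j k : ZMod 9)
    (hle : 9 * ((A i).card + (A j).card + (A k).card) ≤ 10 * Nat.card H) :
    al A i + al A j + al A k ≤ 10 / 9 := by
  unfold al
  have h := cardH_pos (H := H)
  rw [← add_div, ← add_div, div_le_iff₀ h]
  have : ((9 * ((A i).card + (A j).card + (A k).card) : ℕ) : ℝ) ≤ ((10 * Nat.card H : ℕ) : ℝ) := by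
    exact_mod_cast hle
  push_cast at this
  linarith

theorem unit_bound (F : AddSubgroup H) (hF : Nat.card (H ⧸ F) = 3) (i : ZMod 9) :
    (3 : ℝ) * al A i ≤ ((cl F (A i)).card : ℝ) := by
  have h1 := card_le_cl F (A i)
  have h2 := card_split F
  rw [hF] at h2
  have := al_le (A := A) i 3 (cl F (A i)).card (by
    calc 3 * (A i).card ≤ 3 * (Nat.card F * (cl F (A i)).card) := Nat.mul_le_mul_left _ h1
      _ = Nat.card H * (cl F (A i)).card := by rw [h2]; ring)
  exact_mod_cast this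

theorem nonunit_bound (hm : Nat.card H = 3 ^ m) (hA : FamSF A) (F : AddSubgroup H)
    (hF : Nat.card (H ⧸ F) = 3) (i : ZMod 9) (hi : i + i + i = 0) :
    (9 : ℝ) * al A i ≤ ((cl F (A i)).card : ℝ) := by
  have h1 := nonunit hm F hF (A i) (hA i i i hi)
  have := al_le (A := A) i 9 (cl F (A i)).card h1
  exact_mod_cast this

theorem fam_TN (hm : Nat.card H = 3 ^ m) (hA : FamSF A) (i j k : ZMod 9) (h : i + j + k = 0)
    (hk : k + k + k = 0) : TN (al A i) (al A j) (al A k) := by
  unfold TN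
  by_cases hi : (A i).Nonempty
  swap
  · exact Or.inl (al_eq_zero i hi)
  by_cases hj : (A j).Nonempty
  swap
  · exact Or.inr (Or.inl (al_eq_zero j hj))
  by_cases hkk : (A k).Nonempty
  swap
  · exact Or.inr (Or.inr (Or.inl (al_eq_zero k hkk)))
  rcases three hm (A i) (A j) (A k) hi hj hkk (hA i j k h) with h1 | ⟨F, hF, c1, c2, c3, h1⟩
  · exact Or.inr (Or.inr (Or.inr (Or.inl (al_sum3 i j k h1))))
  · refine Or.inr (Or.inr (Or.inr (Or.inr ?_)))
    have b1 := unit_bound (A := A) F hF i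
    have b2 := unit_bound (A := A) F hF j
    have b3 := nonunit_bound hm hA F hF k hk
    have c1' : (1 : ℝ) ≤ ((cl F (A i)).card : ℝ) := by exact_mod_cast c1
    have c2' : (1 : ℝ) ≤ ((cl F (A j)).card : ℝ) := by exact_mod_cast c2
    have c3' : (1 : ℝ) ≤ ((cl F (A k)).card : ℝ) := by exact_mod_cast c3
    have h1' : ((cl F (A i)).card : ℝ) + ((cl F (A j)).card : ℝ) + ((cl F (A k)).card : ℝ) ≤ 4 := by
      exact_mod_cast h1
    refine ⟨?_, ?_, ?_, ?_, ?_, ?_, ?_⟩ <;> linarith

theorem fam_TU (hm : Nat.card H = 3 ^ m) (hA : FamSF A) (i k : ZMod 9) (h : i + i + k = 0) :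
    TU (al A i) (al A k) := by
  unfold TU
  by_cases hi : (A i).Nonempty
  swap
  · exact Or.inl (al_eq_zero i hi)
  by_cases hkk : (A k).Nonempty
  swap
  · exact Or.inr (Or.inl (al_eq_zero k hkk))
  rcases three hm (A i) (A i) (A k) hi hi hkk (hA i i k h) with h1 | ⟨F, hF, c1, c2, c3, h1⟩
  · refine Or.inr (Or.inr (Or.inl ?_))
    have := al_sum3 i i k h1
    linarith
  · refine Or.inr (Or.inr (Or.inr ?_))
    have b1 := unit_bound (A := A) F hF i
    have b2 := unit_bound (A := A) F hF k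
    have c4 : (cl F (A i)).card ≤ 1 := by omega
    have c5 : (cl F (A k)).card ≤ 2 := by omega
    have c4' : ((cl F (A i)).card : ℝ) ≤ 1 := by exact_mod_cast c4
    have c5' : ((cl F (A k)).card : ℝ) ≤ 2 := by exact_mod_cast c5
    constructor <;> linarith

theorem dec1 : ∀ r : ZMod 9, (r = 1 ∨ r = 2) → ∀ s t u : ZMod 3,
    s + t + u = -(r.val : ZMod 3) →
      (r + 3 * (s.val : ZMod 9)) + (r + 3 * (t.val : ZMod 9)) + (r + 3 * (u.val : ZMod 9)) = 0 := by
  decide

theorem fam_class (hm : Nat.card H = 3 ^ m) (hA : FamSF A) (r : ZMod 9) (hr : r = 1 ∨ r = 2) :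
    al A r + al A (r + 3) + al A (r + 6) ≤ 1 := by
  classical
  have : Fintype H := Fintype.ofFinite H
  set X : Finset (ZMod 3 × H) :=
    univ.filter (fun q => q.2 ∈ A (r + 3 * (q.1.val : ZMod 9))) with hX
  have hcard : Nat.card (ZMod 3 × H) = 3 ^ (m + 1) := by
    rw [Nat.card_prod, hm, Nat.card_zmod, pow_succ]; ring
  have h1 : 3 * X.card ≤ Nat.card (ZMod 3 × H) := by
    apply third hcard X (-(r.val : ZMod 3), 0)
    rintro ⟨s, x⟩ hx ⟨t, y⟩ hy ⟨u, z⟩ hz hs
    rw [hX, Finset.mem_filter] at hx hy hz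
    have e1 : s + t + u = -(r.val : ZMod 3) := congrArg Prod.fst hs
    have e2 : x + y + z = 0 := congrArg Prod.snd hs
    exact hA _ _ _ (dec1 r hr s t u e1) x hx.2 y hy.2 z hz.2 e2
  have h2 : X.card = ∑ s : ZMod 3, (A (r + 3 * (s.val : ZMod 9))).card := by
    rw [← Finset.card_sigma]
    apply Finset.card_nbij' (fun q => (⟨q.1, q.2⟩ : Σ _ : ZMod 3, H)) (fun q => (q.1, q.2))
    · intro q hq
      have hq' := (Finset.mem_filter.1 (Finset.mem_coe.1 hq)).2
      exact Finset.mem_coe.2 (Finset.mem_sigma.2 ⟨Finset.mem_univ _, hq'⟩)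
    · intro q hq
      have hq' := (Finset.mem_sigma.1 (Finset.mem_coe.1 hq)).2
      exact Finset.mem_coe.2 (Finset.mem_filter.2 ⟨Finset.mem_univ _, hq'⟩)
    · intro q _
      rfl
    · intro q _
      rfl
  have h4 : (∑ s : ZMod 3, (A (r + 3 * (s.val : ZMod 9))).card) =
      (A r).card + (A (r + 3)).card + (A (r + 6)).card := by
    have h5 : (univ : Finset (ZMod 3)) = {0, 1, 2} := by decide
    rw [h5, Finset.sum_insert (by decide), Finset.sum_insert (by decide), Finset.sum_singleton]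
    have e0 : r + 3 * (((0 : ZMod 3).val : ℕ) : ZMod 9) = r := by
      have : 3 * (((0 : ZMod 3).val : ℕ) : ZMod 9) = 0 := by decide
      rw [this, add_zero]
    have e1 : 3 * (((1 : ZMod 3).val : ℕ) : ZMod 9) = 3 := by decide
    have e2 : 3 * (((2 : ZMod 3).val : ℕ) : ZMod 9) = 6 := by decide
    rw [e0, e1, e2]
    ring
  rw [Nat.card_prod, Nat.card_zmod, h2, h4] at h1
  have h5 : (A r).card + (A (r + 3)).card + (A (r + 6)).card ≤ Nat.card H := by omega
  unfold al
  have h := cardH_pos (H := H)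
  rw [← add_div, ← add_div, div_le_iff₀ h, one_mul]
  exact_mod_cast h5

end

end Pool.Agent.N9
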