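import Pool.Agent.N9.Fam

set_option autoImplicit false

/-! # The main inequality for a family of nine fibres -/

namespace Pool.Agent.N9
open Finset Pool.Agent.DG

theorem sum9 (f : ZMod 9 → ℝ) :
    ∑ i, f i = f 0 + f 1 + f 2 + f 3 + f 4 + f 5 + f 6 + f 7 + f 8 := by
  have h5 : (univ : Finset (ZMod 9)) = {0, 1, 2, 3, 4, 5, 6, 7, 8} := by decide
  rw [h5, Finset.sum_insert (by decide), Finset.sum_insert (by decide),
    Finset.sum_insert (by decide), Finset.sum_insert (by decide), Finset.sum_insert (by decide),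
    Finset.sum_insert (by decide), Finset.sum_insert (by decide), Finset.sum_insert (by decide),
    Finset.sum_singleton]
  ring

section
variable {H : Type*} [AddCommGroup H] [Finite H] {m : ℕ} {A : ZMod 9 → Finset H} {p : ℝ}

/-- Total density. -/
noncomputable def tot {H : Type*} (A : ZMod 9 → Finset H) : ℝ := ∑ i, al A i

theorem fam_one (hm : Nat.card H = 3 ^ m) (hA : FamSF A) (plo : 2 / 9 ≤ p) (phi : p ≤ 2 / 7)
    (hp : ∀ i : ZMod 9, i + i + i = 0 → al A i ≤ p) (hT : 2 + 2 * p < tot A) :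
    al A 1 ≤ 2 / 3 := by
  by_contra hcon
  rw [not_le] at hcon
  have c1 := fam_class hm hA 1 (Or.inl rfl)
  have c2 := fam_class hm hA 2 (Or.inr rfl)
  rw [show (1 : ZMod 9) + 3 = 4 from rfl, show (1 : ZMod 9) + 6 = 7 from rfl] at c1
  rw [show (2 : ZMod 9) + 3 = 5 from rfl, show (2 : ZMod 9) + 6 = 8 from rfl] at c2
  have t1 := fam_TN hm hA 1 8 0 (by decide) (by decide)
  have t2 := fam_TU hm hA 1 7 (by decide)
  have t3 := fam_TN hm hA 1 2 6 (by decide) (by decide)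
  have t5 := fam_TN hm hA 1 5 3 (by decide) (by decide)
  have := lem_T (al_nonneg (A := A) 0) (al_nonneg (A := A) 1) (al_nonneg (A := A) 2)
    (al_nonneg (A := A) 3) (al_nonneg (A := A) 4) (al_nonneg (A := A) 5) (al_nonneg (A := A) 6)
    (al_nonneg (A := A) 7) (al_nonneg (A := A) 8) (hp 0 (by decide)) (hp 3 (by decide))
    (hp 6 (by decide)) plo phi c1 c2 hcon t1 t2 t3 t5
  unfold tot at hT
  rw [sum9] at hT
  linarith

theorem fam_unit (hm : Nat.card H = 3 ^ m) (hA : FamSF A) (plo : 2 / 9 ≤ p) (phi : p ≤ 2 / 7)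
    (hp : ∀ i : ZMod 9, i + i + i = 0 → al A i ≤ p) (hT : 2 + 2 * p < tot A)
    (u : (ZMod 9)ˣ) : al A u ≤ 2 / 3 := by
  have h := fam_one (A := fun j => A (u * j)) (p := p) hm ?_ plo phi ?_ ?_
  · have e : al (fun j => A (u * j)) 1 = al A u := by
      unfold al
      simp only [mul_one]
    rwa [e] at h
  · intro i j k hijk
    apply hA
    rw [← mul_add, ← mul_add, hijk, mul_zero]
  · intro i hi
    apply hp
    rw [← mul_add, ← mul_add, hi, mul_zero]
  · have e : tot (fun j => A (u * j)) = tot A := by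
      unfold tot
      exact (Equiv.sum_comp (Units.mulLeft u) (fun i => al A i))
    rwa [e]

theorem fam_units (hm : Nat.card H = 3 ^ m) (hA : FamSF A) (plo : 2 / 9 ≤ p) (phi : p ≤ 2 / 7)
    (hp : ∀ i : ZMod 9, i + i + i = 0 → al A i ≤ p) (hT : 2 + 2 * p < tot A) (i : ZMod 9)
    (hi : IsUnit i) : al A i ≤ 2 / 3 := by
  obtain ⟨u, rfl⟩ := hi
  exact fam_unit hm hA plo phi hp hT u

theorem isUnit9 : ∀ i : ZMod 9, (i = 1 ∨ i = 2 ∨ i = 4 ∨ i = 5 ∨ i = 7 ∨ i = 8) →
    IsUnit i := by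
  intro i hi
  rcases hi with rfl | rfl | rfl | rfl | rfl | rfl
  · exact IsUnit.of_mul_eq_one 1 (by decide)
  · exact IsUnit.of_mul_eq_one 5 (by decide)
  · exact IsUnit.of_mul_eq_one 7 (by decide)
  · exact IsUnit.of_mul_eq_one 2 (by decide)
  · exact IsUnit.of_mul_eq_one 4 (by decide)
  · exact IsUnit.of_mul_eq_one 8 (by decide)

/-- The bounds on the weights used below. -/
structure Kap (κ : ZMod 9 → ℝ) : Prop where
  k0 : κ 0 ≤ 1 / 2
  k3 : κ 3 ≤ 1 / 2
  k1 : κ 1 ≤ 94 / 100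
  k2 : κ 2 ≤ 94 / 100
  k4 : κ 4 ≤ -(1736 / 10000)
  k8 : κ 8 ≤ -(1736 / 10000)
  k5 : κ 5 ≤ -(766 / 1000)
  k7 : κ 7 ≤ -(766 / 1000)
  k6 : κ 6 ≤ -1

theorem fam_L (hm : Nat.card H = 3 ^ m) (hA : FamSF A) (plo : 2 / 9 ≤ p) (phi : p ≤ 2 / 7)
    (hp : ∀ i : ZMod 9, i + i + i = 0 → al A i ≤ p) (hT : 2 + 2 * p < tot A)
    {κ : ZMod 9 → ℝ} (hκ : Kap κ) :
    ∑ j, al A j * κ j ≤ 24 / 25 * tot A - 36 / 25 - 1 / 2000 := by
  have c1 := fam_class hm hA 1 (Or.inl rfl)
  have c2 := fam_class hm hA 2 (Or.inr rfl)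
  rw [show (1 : ZMod 9) + 3 = 4 from rfl, show (1 : ZMod 9) + 6 = 7 from rfl] at c1
  rw [show (2 : ZMod 9) + 3 = 5 from rfl, show (2 : ZMod 9) + 6 = 8 from rfl] at c2
  have t1 := fam_TN hm hA 1 8 0 (by decide) (by decide)
  have t2 := fam_TU hm hA 1 7 (by decide)
  have t3 := fam_TN hm hA 1 2 6 (by decide) (by decide)
  have t4 := fam_TU hm hA 2 5 (by decide)
  have t5 := fam_TN hm hA 2 4 3 (by decide) (by decide)
  have t6 := fam_TU hm hA 8 2 (by decide)
  have n0 := al_nonneg (A := A) 0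
  have n1 := al_nonneg (A := A) 1
  have n2 := al_nonneg (A := A) 2
  have n3 := al_nonneg (A := A) 3
  have n4 := al_nonneg (A := A) 4
  have n5 := al_nonneg (A := A) 5
  have n6 := al_nonneg (A := A) 6
  have n7 := al_nonneg (A := A) 7
  have n8 := al_nonneg (A := A) 8
  have U : ∀ i : ZMod 9, IsUnit i → al A i ≤ 2 / 3 := fun i hi =>
    fam_units hm hA plo phi hp hT i hi
  have key := lem_L n0 n1 n2 n3 n4 n5 n6 n7 n8 (hp 0 (by decide)) (hp 3 (by decide))
    (hp 6 (by decide)) plo phi c1 c2 (U 1 (isUnit9 1 (by decide))) (U 2 (isUnit9 2 (by decide)))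
    (U 4 (isUnit9 4 (by decide))) (U 5 (isUnit9 5 (by decide))) (U 7 (isUnit9 7 (by decide)))
    (U 8 (isUnit9 8 (by decide)))
    (by
      have h := hT
      unfold tot at h
      rw [sum9] at h
      exact h.le) t1 t2 t3 t4 t5 t6
  unfold tot
  rw [sum9, sum9]
  have g0 := mul_le_mul_of_nonneg_left hκ.k0 n0
  have g1 := mul_le_mul_of_nonneg_left hκ.k1 n1
  have g2 := mul_le_mul_of_nonneg_left hκ.k2 n2
  have g3 := mul_le_mul_of_nonneg_left hκ.k3 n3
  have g4 := mul_le_mul_of_nonneg_left hκ.k4 n4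
  have g5 := mul_le_mul_of_nonneg_left hκ.k5 n5
  have g6 := mul_le_mul_of_nonneg_left hκ.k6 n6
  have g7 := mul_le_mul_of_nonneg_left hκ.k7 n7
  have g8 := mul_le_mul_of_nonneg_left hκ.k8 n8
  linarith

theorem fam_shift (hm : Nat.card H = 3 ^ m) (hA : FamSF A) (plo : 2 / 9 ≤ p) (phi : p ≤ 2 / 7)
    (hp : ∀ i : ZMod 9, i + i + i = 0 → al A i ≤ p) (hT : 2 + 2 * p < tot A)
    {κ : ZMod 9 → ℝ} (hκ : Kap κ) (s : ZMod 9) (hs : s + s + s = 0) :
    ∑ j, al A j * κ (j - s) ≤ 24 / 25 * tot A - 36 / 25 - 1 / 2000 := by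
  have e1 : tot (fun j => A (j + s)) = tot A := by
    unfold tot
    exact (Equiv.sum_comp (Equiv.addRight s) (fun i => al A i))
  have e2 : ∑ j, al (fun j => A (j + s)) j * κ j = ∑ j, al A j * κ (j - s) := by
    have := Equiv.sum_comp (Equiv.addRight s) (fun i => al A i * κ (i - s))
    rw [← this]
    apply Finset.sum_congr rfl
    intro j _
    have e3 : (Equiv.addRight s) j - s = j := by
      rw [Equiv.coe_addRight, add_sub_cancel_right]
    rw [e3]
    rfl
  have h := fam_L (A := fun j => A (j + s)) (p := p) hm ?_ plo phi ?_ ?_ hκ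
  · rw [e1, e2] at h
    exact h
  · intro i j k hijk
    apply hA
    have : i + s + (j + s) + (k + s) = (i + j + k) + (s + s + s) := by ring
    rw [this, hijk, hs, add_zero]
  · intro i hi
    apply hp
    have : i + s + (i + s) + (i + s) = (i + i + i) + (s + s + s) := by ring
    rw [this, hi, hs, add_zero]
  · rw [e1]
    exact hT

end

end Pool.Agent.N9
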