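import Pool.Agent.N9.Kap

set_option autoImplicit false

/-! # The Fourier argument in a general finite abelian group -/

namespace Pool.Agent.N9
open Finset Real

section
variable {G : Type*} [AddCommGroup G] [Fintype G]

/-- The exponential sum. -/
noncomputable def SG (A : Finset G) (ψ : AddChar G ℂ) : ℂ := ∑ x ∈ A, ψ x

theorem SG_zero (A : Finset G) : SG A 0 = (A.card : ℂ) := by
  unfold SG
  simp

theorem G_cube (A : Finset G) (hA : SF A) : ∑ ψ : AddChar G ℂ, SG A ψ ^ 3 = 0 := by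
  classical
  have h1 : ∀ ψ : AddChar G ℂ, SG A ψ ^ 3 = ∑ x ∈ A, ∑ y ∈ A, ∑ z ∈ A, ψ (x + y + z) := by
    intro ψ
    unfold SG
    rw [pow_succ, pow_two, Finset.sum_mul_sum, Finset.sum_mul]
    apply Finset.sum_congr rfl
    intro x _
    rw [Finset.sum_mul]
    apply Finset.sum_congr rfl
    intro y _
    rw [Finset.mul_sum]
    apply Finset.sum_congr rfl
    intro z _
    rw [AddChar.map_add_eq_mul, AddChar.map_add_eq_mul]
  simp_rw [h1]
  rw [Finset.sum_comm]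
  apply Finset.sum_eq_zero
  intro x hx
  rw [Finset.sum_comm]
  apply Finset.sum_eq_zero
  intro y hy
  rw [Finset.sum_comm]
  apply Finset.sum_eq_zero
  intro z hz
  rw [AddChar.sum_apply_eq_ite, if_neg (hA x hx y hy z hz)]

theorem G_sq (A : Finset G) :
    ∑ ψ : AddChar G ℂ, Complex.normSq (SG A ψ) = (Fintype.card G : ℝ) * A.card := by
  classical
  have h1 : ∀ ψ : AddChar G ℂ, ((Complex.normSq (SG A ψ) : ℝ) : ℂ) =
      ∑ x ∈ A, ∑ y ∈ A, ψ (x + -y) := by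
    intro ψ
    rw [← Complex.mul_conj]
    unfold SG
    rw [map_sum, Finset.sum_mul_sum]
    apply Finset.sum_congr rfl
    intro x _
    apply Finset.sum_congr rfl
    intro y _
    rw [AddChar.map_add_eq_mul, AddChar.map_neg_eq_conj]
  have h2 : ((∑ ψ : AddChar G ℂ, Complex.normSq (SG A ψ) : ℝ) : ℂ) =
      (((Fintype.card G : ℝ) * A.card : ℝ) : ℂ) := by
    rw [Complex.ofReal_sum]
    simp_rw [h1]
    rw [Finset.sum_comm]
    have h3 : ∀ x ∈ A, ∑ ψ : AddChar G ℂ, ∑ y ∈ A, ψ (x + -y) = (Fintype.card G : ℂ) := by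
      intro x hx
      rw [Finset.sum_comm]
      simp_rw [AddChar.sum_apply_eq_ite]
      rw [Finset.sum_eq_single x]
      · rw [if_pos (by abel)]
      · intro y _ hy
        rw [if_neg]
        intro h
        apply hy
        rw [← sub_eq_add_neg, sub_eq_zero] at h
        exact h.symm
      · intro h
        exact absurd hx h
    rw [Finset.sum_congr rfl h3, Finset.sum_const, nsmul_eq_mul]
    push_cast
    ring
  exact_mod_cast h2

/-- A non-trivial character with a large coefficient. -/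
theorem fourierG (A : Finset G) (hA : SF A) (τ : ℝ) (hτ : 0 ≤ τ)
    (h : ∀ ψ : AddChar G ℂ, ψ ≠ 0 →
      K (SG A ψ) ≤ τ ∧ K (SG A ψ * e9 6) ≤ τ ∧ K (SG A ψ * e9 3) ≤ τ) :
    (A.card : ℝ) ^ 3 ≤ τ * ((Fintype.card G : ℝ) * A.card - (A.card : ℝ) ^ 2) := by
  classical
  have h1 : ∀ ψ : AddChar G ℂ, ψ ≠ 0 → -(SG A ψ ^ 3).re ≤ Complex.normSq (SG A ψ) * τ := by
    intro ψ hψ
    obtain ⟨h0, h1, h2⟩ := h ψ hψ
    exact cubic _ _ hτ h0 h1 h2
  have h2 : ∑ ψ ∈ univ.erase (0 : AddChar G ℂ), -(SG A ψ ^ 3).re ≤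
      ∑ ψ ∈ univ.erase (0 : AddChar G ℂ), Complex.normSq (SG A ψ) * τ :=
    Finset.sum_le_sum (fun ψ hψ => h1 ψ (Finset.ne_of_mem_erase hψ))
  have h3 : ∑ ψ ∈ univ.erase (0 : AddChar G ℂ), -(SG A ψ ^ 3).re = (A.card : ℝ) ^ 3 := by
    have h4 : ∑ ψ : AddChar G ℂ, -(SG A ψ ^ 3).re = 0 := by
      rw [Finset.sum_neg_distrib, ← Complex.re_sum, G_cube A hA]
      simp
    have h5 := Finset.add_sum_erase univ (fun ψ : AddChar G ℂ => -(SG A ψ ^ 3).re)
      (Finset.mem_univ 0)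
    rw [h4] at h5
    have h6 : (SG A 0 ^ 3).re = (A.card : ℝ) ^ 3 := by
      rw [SG_zero]
      have : ((A.card : ℂ)) ^ 3 = (((A.card : ℝ) ^ 3 : ℝ) : ℂ) := by push_cast; rfl
      rw [this, Complex.ofReal_re]
    simp only [h6] at h5
    linarith
  have h7 : ∑ ψ ∈ univ.erase (0 : AddChar G ℂ), Complex.normSq (SG A ψ) * τ =
      τ * ((Fintype.card G : ℝ) * A.card - (A.card : ℝ) ^ 2) := by
    rw [← Finset.sum_mul]
    have h5 := Finset.add_sum_erase univ (fun ψ : AddChar G ℂ => Complex.normSq (SG A ψ))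
      (Finset.mem_univ 0)
    rw [G_sq] at h5
    have h6 : Complex.normSq (SG A 0) = (A.card : ℝ) ^ 2 := by
      rw [SG_zero]
      have : ((A.card : ℂ)) = ((A.card : ℝ) : ℂ) := by push_cast; rfl
      rw [this, Complex.normSq_ofReal]
      ring
    simp only [h6] at h5
    have h8 : ∑ ψ ∈ univ.erase (0 : AddChar G ℂ), Complex.normSq (SG A ψ) =
      (Fintype.card G : ℝ) * A.card - (A.card : ℝ) ^ 2 := by linarith
    rw [h8]
    ring
  rw [h3, h7] at h2
  exact h2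

end

/-- Characters of a 3-group come from homomorphisms to cyclic groups. -/
theorem char_hom {G : Type*} [AddCommGroup G] [Finite G] {m : ℕ} (hG : Nat.card G = 3 ^ m)
    (ψ : AddChar G ℂ) (hψ : ψ ≠ 0) :
    ∃ r : ℕ, ∃ φ : G →+ ZMod (3 ^ (r + 1)), Function.Surjective φ ∧
      ∀ x, ψ x = ZMod.stdAddChar (φ x) := by
  classical
  have hex : ∃ s : ℕ, ∀ x, ψ x ^ (3 ^ s) = 1 := by
    refine ⟨m, fun x => ?_⟩
    rw [← hG, ← AddChar.map_nsmul_eq_pow, card_nsmul_eq_zero', AddChar.map_zero_eq_one]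
  set s := Nat.find hex with hs
  have hs1 : ∀ x, ψ x ^ (3 ^ s) = 1 := Nat.find_spec hex
  have hs0 : s ≠ 0 := by
    intro h0
    apply hψ
    ext x
    have := hs1 x
    rw [h0, pow_zero, pow_one] at this
    rw [this]
    rfl
  obtain ⟨r, hr⟩ : ∃ r, s = r + 1 := ⟨s - 1, by omega⟩
  have hmin : ∃ x, ψ x ^ (3 ^ r) ≠ 1 := by
    by_contra hcon
    push Not at hcon
    exact Nat.find_min hex (m := r) (by omega) hcon
  rw [hr] at hs1
  have hζ := Complex.isPrimitiveRoot_exp (3 ^ (r + 1)) (by positivity)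
  have hstd : ∀ i : ℕ, ZMod.stdAddChar ((i : ℕ) : ZMod (3 ^ (r + 1))) =
      Complex.exp (2 * π * Complex.I / ((3 ^ (r + 1) : ℕ) : ℂ)) ^ i := by
    intro i
    have h := ZMod.stdAddChar_coe (N := 3 ^ (r + 1)) (i : ℤ)
    have h2 : (((i : ℤ)) : ZMod (3 ^ (r + 1))) = ((i : ℕ) : ZMod (3 ^ (r + 1))) := by
      push_cast; rfl
    rw [h2] at h
    rw [h, ← Complex.exp_nat_mul]
    congr 1
    push_cast
    ring
  have hex2 : ∀ x, ∃ j : ZMod (3 ^ (r + 1)), ψ x = ZMod.stdAddChar j := by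
    intro x
    obtain ⟨i, _, hi⟩ := hζ.eq_pow_of_pow_eq_one (hs1 x)
    exact ⟨((i : ℕ) : ZMod (3 ^ (r + 1))), by rw [hstd, hi]⟩
  choose f hf using hex2
  have hadd : ∀ x y, f (x + y) = f x + f y := by
    intro x y
    apply ZMod.injective_stdAddChar
    rw [← hf, AddChar.map_add_eq_mul, AddChar.map_add_eq_mul, hf x, hf y]
  refine ⟨r, AddMonoidHom.mk' f hadd, ?_, hf⟩
  obtain ⟨x0, hx0⟩ := hmin
  have hu : IsUnit (f x0) := by
    have h1 : ((f x0).val : ZMod (3 ^ (r + 1))) = f x0 := ZMod.natCast_zmod_val _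
    rw [← h1]
    rw [ZMod.isUnit_iff_coprime]
    apply Nat.Coprime.pow_right
    rw [Nat.coprime_comm, Nat.Prime.coprime_iff_not_dvd Nat.prime_three]
    rintro ⟨t, ht⟩
    apply hx0
    rw [hf x0, ← h1, ht, ← AddChar.map_nsmul_eq_pow]
    have h2 : (3 ^ r) • (((3 * t : ℕ)) : ZMod (3 ^ (r + 1))) = 0 := by
      rw [nsmul_eq_mul, ← Nat.cast_mul, ZMod.natCast_eq_zero_iff]
      exact ⟨t, by rw [pow_succ]; ring⟩
    rw [h2, AddChar.map_zero_eq_one]
  obtain ⟨u, hu⟩ := hu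
  intro t
  refine ⟨(t * ((u⁻¹ : (ZMod (3 ^ (r + 1)))ˣ) : ZMod (3 ^ (r + 1)))).val • x0, ?_⟩
  rw [map_nsmul, nsmul_eq_mul, ZMod.natCast_zmod_val]
  change t * _ * f x0 = t
  rw [← hu, mul_assoc, Units.inv_mul, mul_one]

end Pool.Agent.N9
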