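import Pool.Agent.N9.G9

set_option autoImplicit false

/-! # The structure of finite abelian 3-groups -/

namespace Pool.Agent.N9
open Finset Pool.Agent.DG

universe u

/-- A homomorphism onto a cyclic group of full exponent. -/
theorem exists_full {G : Type u} [AddCommGroup G] [Finite G] {m κ : ℕ} (hG : Nat.card G = 3 ^ m)
    (hexp : ∀ x : G, 3 ^ (κ + 1) • x = 0) {x : G} (hx : 3 ^ κ • x ≠ 0) :
    ∃ φ : G →+ ZMod (3 ^ (κ + 1)), Function.Surjective φ := by
  obtain ⟨ψ, hψ⟩ := (AddChar.exists_apply_ne_zero (a := 3 ^ κ • x)).2 hx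
  have hψ0 : ψ ≠ 0 := by
    rintro rfl
    exact hψ rfl
  obtain ⟨r, φ, hφ, h⟩ := char_hom hG ψ hψ0
  have hft : Fintype G := Fintype.ofFinite G
  have h1 := order_le φ hφ hexp
  have h2 : κ ≤ r := by
    by_contra hcon
    apply hψ
    rw [h, map_nsmul]
    obtain ⟨d, hd⟩ : ∃ d, κ = r + 1 + d := ⟨κ - (r + 1), by omega⟩
    have h3 : 3 ^ κ • φ x = 0 := by
      have e0 : 3 ^ κ = 3 ^ d * 3 ^ (r + 1) := by rw [hd, pow_add]; ring
      rw [e0, mul_smul]
      have : (3 ^ (r + 1) : ℕ) • φ x = 0 := by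
        rw [nsmul_eq_mul]
        have h0 : (((3 ^ (r + 1) : ℕ)) : ZMod (3 ^ (r + 1))) = 0 := ZMod.natCast_self _
        rw [h0, zero_mul]
      rw [this, smul_zero]
    rw [h3, AddChar.map_zero_eq_one]
  have h3 : r = κ := le_antisymm h1 h2
  subst h3
  exact ⟨φ, hφ⟩

theorem struct3 : ∀ (N : ℕ) (G : Type u) [AddCommGroup G] [Finite G], Nat.card G = N →
    (∃ m, N = 3 ^ m) → ∃ (n : ℕ) (k : Fin n → ℕ), Antitone k ∧ (∀ i, 1 ≤ k i) ∧
      Nonempty (G ≃+ ((i : Fin n) → ZMod (3 ^ k i))) := by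
  intro N
  induction N using Nat.strong_induction_on with
  | _ N ih =>
    intro G _ _ hN hm
    obtain ⟨m, hm⟩ := hm
    have hG : Nat.card G = 3 ^ m := hN.trans hm
    rcases Nat.eq_zero_or_pos m with h0 | h0
    · rw [h0, pow_zero] at hG
      obtain ⟨h2, h3⟩ := Nat.card_eq_one_iff_unique.1 hG
      refine ⟨0, Fin.elim0, fun i => i.elim0, fun i => i.elim0, ?_⟩
      have hu : Unique G := ⟨⟨0⟩, fun a => Subsingleton.elim _ _⟩
      exact ⟨AddEquiv.ofUnique⟩
    · classical
      have hex : ∃ k : ℕ, ∀ x : G, 3 ^ k • x = 0 := ⟨m, fun x => by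
        rw [← hG]; exact card_nsmul_eq_zero'⟩
      set k := Nat.find hex with hk
      have hk1 : ∀ x : G, 3 ^ k • x = 0 := Nat.find_spec hex
      have hk0 : k ≠ 0 := by
        intro hk0
        have h1 : ∀ x : G, x = 0 := by
          intro x
          have := hk1 x
          rwa [hk0, pow_zero, one_smul] at this
        have h2 : Nat.card G = 1 := by
          rw [Nat.card_eq_one_iff_unique]
          exact ⟨⟨fun a b => by rw [h1 a, h1 b]⟩, ⟨0⟩⟩
        rw [h2] at hG
        have h3 : 1 < 3 ^ m := Nat.one_lt_pow (by omega) (by norm_num)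
        omega
      obtain ⟨κ, hκ⟩ : ∃ κ, k = κ + 1 := ⟨k - 1, by omega⟩
      have hmin : ∃ x : G, 3 ^ κ • x ≠ 0 := by
        by_contra hcon
        push Not at hcon
        exact Nat.find_min hex (m := κ) (by omega) hcon
      rw [hκ] at hk1
      obtain ⟨x, hx⟩ := hmin
      obtain ⟨φ, hφ⟩ := exists_full hG hk1 hx
      obtain ⟨e⟩ := split φ hφ hk1
      obtain ⟨m', hm'⟩ := sub_pow hG φ.ker
      have hlt : Nat.card φ.ker < N := by
        have h1 := Nat.card_congr e.toEquiv
        rw [Nat.card_prod, Nat.card_zmod, hN] at h1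
        have h2 : 1 < 3 ^ (κ + 1) := Nat.one_lt_pow (by omega) (by norm_num)
        have h3 : 0 < Nat.card φ.ker := Nat.card_pos
        rw [h1]
        nlinarith
      obtain ⟨n', k', hk', hk1', ⟨e'⟩⟩ := ih _ hlt φ.ker rfl ⟨m', hm'⟩
      have hbound : ∀ i, k' i ≤ κ + 1 := by
        intro i
        have h1 : 3 ^ (κ + 1) • (Pi.single i 1 : (i : Fin n') → ZMod (3 ^ k' i)) = 0 := by
          have h2 : 3 ^ (κ + 1) • (e'.symm (Pi.single i 1)) = 0 := by
            apply Subtype.ext
            exact hk1 _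
          have h3 := congrArg e' h2
          rw [map_nsmul, AddEquiv.apply_symm_apply, map_zero] at h3
          exact h3
        have h4 := congrFun h1 i
        rw [Pi.smul_apply, Pi.single_eq_same, Pi.zero_apply, nsmul_eq_mul, mul_one,
          ZMod.natCast_eq_zero_iff] at h4
        exact (Nat.pow_dvd_pow_iff_le_right (by norm_num : 1 < 3)).1 h4
      refine ⟨n' + 1, Fin.cons (κ + 1) k', ?_, ?_, ?_⟩
      · intro i j hij
        rcases Fin.eq_zero_or_eq_succ i with rfl | ⟨i, rfl⟩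
        · rcases Fin.eq_zero_or_eq_succ j with rfl | ⟨j, rfl⟩
          · exact le_rfl
          · exact hbound j
        · rcases Fin.eq_zero_or_eq_succ j with rfl | ⟨j, rfl⟩
          · exact absurd hij (by simp)
          · exact hk' (Fin.succ_le_succ_iff.1 hij)
      · intro i
        rcases Fin.eq_zero_or_eq_succ i with rfl | ⟨i, rfl⟩
        · exact Nat.succ_le_succ (Nat.zero_le _)
        · exact hk1' i
      · exact ⟨(e.trans (AddEquiv.prodCongr (AddEquiv.refl _) e')).trans
          (consE (Fin.cons (κ + 1) k' : Fin (n' + 1) → ℕ)).symm⟩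

end Pool.Agent.N9
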