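import Pool.Agent.N9.G10

set_option autoImplicit false

/-! # Admissible sets: the lower bound with the cap set term -/

namespace Pool.Agent.N9
open Finset Pool.Agent.DG

universe u

theorem lowStepAdm {H : Type*} [AddCommGroup H] [Fintype H] (r : ℕ) (C : Finset H) (hC : Adm C) :
    ∃ C' : Finset (ZMod (3 ^ (r + 1)) × H), Adm C' ∧
      C'.card = (3 ^ r - 1) * Nat.card H + 2 * C.card := by
  classical
  set I : Finset (ZMod (3 ^ (r + 1))) := (Finset.Ico 1 (3 ^ r)).image (fun a : ℕ => (a : ZMod _))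
    with hI
  set J : Finset (ZMod (3 ^ (r + 1))) := {0, cc r} with hJ
  have hr : 0 < 3 ^ r := by positivity
  have hr1 : 3 ^ (r + 1) = 3 * 3 ^ r := by rw [pow_succ]; ring
  have hinj : ∀ a b : ℕ, a ≤ 3 ^ r → b ≤ 3 ^ r →
      ((a : ℕ) : ZMod (3 ^ (r + 1))) = ((b : ℕ) : ZMod (3 ^ (r + 1))) → a = b := by
    intro a b ha hb h
    rw [ZMod.natCast_eq_natCast_iff'] at h
    rwa [Nat.mod_eq_of_lt (by omega), Nat.mod_eq_of_lt (by omega)] at h
  have hIc : I.card = 3 ^ r - 1 := by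
    rw [hI, Finset.card_image_of_injOn, Nat.card_Ico]
    intro a ha b hb h
    rw [Finset.mem_coe, Finset.mem_Ico] at ha hb
    exact hinj a b (by omega) (by omega) h
  have hJc : J.card = 2 := by
    rw [hJ, Finset.card_insert_of_notMem, Finset.card_singleton]
    rw [Finset.mem_singleton]
    exact (cc_ne r).symm
  set C' := I ×ˢ (univ : Finset H) ∪ J ×ˢ C with hC'
  have hdisj : Disjoint (I ×ˢ (univ : Finset H)) (J ×ˢ C) := by
    rw [Finset.disjoint_left]
    rintro ⟨a, x⟩ h1 h2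
    rw [Finset.mem_product] at h1 h2
    rw [hI, Finset.mem_image] at h1
    obtain ⟨⟨a', ha', ha''⟩, _⟩ := h1
    rw [Finset.mem_Ico] at ha'
    have h3 : a = 0 ∨ a = cc r := by
      have := h2.1
      rw [hJ, Finset.mem_insert, Finset.mem_singleton] at this
      exact this
    rcases h3 with h3 | h3
    · have := hinj a' 0 (by omega) (by omega) (by rw [Nat.cast_zero]; exact ha''.trans h3)
      omega
    · have := hinj a' (3 ^ r) (by omega) (by omega) (ha''.trans h3)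
      omega
  refine ⟨C', ?_, ?_⟩
  · have hmem : ∀ x ∈ C', ∃ a : ℕ, x.1 = (a : ZMod (3 ^ (r + 1))) ∧ a ≤ 3 ^ r ∧
        ((a = 0 ∨ a = 3 ^ r) → x.2 ∈ C) := by
      intro x hx
      rw [hC', Finset.mem_union, Finset.mem_product, Finset.mem_product] at hx
      rcases hx with ⟨h1, _⟩ | ⟨h1, h2⟩
      · rw [hI, Finset.mem_image] at h1
        obtain ⟨a, ha, ha'⟩ := h1
        rw [Finset.mem_Ico] at ha
        refine ⟨a, ha'.symm, by omega, ?_⟩
        rintro (h | h) <;> omega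
      · rw [hJ, Finset.mem_insert, Finset.mem_singleton] at h1
        rcases h1 with h1 | h1
        · exact ⟨0, by rw [h1, Nat.cast_zero], by omega, fun _ => h2⟩
        · exact ⟨3 ^ r, h1, le_rfl, fun _ => h2⟩
    intro x hx y hy z hz hxy hxz hyz hs
    obtain ⟨a, ha, ha1, ha2⟩ := hmem x hx
    obtain ⟨b, hb, hb1, hb2⟩ := hmem y hy
    obtain ⟨c, hc, hc1, hc2⟩ := hmem z hz
    have h1 : x.1 + y.1 + z.1 = 0 := congrArg Prod.fst hs
    have h2 : x.2 + y.2 + z.2 = 0 := congrArg Prod.snd hs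
    rw [ha, hb, hc, ← Nat.cast_add, ← Nat.cast_add, ZMod.natCast_eq_zero_iff] at h1
    obtain ⟨t, ht⟩ := h1
    have ht1 : t < 2 := by
      by_contra h
      have h4 : 3 ^ (r + 1) * 2 ≤ 3 ^ (r + 1) * t := Nat.mul_le_mul_left _ (by omega)
      omega
    have h5 : (a = 0 ∧ b = 0 ∧ c = 0) ∨ (a = 3 ^ r ∧ b = 3 ^ r ∧ c = 3 ^ r) := by
      interval_cases t
      · left; omega
      · right; omega
    have h6 : a = b ∧ a = c ∧ b = c := by omega
    have d1 : x.2 ≠ y.2 := fun h => hxy (Prod.ext (by rw [ha, hb, h6.1]) h)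
    have d2 : x.2 ≠ z.2 := fun h => hxz (Prod.ext (by rw [ha, hc, h6.2.1]) h)
    have d3 : y.2 ≠ z.2 := fun h => hyz (Prod.ext (by rw [hb, hc, h6.2.2]) h)
    exact hC _ (ha2 (by omega)) _ (hb2 (by omega)) _ (hc2 (by omega)) d1 d2 d3 h2
  · rw [hC', Finset.card_union_of_disjoint hdisj, Finset.card_product, Finset.card_product, hIc,
      hJc, Finset.card_univ, Nat.card_eq_fintype_card]

theorem Adm_transport {G H : Type*} [AddCommGroup G] [AddCommGroup H] (e : G ≃+ H)
    (C : Finset H) (hC : Adm C) : ∃ C' : Finset G, Adm C' ∧ C'.card = C.card := by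
  refine ⟨C.map e.symm.toEquiv.toEmbedding, ?_, Finset.card_map _⟩
  intro x hx y hy z hz hxy hxz hyz hs
  rw [Finset.mem_map] at hx hy hz
  obtain ⟨x', hx', rfl⟩ := hx
  obtain ⟨y', hy', rfl⟩ := hy
  obtain ⟨z', hz', rfl⟩ := hz
  have h1 : e.symm x' + e.symm y' + e.symm z' = 0 := hs
  rw [← map_add, ← map_add] at h1
  exact hC x' hx' y' hy' z' hz' (fun h => hxy (by rw [h])) (fun h => hxz (by rw [h]))
    (fun h => hyz (by rw [h])) ((map_eq_zero_iff e.symm e.symm.injective).1 h1)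

/-- The number of cyclic factors of order at least nine. -/
def ns {n : ℕ} (k : Fin n → ℕ) : ℕ := ((univ : Finset (Fin n)).filter (fun i => 2 ≤ k i)).card

theorem ns_one {n : ℕ} (k : Fin n → ℕ) (h : ∀ i, k i = 1) : ns k = 0 := by
  unfold ns
  rw [Finset.card_eq_zero, Finset.filter_eq_empty_iff]
  intro i _
  rw [h i]
  omega

theorem ns_succ {n : ℕ} (k : Fin (n + 1) → ℕ) (h : 2 ≤ k 0) :
    ns k = ns (fun i => k i.succ) + 1 := by
  unfold ns
  rw [Fin.card_filter_univ_succ, if_pos h]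

theorem val_one {n : ℕ} (k : Fin n → ℕ) (h : ∀ i, k i = 1) : val k = 0 := by
  unfold val
  apply Finset.sum_eq_zero
  intro i _
  rw [h i]
  simp

theorem val_succ {n : ℕ} (k : Fin (n + 1) → ℕ) : val k =
    (3 ^ (k 0 - 1) - 1) * Nat.card ((i : Fin n) → ZMod (3 ^ k i.succ)) +
      2 * val (fun i => k i.succ) := by
  rw [val_eq, val_eq, List.ofFn_succ, F_cons, card_pi]

theorem adm_of_ap {n : ℕ} (S : Finset (Fin n → ZMod 3))
    (hS : ThreeAPFree (S : Set (Fin n → ZMod 3))) :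
    Adm S := by
  intro x hx y hy z hz hxy _ _ hs
  have h3 : y + y + y = 0 := by
    funext i
    have : ∀ a : ZMod 3, a + a + a = 0 := by decide
    exact this (y i)
  apply hxy
  apply hS (Finset.mem_coe.2 hx) (Finset.mem_coe.2 hy) (Finset.mem_coe.2 hz)
  have h4 : x + z = -y := by
    rw [eq_neg_iff_add_eq_zero, ← hs]; abel
  rw [h4, neg_eq_iff_add_eq_zero, ← h3]
  abel

theorem low_adm : ∀ (n : ℕ) (k : Fin n → ℕ), Antitone k → (∀ i, 1 ≤ k i) →
    ∀ r, r + ns k = n → ∀ S : Finset (Fin r → ZMod 3), ThreeAPFree (S : Set (Fin r → ZMod 3)) →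
      ∃ C : Finset ((i : Fin n) → ZMod (3 ^ k i)), Adm C ∧
        C.card = val k + 2 ^ ns k * S.card := by
  have ones : ∀ (n : ℕ) (k : Fin n → ℕ), (∀ i, k i = 1) → ∀ r, r + ns k = n →
      ∀ S : Finset (Fin r → ZMod 3), ThreeAPFree (S : Set (Fin r → ZMod 3)) →
      ∃ C : Finset ((i : Fin n) → ZMod (3 ^ k i)), Adm C ∧
        C.card = val k + 2 ^ ns k * S.card := by
    intro n k h r hr S hS
    rw [ns_one k h, add_zero] at hr
    subst hr
    have e : ((i : Fin r) → ZMod (3 ^ k i)) ≃+ (Fin r → ZMod 3) :=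
      AddEquiv.piCongrRight (fun i =>
        ((ZMod.ringEquivCongr (by rw [h i, pow_one]) : ZMod (3 ^ k i) ≃+* ZMod 3)).toAddEquiv)
    obtain ⟨C, hC, hCc⟩ := Adm_transport e S (adm_of_ap S hS)
    refine ⟨C, hC, ?_⟩
    rw [hCc, ns_one k h, val_one k h, pow_zero, one_mul, zero_add]
  intro n
  induction n with
  | zero =>
    intro k _ _ r hr S hS
    exact ones 0 k (fun i => i.elim0) r hr S hS
  | succ n ih =>
    intro k hk hk1 r hr S hS
    by_cases h2 : 2 ≤ k 0
    · rw [ns_succ k h2] at hr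
      obtain ⟨C, hC, hCc⟩ := ih (fun i => k i.succ)
        (fun i j hij => hk (Fin.succ_le_succ_iff.2 hij)) (fun i => hk1 i.succ) r (by omega) S hS
      obtain ⟨m, hm⟩ : ∃ m, k 0 = m + 1 := ⟨k 0 - 1, by omega⟩
      obtain ⟨C', hC', hCc'⟩ := lowStepAdm m C hC
      have key : ∃ D : Finset (ZMod (3 ^ k 0) × ((i : Fin n) → ZMod (3 ^ k i.succ))), Adm D ∧
          D.card = (3 ^ m - 1) * Nat.card ((i : Fin n) → ZMod (3 ^ k i.succ)) + 2 * C.card := by
        rw [hm]
        exact ⟨C', hC', hCc'⟩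
      obtain ⟨D, hD, hDc⟩ := key
      obtain ⟨E, hE, hEc⟩ := Adm_transport (consE k) D hD
      refine ⟨E, hE, ?_⟩
      rw [hEc, hDc, hCc, val_succ, ns_succ k h2, hm, Nat.add_sub_cancel, pow_succ]
      ring
    · apply ones (n + 1) k _ r hr S hS
      intro i
      have h3 := hk (Fin.zero_le i)
      have h4 := hk1 i
      omega

end Pool.Agent.N9
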