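import Pool.Agent.N9.G11
import Pool.Agent.N9.EE

set_option autoImplicit false

/-! # Progression-free sets and the elements of order three -/

namespace Pool.Agent.N9
open Finset Pool.Agent.DG

theorem ap_coset {G : Type*} [AddCommGroup G] [Finite G] (H : AddSubgroup G) {R : ℕ}
    (hR : ∀ W : Finset H, ThreeAPFree (W : Set H) → W.card ≤ R)
    (S : Finset G) (hS : ThreeAPFree (S : Set G)) : Nat.card H * S.card ≤ Nat.card G * R := by
  classical
  have _ := Fintype.ofFinite (G ⧸ H)
  have h1 : S.card =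
      ∑ c : G ⧸ H, (S.filter (fun x => (QuotientAddGroup.mk x : G ⧸ H) = c)).card :=
    Finset.card_eq_sum_card_fiberwise (fun x _ => Finset.mem_coe.2 (Finset.mem_univ _))
  have h2 : ∀ c : G ⧸ H,
      (S.filter (fun x => (QuotientAddGroup.mk x : G ⧸ H) = c)).card ≤ R := by
    intro c
    obtain ⟨x0, rfl⟩ := QuotientAddGroup.mk_surjective c
    obtain ⟨W, hW, hWc⟩ := tr H (S.filter (fun x => (QuotientAddGroup.mk x : G ⧸ H) =
      QuotientAddGroup.mk x0)) x0 (by
        intro x hx
        rw [Finset.mem_filter] at hx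
        have h := QuotientAddGroup.eq.1 hx.2.symm
        rwa [neg_add_eq_sub] at h)
    rw [← hWc]
    apply hR
    intro a ha b hb c hc h
    have ha' := Finset.mem_coe.2 (Finset.mem_filter.1 (hW a (Finset.mem_coe.1 ha))).1
    have hb' := Finset.mem_coe.2 (Finset.mem_filter.1 (hW b (Finset.mem_coe.1 hb))).1
    have hc' := Finset.mem_coe.2 (Finset.mem_filter.1 (hW c (Finset.mem_coe.1 hc))).1
    have h' : (a : G) + c = b + b := congrArg (fun v : H => (v : G)) h
    have h3 := hS ha' hb' hc' (by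
      have e1 : (a : G) + x0 + (c + x0) = (a + c) + (x0 + x0) := by abel
      have e2 : (b : G) + x0 + (b + x0) = (b + b) + (x0 + x0) := by abel
      rw [e1, e2, h'])
    exact Subtype.ext (add_right_cancel h3)
  have h4 : S.card ≤ Nat.card (G ⧸ H) * R := by
    rw [h1, Nat.card_eq_fintype_card]
    calc ∑ c : G ⧸ H, (S.filter (fun x => (QuotientAddGroup.mk x : G ⧸ H) = c)).card
        ≤ ∑ _c : G ⧸ H, R := Finset.sum_le_sum (fun c _ => h2 c)
      _ = _ := by rw [Finset.sum_const, smul_eq_mul, Finset.card_univ]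
  rw [AddSubgroup.card_eq_card_quotient_mul_card_addSubgroup H]
  calc Nat.card H * S.card ≤ Nat.card H * (Nat.card (G ⧸ H) * R) := Nat.mul_le_mul_left _ h4
    _ = _ := by ring

/-- The elements with `3x = 0`. -/
def Om (G : Type*) [AddCommGroup G] : AddSubgroup G where
  carrier := {x | x + x + x = 0}
  zero_mem' := by
    change (0 : G) + 0 + 0 = 0
    rw [add_zero, add_zero]
  add_mem' := by
    intro a b ha hb
    change a + b + (a + b) + (a + b) = 0
    have e : a + b + (a + b) + (a + b) = (a + a + a) + (b + b + b) := by abel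
    rw [e]
    rw [show a + a + a = 0 from ha, show b + b + b = 0 from hb, add_zero]
  neg_mem' := by
    intro a ha
    change -a + -a + -a = 0
    have e : -a + -a + -a = -(a + a + a) := by abel
    rw [e, show a + a + a = 0 from ha, neg_zero]

theorem mem_Om {G : Type*} [AddCommGroup G] {x : G} : x ∈ Om G ↔ x + x + x = 0 := Iff.rfl

theorem om_equiv {G : Type*} [AddCommGroup G] [Finite G] {n : ℕ}
    (h : Nat.card (Om G) = 3 ^ n) : Nonempty (Om G ≃+ (Fin n → ZMod 3)) := by
  letI : Module (ZMod 3) (Om G) := AddCommGroup.zmodModule (by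
    intro x
    have h3 : (x : G) + x + x = 0 := mem_Om.1 x.2
    apply Subtype.ext
    change ((3 • x : Om G) : G) = 0
    rw [AddSubgroup.coe_nsmul, succ_nsmul, two_nsmul]
    exact h3)
  have hfin : Module.Finite (ZMod 3) (Om G) := Module.Finite.of_finite
  have hc : Nat.card (Om G) = Nat.card (ZMod 3) ^ Module.finrank (ZMod 3) (Om G) :=
    Module.natCard_eq_pow_finrank
  rw [h, Nat.card_zmod] at hc
  have hn : Module.finrank (ZMod 3) (Om G) = n :=
    (Nat.pow_right_injective (show 2 ≤ 3 by norm_num) hc).symm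
  exact ⟨(Module.finBasisOfFinrankEq (ZMod 3) (Om G) hn).equivFun.toAddEquiv⟩

theorem tors_one_eq {k : ℕ} (h : 1 ≤ k) : tors (ZMod (3 ^ k)) 1 = 3 := by
  apply le_antisymm _ (tors_one h)
  obtain ⟨r, rfl⟩ : ∃ r, k = r + 1 := ⟨k - 1, by omega⟩
  classical
  unfold tors
  have : Fintype {x : ZMod (3 ^ (r + 1)) // 3 ^ 1 • x = 0} := Fintype.ofFinite _
  rw [Nat.card_eq_fintype_card, Fintype.card_subtype]
  calc ((univ : Finset (ZMod (3 ^ (r + 1)))).filter (fun x => 3 ^ 1 • x = 0)).card
      ≤ ({0, cc r, cc r + cc r} : Finset (ZMod (3 ^ (r + 1)))).card := by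
        apply Finset.card_le_card
        intro x hx
        rw [Finset.mem_filter] at hx
        have h3 : x + x + x = 0 := by
          have := hx.2
          rwa [pow_one, succ_nsmul, two_nsmul] at this
        rw [Finset.mem_insert, Finset.mem_insert, Finset.mem_singleton]
        exact bot x h3
    _ ≤ 3 := Finset.card_le_three

theorem card_Om {G : Type*} [AddCommGroup G] [Finite G] {n : ℕ} (k : Fin n → ℕ)
    (hk1 : ∀ i, 1 ≤ k i) (e : G ≃+ ((i : Fin n) → ZMod (3 ^ k i))) :
    Nat.card (Om G) = 3 ^ n := by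
  have h1 : Nat.card (Om G) = tors G 1 := by
    unfold tors
    apply Nat.card_congr
    refine Equiv.subtypeEquivRight ?_
    intro x
    change x + x + x = 0 ↔ 3 ^ 1 • x = 0
    rw [pow_one, succ_nsmul, two_nsmul]
  rw [h1, tors_congr e, tors_pi]
  rw [Finset.prod_congr rfl (fun i _ => tors_one_eq (hk1 i)), Finset.prod_const, Finset.card_univ,
    Fintype.card_fin]

theorem ap_transport {G H : Type*} [AddCommGroup G] [AddCommGroup H] (e : G ≃+ H)
    (W : Finset G) (hW : ThreeAPFree (W : Set G)) :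
    ∃ W' : Finset H, ThreeAPFree (W' : Set H) ∧ W'.card = W.card := by
  refine ⟨W.map e.toEquiv.toEmbedding, ?_, Finset.card_map _⟩
  intro a ha b hb c hc h
  rw [Finset.mem_coe, Finset.mem_map] at ha hb hc
  obtain ⟨a', ha', rfl⟩ := ha
  obtain ⟨b', hb', rfl⟩ := hb
  obtain ⟨c', hc', rfl⟩ := hc
  have h1 : e a' + e c' = e b' + e b' := h
  rw [← map_add, ← map_add] at h1
  have h2 := hW (Finset.mem_coe.2 ha') (Finset.mem_coe.2 hb') (Finset.mem_coe.2 hc')
    (e.injective h1)
  rw [h2]

theorem ap_shape {G : Type*} [AddCommGroup G] [Finite G] {n : ℕ} (k : Fin n → ℕ)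
    (hk1 : ∀ i, 1 ≤ k i) (e : G ≃+ ((i : Fin n) → ZMod (3 ^ k i))) {R : ℕ}
    (hR : ∀ W : Finset (Fin n → ZMod 3), ThreeAPFree (W : Set (Fin n → ZMod 3)) → W.card ≤ R)
    (S : Finset G) (hS : ThreeAPFree (S : Set G)) : 3 ^ n * S.card ≤ Nat.card G * R := by
  have hc := card_Om k hk1 e
  obtain ⟨e'⟩ := om_equiv hc
  rw [← hc]
  apply ap_coset (Om G) _ S hS
  intro W hW
  obtain ⟨W', hW', hWc⟩ := ap_transport e' W hW
  rw [← hWc]
  exact hR W' hW'

end Pool.Agent.N9
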