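import Pool.Agent.N9.G1

set_option autoImplicit false

/-! # The weights in `ZMod (3^(r+1))` -/

namespace Pool.Agent.N9
open Finset Real

/-- The weights. -/
noncomputable def kq (r : ℕ) (j : ZMod (3 ^ (r + 1))) : ℝ := K (ZMod.stdAddChar j)

/-- The element of order three. -/
def cc (r : ℕ) : ZMod (3 ^ (r + 1)) := ((3 ^ r : ℕ) : ZMod (3 ^ (r + 1)))

theorem cc3 (r : ℕ) : cc r + cc r + cc r = 0 := by
  unfold cc
  rw [← Nat.cast_add, ← Nat.cast_add, ZMod.natCast_eq_zero_iff]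
  exact ⟨1, by rw [pow_succ]; ring⟩

theorem std_cc (r : ℕ) : ZMod.stdAddChar (cc r) = e9 3 := by
  have h := ZMod.stdAddChar_coe (N := 3 ^ (r + 1)) ((3 ^ r : ℕ) : ℤ)
  have h2 : ((((3 ^ r : ℕ) : ℤ)) : ZMod (3 ^ (r + 1))) = cc r := by
    unfold cc; push_cast; rfl
  rw [h2] at h
  rw [h]
  have h3 := e9_nat 3
  rw [show ((3 : ℕ) : ZMod 9) = 3 from rfl] at h3
  rw [h3]
  congr 1
  have h4 : ((3 : ℂ) ^ r) ≠ 0 := pow_ne_zero _ (by norm_num)
  push_cast
  rw [pow_succ]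
  field_simp
  ring

theorem K_conj (z : ℂ) : K (e9 3 * (starRingEnd ℂ) z) = K z := by
  have hs : √3 * √3 = 3 := Real.mul_self_sqrt (by norm_num)
  unfold K
  rw [e9_3, Complex.mul_re, Complex.mul_im, Complex.conj_re, Complex.conj_im]
  simp only
  have : (-(1 / 2) * z.re - √3 / 2 * -z.im) / 2 + √3 / 2 * (-(1 / 2) * -z.im + √3 / 2 * z.re) =
    -z.re / 4 + (√3 * √3) * z.re / 4 + √3 / 2 * z.im := by ring
  rw [this, hs]
  ring

theorem kq_symm (r : ℕ) (j : ZMod (3 ^ (r + 1))) : kq r (cc r - j) = kq r j := by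
  unfold kq
  rw [sub_eq_add_neg, AddChar.map_add_eq_mul, std_cc, AddChar.map_neg_eq_conj, K_conj]

theorem kq_zero (r : ℕ) : kq r 0 = 1 / 2 := by
  unfold kq K
  rw [AddChar.map_zero_eq_one]
  simp

theorem kq_cc (r : ℕ) : kq r (cc r) = 1 / 2 := by
  have h := kq_symm r 0
  rw [sub_zero, kq_zero] at h
  exact h

theorem kq_int (r : ℕ) (j : ℤ) : kq r ((j : ℤ) : ZMod (3 ^ (r + 1))) =
    Real.cos (2 * π * j / 3 ^ (r + 1) - π / 3) := by
  unfold kq
  rw [ZMod.stdAddChar_coe]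
  have h1 : (2 * π * Complex.I * j / ((3 ^ (r + 1) : ℕ) : ℂ)) =
      (((2 * π * j / 3 ^ (r + 1) : ℝ)) : ℂ) * Complex.I := by
    push_cast
    ring
  rw [h1]
  unfold K
  rw [Complex.exp_ofReal_mul_I_re, Complex.exp_ofReal_mul_I_im, Real.cos_sub,
    Real.cos_pi_div_three, Real.sin_pi_div_three]
  ring

/-- `ρ = (3^r - 1)/2`. -/
theorem exists_rho (r : ℕ) : ∃ ρ : ℕ, 3 ^ r = 2 * ρ + 1 := by
  induction r with
  | zero => exact ⟨0, rfl⟩
  | succ n ih =>
    obtain ⟨ρ, h⟩ := ih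
    exact ⟨3 * ρ + 1, by rw [pow_succ, h]; ring⟩

theorem sum_range_zmod (N : ℕ) [NeZero N] (h : ZMod N → ℝ) :
    ∑ j, h j = ∑ l ∈ range N, h ((l : ℕ) : ZMod N) := by
  apply Finset.sum_nbij' (fun j => j.val) (fun l => ((l : ℕ) : ZMod N))
  · intro j _
    exact Finset.mem_range.2 (ZMod.val_lt j)
  · intro l _
    exact Finset.mem_univ _
  · intro j _
    exact ZMod.natCast_zmod_val j
  · intro l hl
    exact ZMod.val_cast_of_lt (Finset.mem_range.1 hl)
  · intro j _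
    rw [ZMod.natCast_zmod_val]

theorem tele (r L : ℕ) :
    2 * Real.sin (π / 3 ^ (r + 1)) *
      ∑ l ∈ range L, Real.cos (2 * π * (l + 1 / 2) / 3 ^ (r + 1) - 2 * π / 3) =
      Real.sin (2 * π * L / 3 ^ (r + 1) - 2 * π / 3) - Real.sin (-(2 * π / 3)) := by
  induction L with
  | zero => simp
  | succ n ih =>
    rw [Finset.sum_range_succ, mul_add, ih]
    have h1 : Real.sin (2 * π * ((n + 1 : ℕ) : ℝ) / 3 ^ (r + 1) - 2 * π / 3) -
        Real.sin (2 * π * n / 3 ^ (r + 1) - 2 * π / 3) =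
        2 * Real.sin (π / 3 ^ (r + 1)) *
          Real.cos (2 * π * (n + 1 / 2) / 3 ^ (r + 1) - 2 * π / 3) := by
      rw [Real.sin_sub_sin]
      congr 2
      · congr 1
        push_cast
        ring
      · congr 1
        push_cast
        ring
    linarith

theorem W_le (r : ℕ) : ∑ j : ZMod (3 ^ (r + 1)), max (kq r j + 1 / 2) 0 ≤
    3 ^ r + √3 / 2 / Real.sin (π / 3 ^ (r + 1)) := by
  obtain ⟨ρ, hρ⟩ := exists_rho r
  have hρR : (3 : ℝ) ^ r = 2 * ρ + 1 := by exact_mod_cast hρ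
  have hπ := Real.pi_pos
  set Q : ℝ := (3 : ℝ) ^ (r + 1) with hQ
  have hQ3 : Q = 3 * 3 ^ r := by rw [hQ, pow_succ]; ring
  have hrpos : (0 : ℝ) < 3 ^ r := by positivity
  have hQpos : 0 < Q := by rw [hQ]; positivity
  have e1 : ∑ j : ZMod (3 ^ (r + 1)), max (kq r j + 1 / 2) 0 =
      ∑ j : ZMod (3 ^ (r + 1)), max (kq r (j - ((ρ : ℕ) : ZMod (3 ^ (r + 1)))) + 1 / 2) 0 :=
    (Equiv.sum_comp (Equiv.subRight (((ρ : ℕ) : ZMod (3 ^ (r + 1)))))
      (fun j => max (kq r j + 1 / 2) 0)).symm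
  rw [e1, sum_range_zmod]
  have e2 : ∀ l : ℕ, kq r (((l : ℕ) : ZMod (3 ^ (r + 1))) - ((ρ : ℕ) : ZMod (3 ^ (r + 1)))) =
      Real.cos (2 * π * (l + 1 / 2) / Q - 2 * π / 3) := by
    intro l
    have h1 : ((l : ℕ) : ZMod (3 ^ (r + 1))) - ((ρ : ℕ) : ZMod (3 ^ (r + 1))) =
        ((((l : ℤ) - (ρ : ℤ)) : ℤ) : ZMod (3 ^ (r + 1))) := by push_cast; rfl
    rw [h1, kq_int]
    congr 1
    push_cast
    rw [← hQ]
    have h2 : (ρ : ℝ) = (3 ^ r - 1) / 2 := by rw [hρR]; ring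
    rw [h2, hQ3]
    field_simp
    ring
  simp_rw [e2]
  have e3 : 3 ^ (r + 1) = 2 * 3 ^ r + 3 ^ r := by rw [pow_succ]; ring
  rw [e3, Finset.sum_range_add]
  have hcos : Real.cos (2 * π / 3) = -(1 / 2) := by
    rw [show 2 * π / 3 = π - π / 3 by ring, Real.cos_pi_sub, Real.cos_pi_div_three]
  have p1 : ∀ l ∈ range (2 * 3 ^ r), max (Real.cos (2 * π * (l + 1 / 2) / Q - 2 * π / 3) + 1 / 2) 0 =
      Real.cos (2 * π * (l + 1 / 2) / Q - 2 * π / 3) + 1 / 2 := by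
    intro l hl
    have hl' : l + 1 ≤ 2 * 3 ^ r := by
      have := Finset.mem_range.1 hl
      omega
    have hlR : (l : ℝ) + 1 ≤ 2 * 3 ^ r := by exact_mod_cast hl'
    have hl0 : (0 : ℝ) ≤ l := Nat.cast_nonneg l
    apply max_eq_left
    have h1 : Real.cos (2 * π / 3) ≤ Real.cos (2 * π * (l + 1 / 2) / Q - 2 * π / 3) := by
      rw [← Real.cos_abs (2 * π * (l + 1 / 2) / Q - 2 * π / 3)]
      apply Real.cos_le_cos_of_nonneg_of_le_pi (abs_nonneg _) (by linarith)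
      rw [abs_le]
      constructor
      · have : 0 ≤ 2 * π * (l + 1 / 2) / Q := by positivity
        linarith
      · have : 2 * π * (l + 1 / 2) / Q ≤ 4 * π / 3 := by
          rw [div_le_iff₀ hQpos, hQ3]
          nlinarith
        linarith
    rw [hcos] at h1
    linarith
  have p2 : ∀ l ∈ range (3 ^ r), max (Real.cos (2 * π * (((2 * 3 ^ r + l : ℕ) : ℝ) + 1 / 2) / Q -
      2 * π / 3) + 1 / 2) 0 = 0 := by
    intro l hl
    have hl' : l + 1 ≤ 3 ^ r := by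
      have := Finset.mem_range.1 hl
      omega
    have hlR : (l : ℝ) + 1 ≤ 3 ^ r := by exact_mod_cast hl'
    have hl0 : (0 : ℝ) ≤ l := Nat.cast_nonneg l
    apply max_eq_right
    push_cast
    set θ := 2 * π * (2 * 3 ^ r + l + 1 / 2) / Q - 2 * π / 3 with hθ
    have h1 : 2 * π / 3 ≤ θ := by
      have : 4 * π / 3 ≤ 2 * π * (2 * 3 ^ r + l + 1 / 2) / Q := by
        rw [le_div_iff₀ hQpos, hQ3]
        nlinarith
      linarith
    have h2 : θ ≤ 4 * π / 3 := by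
      have : 2 * π * (2 * 3 ^ r + l + 1 / 2) / Q ≤ 2 * π := by
        rw [div_le_iff₀ hQpos, hQ3]
        nlinarith
      linarith
    have h3 : Real.cos θ ≤ -(1 / 2) := by
      rcases le_total θ π with h | h
      · rw [← hcos]
        exact Real.cos_le_cos_of_nonneg_of_le_pi (by positivity) h h1
      · have h4 : Real.cos θ = Real.cos (2 * π - θ) := by
          rw [Real.cos_two_pi_sub]
        rw [h4, ← hcos]
        exact Real.cos_le_cos_of_nonneg_of_le_pi (by positivity) (by linarith) (by linarith)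
    linarith
  rw [Finset.sum_congr rfl p1, Finset.sum_congr rfl p2, Finset.sum_const_zero, add_zero,
    Finset.sum_add_distrib, Finset.sum_const, Finset.card_range, nsmul_eq_mul]
  have hsin : 0 < Real.sin (π / 3 ^ (r + 1)) := by
    apply Real.sin_pos_of_pos_of_lt_pi
    · rw [← hQ]; positivity
    · rw [← hQ, div_lt_iff₀ hQpos, hQ3]
      have : (1 : ℝ) ≤ 3 ^ r := one_le_pow₀ (by norm_num)
      nlinarith
  have ht := tele r (2 * 3 ^ r)
  rw [← hQ] at ht hsin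
  have e4 : 2 * π * ((2 * 3 ^ r : ℕ) : ℝ) / Q - 2 * π / 3 = π - π / 3 := by
    rw [hQ3]
    push_cast
    field_simp
    ring
  rw [e4, Real.sin_neg, show 2 * π / 3 = π - π / 3 by ring, Real.sin_pi_sub,
    Real.sin_pi_div_three] at ht
  rw [show 2 * π / 3 = π - π / 3 by ring]
  have e5 : ∑ l ∈ range (2 * 3 ^ r), Real.cos (2 * π * (l + 1 / 2) / Q - (π - π / 3)) =
      √3 / 2 / Real.sin (π / Q) := by
    rw [eq_div_iff hsin.ne']
    linarith
  rw [e5]
  push_cast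
  linarith

end Pool.Agent.N9
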