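import Pool.Agent.N9.G2

set_option autoImplicit false

/-! # The profile inequality and its numerical consequences -/

namespace Pool.Agent.N9
open Finset Real

/-- The closed form of half the sum of the positive cosines. -/
noncomputable def Sq (r : ℕ) : ℝ := √3 / 2 / Real.sin (π / 3 ^ (r + 1))

theorem cc_ne (r : ℕ) : cc r ≠ 0 := by
  unfold cc
  rw [Ne, ZMod.natCast_eq_zero_iff]
  intro h
  have := Nat.le_of_dvd (by positivity) h
  rw [pow_succ] at this
  have h1 : 0 < 3 ^ r := by positivity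
  omega

theorem profile {r : ℕ} (α : ZMod (3 ^ (r + 1)) → ℝ) (h0 : ∀ j, 0 ≤ α j)
    (h1 : ∀ i j k, i + j + k = 0 → 0 < α i → α j + α k ≤ 1) (hb : 0 < α (cc r + cc r)) :
    ∑ j, α j * kq r j ≤ (3 ^ r + Sq r) / 2 - 1 + α 0 + α (cc r) - (∑ j, α j) / 2 := by
  classical
  set w : ZMod (3 ^ (r + 1)) → ℝ := fun j => max (kq r j + 1 / 2) 0 with hw
  have w0 : ∀ j, 0 ≤ w j := fun j => le_max_right _ _
  have wsymm : ∀ j, w (cc r - j) = w j := by
    intro j
    simp only [hw]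
    rw [kq_symm]
  have wz : w 0 = 1 := by
    simp only [hw]
    rw [kq_zero]
    norm_num
  have wc : w (cc r) = 1 := by
    simp only [hw]
    rw [kq_cc]
    norm_num
  have s1 : ∑ j, α j * kq r j + (∑ j, α j) / 2 ≤ ∑ j, α j * w j := by
    rw [Finset.sum_div, ← Finset.sum_add_distrib]
    apply Finset.sum_le_sum
    intro j _
    have : α j * kq r j + α j / 2 = α j * (kq r j + 1 / 2) := by ring
    rw [this]
    exact mul_le_mul_of_nonneg_left (le_max_left _ _) (h0 j)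
  have s2 : ∑ j, α j * w j = (∑ j, w j * (α j + α (cc r - j))) / 2 := by
    have e1 : ∑ j, α (cc r - j) * w (cc r - j) = ∑ j, α j * w j :=
      Equiv.sum_comp (Equiv.subLeft (cc r)) (fun j => α j * w j)
    have e2 : ∑ j, w j * (α j + α (cc r - j)) =
        ∑ j, α j * w j + ∑ j, α (cc r - j) * w (cc r - j) := by
      rw [← Finset.sum_add_distrib]
      apply Finset.sum_congr rfl
      intro j _
      rw [wsymm]
      ring
    rw [e2, e1]
    ring
  set X := 1 - (α 0 + α (cc r)) with hX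
  have s3 : ∑ j, w j * (α j + α (cc r - j)) ≤
      ∑ j, (w j - ((if j = 0 then X else 0) + (if j = cc r then X else 0))) := by
    apply Finset.sum_le_sum
    intro j _
    by_cases hj0 : j = 0
    · subst hj0
      rw [if_pos rfl, if_neg (cc_ne r).symm, wz, sub_zero]
      linarith
    · by_cases hjc : j = cc r
      · rw [if_neg hj0, if_pos hjc, hjc, wc, sub_self]
        linarith
      · rw [if_neg hj0, if_neg hjc]
        have h2 : α j + α (cc r - j) ≤ 1 := by
          apply h1 (cc r + cc r) j (cc r - j) _ hb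
          have : cc r + cc r + j + (cc r - j) = cc r + cc r + cc r := by abel
          rw [this, cc3]
        have := mul_le_mul_of_nonneg_left h2 (w0 j)
        linarith
  have s4 : ∑ j, (w j - ((if j = 0 then X else 0) + (if j = cc r then X else 0))) =
      ∑ j, w j - 2 * X := by
    rw [Finset.sum_sub_distrib, Finset.sum_add_distrib, Finset.sum_ite_eq', Finset.sum_ite_eq',
      if_pos (Finset.mem_univ _), if_pos (Finset.mem_univ _)]
    ring
  have s5 : ∑ j, w j ≤ 3 ^ r + Sq r := W_le r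
  rw [s4] at s3
  linarith

theorem Sq_zero : Sq 0 = 1 := by
  unfold Sq
  rw [show π / 3 ^ (0 + 1) = π / 3 by norm_num, Real.sin_pi_div_three]
  have : √3 / 2 ≠ 0 := by positivity
  exact div_self this

theorem Sq_one : Sq 1 ≤ 256 / 100 := by
  unfold Sq
  have h1 := Real.pi_gt_d4
  have h2 := Real.pi_lt_d4
  have h3 : √3 ≤ 17321 / 10000 := by
    rw [Real.sqrt_le_left (by norm_num)]
    norm_num
  set x : ℝ := π / 3 ^ (1 + 1) with hx
  have hx1 : 34905 / 100000 ≤ x := by rw [hx]; norm_num; linarith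
  have hx2 : x ≤ 34908 / 100000 := by rw [hx]; norm_num; linarith
  have h4 := Real.sin_gt_sub_cube (x := x) (by linarith)
  have h5 : 3384 / 10000 < Real.sin x := by nlinarith [mul_pos (show (0:ℝ) < x by linarith) (show (0:ℝ) < x by linarith)]
  rw [div_le_iff₀ (by linarith)]
  nlinarith

theorem Sq_big (r : ℕ) (hr : 2 ≤ r) : Sq r ≤ 2768 / 10000 * 3 ^ (r + 1) := by
  unfold Sq
  have h1 := Real.pi_gt_d4
  have h2 := Real.pi_lt_d4
  have h3 : √3 ≤ 17321 / 10000 := by
    rw [Real.sqrt_le_left (by norm_num)]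
    norm_num
  set Q : ℝ := 3 ^ (r + 1) with hQ
  have hQ27 : 27 ≤ Q := by
    rw [hQ]
    calc (27 : ℝ) = 3 ^ 3 := by norm_num
      _ ≤ 3 ^ (r + 1) := pow_le_pow_right₀ (by norm_num) (by omega)
  set x : ℝ := π / Q with hx
  have hxQ : x * Q = π := by rw [hx]; field_simp
  have hx0 : 0 < x := by rw [hx]; positivity
  have hx2 : x ≤ 1164 / 10000 := by
    rw [hx, div_le_iff₀ (by linarith)]
    nlinarith
  have h4 := Real.sin_gt_sub_cube (x := x) hx0
  have h5 : 9966 / 10000 * x ≤ Real.sin x := by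
    have h6 : x ^ 2 ≤ 1356 / 100000 := by nlinarith
    have h7 : x ^ 3 / 6 ≤ 339 / 100000 * x := by nlinarith
    linarith
  rw [div_le_iff₀ (by nlinarith)]
  have h8 : 2768 / 10000 * Q * (9966 / 10000 * x) ≤ 2768 / 10000 * Q * Real.sin x :=
    mul_le_mul_of_nonneg_left h5 (by linarith)
  have h9 : 2768 / 10000 * Q * (9966 / 10000 * x) = 2768 / 10000 * (9966 / 10000) * (x * Q) := by
    ring
  rw [h9, hxQ] at h8
  linarith

/-- Numerical consequence for characters of full order. -/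
theorem num_full {r : ℕ} (hr : 2 ≤ r) {Λ δ : ℝ} (h1 : 8 / 27 ≤ δ) (h2 : δ ≤ 1 / 3)
    (h : Λ ≤ Sq r / 2 - 3 ^ r / 2 + 3 ^ (r + 1) * δ / 2) :
    Λ ≤ 3 ^ (r + 1) * (δ ^ 2 / (1 - δ) - 1 / 20000) := by
  have hS := Sq_big r hr
  set Q : ℝ := 3 ^ (r + 1) with hQ
  have hQ3 : (3 : ℝ) ^ r = Q / 3 := by rw [hQ, pow_succ]; ring
  have hQ0 : 0 < Q := by rw [hQ]; positivity
  rw [hQ3] at h
  have h3 : Λ ≤ Q * (1384 / 10000 - 1 / 6 + δ / 2) := by linarith
  have h4 : 1384 / 10000 - 1 / 6 + δ / 2 + 1 / 20000 ≤ δ ^ 2 / (1 - δ) := by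
    rw [le_div_iff₀ (by linarith)]
    nlinarith
  have h5 := mul_le_mul_of_nonneg_left h4 hQ0.le
  linarith

/-- Numerical consequence for characters of smaller order. -/
theorem num_small {r : ℕ} {Λ δ : ℝ} (h1 : r = 0 → 22 / 81 ≤ δ) (h1' : r = 1 → 76 / 243 ≤ δ)
    (h1'' : 2 ≤ r → 32 / 100 ≤ δ) (h2 : δ ≤ 1 / 3)
    (h : Λ ≤ (3 ^ r + Sq r) / 2 - 1 / 3 - 3 ^ (r + 1) * δ / 2) :
    Λ ≤ 3 ^ (r + 1) * (δ ^ 2 / (1 - δ) - 1 / 20000) := by
  rcases r with _ | _ | r
  · have h3 := h1 rfl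
    rw [Sq_zero] at h
    norm_num at h ⊢
    have h4 : 2 / 3 - 3 * δ / 2 ≤ 3 * (δ ^ 2 / (1 - δ)) - 3 / 20000 := by
      have h5 : (2 / 9 + 1 / 20000 - δ / 2) ≤ δ ^ 2 / (1 - δ) := by
        rw [le_div_iff₀ (by linarith)]
        nlinarith
      linarith
    linarith
  · have h3 := h1' rfl
    have hS := Sq_one
    norm_num at h ⊢
    have h4 : (2447 / 9000 + 1 / 20000 - δ / 2) ≤ δ ^ 2 / (1 - δ) := by
      rw [le_div_iff₀ (by linarith)]
      nlinarith
    linarith
  · have h3 := h1'' (by omega)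
    have hS := Sq_big (r + 1 + 1) (by omega)
    set Q : ℝ := 3 ^ (r + 1 + 1 + 1) with hQ
    have hQ3 : (3 : ℝ) ^ (r + 1 + 1) = Q / 3 := by rw [hQ, pow_succ]; ring
    have hQ0 : 0 < Q := by rw [hQ]; positivity
    rw [hQ3] at h
    have h4 : 1384 / 10000 + 1 / 6 - δ / 2 + 1 / 20000 ≤ δ ^ 2 / (1 - δ) := by
      rw [le_div_iff₀ (by linarith)]
      nlinarith
    have h5 := mul_le_mul_of_nonneg_left h4 hQ0.le
    linarith

end Pool.Agent.N9
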