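import Pool.Agent.N9.G3

set_option autoImplicit false

/-! # Cosets and layers in finite 3-groups -/

namespace Pool.Agent.N9
open Finset Pool.Agent.DG

section
variable {G : Type*} [AddCommGroup G] [Finite G]

theorem tr (H : AddSubgroup G) (X : Finset G) (x0 : G) (hX : ∀ x ∈ X, x - x0 ∈ H) :
    ∃ W : Finset H, (∀ w ∈ W, (w : G) + x0 ∈ X) ∧ W.card = X.card := by
  classical
  refine ⟨X.attach.image (fun x => (⟨x.1 - x0, hX x.1 x.2⟩ : H)), ?_, ?_⟩
  · intro w hw
    rw [Finset.mem_image] at hw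
    obtain ⟨x, _, rfl⟩ := hw
    change x.1 - x0 + x0 ∈ X
    rw [sub_add_cancel]
    exact x.2
  · rw [Finset.card_image_of_injective, Finset.card_attach]
    intro x y hxy
    have := congrArg (fun v : H => (v : G)) hxy
    exact Subtype.ext (sub_left_injective this)

theorem coset_card (H : AddSubgroup G) (X : Finset G) (x0 : G) (hX : ∀ x ∈ X, x - x0 ∈ H) :
    X.card ≤ Nat.card H := by
  classical
  obtain ⟨W, _, hc⟩ := tr H X x0 hX
  have : Fintype H := Fintype.ofFinite _
  rw [← hc, Nat.card_eq_fintype_card]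
  exact Finset.card_le_univ W

theorem sub_pow {m : ℕ} (hG : Nat.card G = 3 ^ m) (H : AddSubgroup G) :
    ∃ m', Nat.card H = 3 ^ m' := by
  have hdF : Nat.card H ∣ 3 ^ m := by rw [← hG]; exact AddSubgroup.card_addSubgroup_dvd_card H
  obtain ⟨m', _, hm'⟩ := (Nat.dvd_prime_pow Nat.prime_three).1 hdF
  exact ⟨m', hm'⟩

theorem coset_third {m : ℕ} (hG : Nat.card G = 3 ^ m) (H : AddSubgroup G) (X : Finset G) (x0 : G)
    (h3 : x0 + x0 + x0 ∈ H) (hX : ∀ x ∈ X, x - x0 ∈ H) (hSF : SF X) :
    3 * X.card ≤ Nat.card H := by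
  obtain ⟨W, hW, hc⟩ := tr H X x0 hX
  obtain ⟨m', hm'⟩ := sub_pow hG H
  rw [← hc]
  apply third hm' W (-⟨x0 + x0 + x0, h3⟩)
  intro x hx y hy z hz hs
  apply hSF _ (hW x hx) _ (hW y hy) _ (hW z hz)
  have hs' : (x : G) + y + z = -(x0 + x0 + x0) := congrArg (fun v : H => (v : G)) hs
  have e : (x : G) + x0 + (y + x0) + (z + x0) = (x + y + z) + (x0 + x0 + x0) := by abel
  rw [e, hs', neg_add_cancel]

theorem SF_mono {X Y : Finset G} (hXY : X ⊆ Y) (hY : SF Y) : SF X :=
  fun x hx y hy z hz => hY x (hXY hx) y (hXY hy) z (hXY hz)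

theorem union_third {m : ℕ} (hG : Nat.card G = 3 ^ m) (H : AddSubgroup G) (U : Finset G)
    (hU1 : ∀ x ∈ U, ∀ h ∈ H, x + h ∈ U) (hU2 : ∀ x ∈ U, x + x + x ∈ H) (A : Finset G)
    (hA : SF A) (hAU : A ⊆ U) : 3 * A.card ≤ U.card := by
  classical
  set f : G → G ⧸ H := fun x => QuotientAddGroup.mk x with hf
  have h1 : A.card = ∑ c ∈ U.image f, (A.filter (fun x => f x = c)).card :=
    Finset.card_eq_sum_card_fiberwise (fun x hx =>
      Finset.mem_coe.2 (Finset.mem_image_of_mem f (hAU (Finset.mem_coe.1 hx))))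
  have h2 : U.card = ∑ c ∈ U.image f, (U.filter (fun x => f x = c)).card :=
    Finset.card_eq_sum_card_fiberwise (fun x hx =>
      Finset.mem_coe.2 (Finset.mem_image_of_mem f (Finset.mem_coe.1 hx)))
  rw [h1, h2, Finset.mul_sum]
  apply Finset.sum_le_sum
  intro c hc
  rw [Finset.mem_image] at hc
  obtain ⟨g, hg, rfl⟩ := hc
  have h3 : 3 * (A.filter (fun x => f x = f g)).card ≤ Nat.card H := by
    apply coset_third hG H _ g (hU2 g hg)
    · intro x hx
      have h4 := (Finset.mem_filter.1 hx).2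
      have h5 := QuotientAddGroup.eq.1 h4.symm
      rwa [neg_add_eq_sub] at h5
    · exact SF_mono (Finset.filter_subset _ _) hA
  have h4 : Nat.card H ≤ (U.filter (fun x => f x = f g)).card := by
    have : Fintype H := Fintype.ofFinite _
    rw [Nat.card_eq_fintype_card, ← Finset.card_univ]
    apply Finset.card_le_card_of_injOn (fun h : H => g + (h : G))
    · intro h _
      apply Finset.mem_coe.2
      rw [Finset.mem_filter]
      refine ⟨hU1 g hg h h.2, ?_⟩
      apply (QuotientAddGroup.eq.2 _).symm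
      rw [neg_add_cancel_left]
      exact h.2
    · intro a _ b _ hab
      exact Subtype.ext (add_left_cancel hab)
  exact h3.trans h4

end

section
variable {G : Type*} [AddCommGroup G] [Fintype G]

open Classical in
/-- The part of `A` inside a subgroup. -/
noncomputable def cut (A : Finset G) (C : AddSubgroup G) : Finset G := A.filter (fun x => x ∈ C)

theorem mem_cut {A : Finset G} {C : AddSubgroup G} {x : G} : x ∈ cut A C ↔ x ∈ A ∧ x ∈ C := by
  classical
  unfold cut
  rw [Finset.mem_filter]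

theorem card_cut_univ (C : AddSubgroup G) : (cut univ C).card = Nat.card C := by
  classical
  have : Fintype C := Fintype.ofFinite _
  rw [Nat.card_eq_fintype_card, ← Finset.card_univ]
  symm
  apply Finset.card_bij (fun (c : C) _ => (c : G))
  · intro c _
    exact mem_cut.2 ⟨Finset.mem_univ _, c.2⟩
  · intro a _ b _ hab
    exact Subtype.ext hab
  · intro x hx
    exact ⟨⟨x, (mem_cut.1 hx).2⟩, Finset.mem_univ _, rfl⟩

theorem layer {m : ℕ} (hG : Nat.card G = 3 ^ m) (C : ℕ → AddSubgroup G)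
    (hmono : ∀ i, C i ≤ C (i + 1)) (hC : ∀ i, ∀ x ∈ C (i + 1), x + x + x ∈ C i)
    (A : Finset G) (hA : SF A) (i : ℕ) :
    3 * (cut A (C i)).card + Nat.card (C 0) ≤ Nat.card (C i) + 3 * (cut A (C 0)).card := by
  classical
  induction i with
  | zero => omega
  | succ i ih =>
    set U : Finset G := univ.filter (fun x => x ∈ C (i + 1) ∧ x ∉ C i) with hU
    have h1 : 3 * (A.filter (fun x => x ∈ C (i + 1) ∧ x ∉ C i)).card ≤ U.card := by
      apply union_third hG (C i) U
      · intro x hx h hh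
        rw [hU, Finset.mem_filter] at hx ⊢
        refine ⟨Finset.mem_univ _, (C (i + 1)).add_mem hx.2.1 (hmono i hh), fun h' => hx.2.2 ?_⟩
        have := (C i).sub_mem h' hh
        rwa [add_sub_cancel_right] at this
      · intro x hx
        rw [hU, Finset.mem_filter] at hx
        exact hC i x hx.2.1
      · exact SF_mono (Finset.filter_subset _ _) hA
      · intro x hx
        rw [hU, Finset.mem_filter] at *
        exact ⟨Finset.mem_univ _, hx.2⟩
    have h2 : ∀ B : Finset G, (cut B (C (i + 1))).card =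
        (cut B (C i)).card + (B.filter (fun x => x ∈ C (i + 1) ∧ x ∉ C i)).card := by
      intro B
      rw [← Finset.card_union_of_disjoint]
      · congr 1
        ext x
        rw [Finset.mem_union, mem_cut, mem_cut, Finset.mem_filter]
        constructor
        · rintro ⟨h3, h4⟩
          by_cases h5 : x ∈ C i
          · exact Or.inl ⟨h3, h5⟩
          · exact Or.inr ⟨h3, h4, h5⟩
        · rintro (⟨h3, h4⟩ | ⟨h3, h4, _⟩)
          · exact ⟨h3, hmono i h4⟩
          · exact ⟨h3, h4⟩
      · rw [Finset.disjoint_left]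
        intro x hx hx'
        exact (Finset.mem_filter.1 hx').2.2 (mem_cut.1 hx).2
    have h3 := h2 A
    have h4 := h2 univ
    rw [card_cut_univ, card_cut_univ, ← hU] at h4
    have h5 := ih
    have e1 : 3 * (cut A (C (i + 1))).card = 3 * (cut A (C i)).card +
      3 * (A.filter (fun x => x ∈ C (i + 1) ∧ x ∉ C i)).card := by rw [h3]; ring
    linarith

/-- The subgroup `{x : 3^(i+1) φ(x) = 0}`. -/
def lay {P : Type*} [AddCommGroup P] (φ : G →+ P) (i : ℕ) : AddSubgroup G where
  carrier := {x | 3 ^ (i + 1) • φ x = 0}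
  zero_mem' := by
    change 3 ^ (i + 1) • φ 0 = 0
    rw [map_zero, smul_zero]
  add_mem' := by
    intro a b ha hb
    change 3 ^ (i + 1) • φ (a + b) = 0
    rw [map_add, smul_add, show 3 ^ (i + 1) • φ a = 0 from ha,
      show 3 ^ (i + 1) • φ b = 0 from hb, add_zero]
  neg_mem' := by
    intro a ha
    change 3 ^ (i + 1) • φ (-a) = 0
    rw [map_neg, smul_neg, show 3 ^ (i + 1) • φ a = 0 from ha, neg_zero]

theorem mem_lay {P : Type*} [AddCommGroup P] {φ : G →+ P} {i : ℕ} {x : G} :
    x ∈ lay φ i ↔ 3 ^ (i + 1) • φ x = 0 := Iff.rfl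

theorem layer_hom {m : ℕ} (hG : Nat.card G = 3 ^ m) {P : Type*} [AddCommGroup P] (φ : G →+ P)
    (i : ℕ) (hi : ∀ x, 3 ^ (i + 1) • φ x = 0) (A : Finset G) (hA : SF A) :
    3 * A.card + Nat.card (lay φ 0) ≤ Nat.card G + 3 * (cut A (lay φ 0)).card := by
  classical
  have h := layer hG (lay φ) ?_ ?_ A hA i
  · have h1 : cut A (lay φ i) = A := by
      ext x
      rw [mem_cut]
      exact ⟨fun h => h.1, fun h => ⟨h, hi x⟩⟩
    have h2 : Nat.card (lay φ i) = Nat.card G := by
      rw [← card_cut_univ]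
      have : cut (univ : Finset G) (lay φ i) = univ := by
        ext x
        rw [mem_cut]
        exact ⟨fun h => h.1, fun h => ⟨h, hi x⟩⟩
      rw [this, Finset.card_univ, Nat.card_eq_fintype_card]
    rw [h1, h2] at h
    exact h
  · intro i x hx
    rw [mem_lay] at hx ⊢
    rw [pow_succ, mul_comm, mul_smul, hx, smul_zero]
  · intro i x hx
    rw [mem_lay] at hx ⊢
    rw [map_add, map_add]
    have : φ x + φ x + φ x = 3 • φ x := by
      rw [succ_nsmul, two_nsmul]
    rw [this, ← mul_smul, ← pow_succ]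
    exact hx

end

end Pool.Agent.N9
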