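import Pool.Agent.N9.G4

set_option autoImplicit false

/-! # Fibres of a sum-free set over a cyclic quotient -/

namespace Pool.Agent.N9
open Finset Pool.Agent.DG

theorem cc2_ne (r : ℕ) : cc r + cc r ≠ 0 := by
  intro h
  have h3 := cc3 r
  rw [h, zero_add] at h3
  exact cc_ne r h3

theorem bot {r : ℕ} (j : ZMod (3 ^ (r + 1))) (hj : j + j + j = 0) :
    j = 0 ∨ j = cc r ∨ j = cc r + cc r := by
  have h1 : ((j.val : ℕ) : ZMod (3 ^ (r + 1))) = j := ZMod.natCast_zmod_val _
  have h2 : 3 ^ (r + 1) ∣ j.val + j.val + j.val := by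
    rw [← ZMod.natCast_eq_zero_iff]
    push_cast
    rw [h1]
    exact hj
  have h3 : 3 ^ r ∣ j.val := by
    obtain ⟨t, ht⟩ := h2
    refine ⟨t, ?_⟩
    have e0 : 3 ^ (r + 1) * t = 3 * (3 ^ r * t) := by ring
    omega
  obtain ⟨t, ht⟩ := h3
  have h4 : j.val < 3 ^ (r + 1) := ZMod.val_lt j
  have h5 : t < 3 := by
    have h4' : 3 ^ r * t < 3 ^ r * 3 := by
      rw [← ht]
      calc j.val < 3 ^ (r + 1) := h4
        _ = 3 ^ r * 3 := pow_succ 3 r
    exact Nat.lt_of_mul_lt_mul_left h4'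
  have h6 : (0 : ℕ) < 3 ^ r := by positivity
  rw [← h1, ht]
  unfold cc
  interval_cases t
  · left; simp
  · right; left; rw [mul_one]
  · right; right
    rw [← Nat.cast_add]
    congr 1
    ring

section
variable {G : Type*} [AddCommGroup G] [Fintype G] {r : ℕ} (φ : G →+ ZMod (3 ^ (r + 1)))

/-- The number of elements of `A` over `j`. -/
def nf (A : Finset G) (j : ZMod (3 ^ (r + 1))) : ℕ := (A.filter (fun x => φ x = j)).card

/-- The density of `A` over `j`. -/
noncomputable def af (A : Finset G) (j : ZMod (3 ^ (r + 1))) : ℝ :=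
  (nf φ A j : ℝ) / (Nat.card φ.ker : ℝ)

theorem card_G (hφ : Function.Surjective φ) : Nat.card G = 3 ^ (r + 1) * Nat.card φ.ker := by
  have h1 := AddSubgroup.card_eq_card_quotient_mul_card_addSubgroup φ.ker
  have h2 : Nat.card (G ⧸ φ.ker) = 3 ^ (r + 1) := by
    rw [Nat.card_congr (QuotientAddGroup.quotientKerEquivOfSurjective φ hφ).toEquiv,
      Nat.card_zmod]
  rw [h2] at h1
  exact h1

theorem sub_mem_ker {φ : G →+ ZMod (3 ^ (r + 1))} {x y : G} (h : φ x = φ y) :
    x - y ∈ φ.ker := by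
  rw [AddMonoidHom.mem_ker, map_sub, h, sub_self]

theorem nf_univ (hφ : Function.Surjective φ) (j : ZMod (3 ^ (r + 1))) :
    nf φ univ j = Nat.card φ.ker := by
  classical
  obtain ⟨x0, hx0⟩ := hφ j
  have : Fintype φ.ker := Fintype.ofFinite _
  rw [Nat.card_eq_fintype_card, ← Finset.card_univ]
  symm
  unfold nf
  apply Finset.card_bij (fun (c : φ.ker) _ => x0 + (c : G))
  · intro c _
    rw [Finset.mem_filter]
    refine ⟨Finset.mem_univ _, ?_⟩
    rw [map_add, AddMonoidHom.mem_ker.1 c.2, add_zero, hx0]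
  · intro a _ b _ hab
    exact Subtype.ext (add_left_cancel hab)
  · intro x hx
    have hx' := (Finset.mem_filter.1 hx).2
    refine ⟨⟨x - x0, sub_mem_ker (hx'.trans hx0.symm)⟩, Finset.mem_univ _, ?_⟩
    change x0 + (x - x0) = x
    abel

theorem nf_pair (hφ : Function.Surjective φ) {A : Finset G} (hA : SF A)
    {i j k : ZMod (3 ^ (r + 1))} (h : i + j + k = 0) (hi : 0 < nf φ A i) :
    nf φ A j + nf φ A k ≤ Nat.card φ.ker := by
  classical
  unfold nf at hi ⊢
  obtain ⟨y, hy⟩ := Finset.card_pos.1 hi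
  rw [Finset.mem_filter] at hy
  obtain ⟨x0, hx0⟩ := hφ j
  set Z := (A.filter (fun x => φ x = k)).image (fun z => -y - z) with hZ
  have hZc : Z.card = (A.filter (fun x => φ x = k)).card := by
    rw [hZ]
    exact Finset.card_image_of_injective _ (sub_right_injective)
  have hdisj : Disjoint (A.filter (fun x => φ x = j)) Z := by
    rw [Finset.disjoint_left]
    intro x hx hxZ
    rw [hZ, Finset.mem_image] at hxZ
    obtain ⟨z, hz, rfl⟩ := hxZ
    rw [Finset.mem_filter] at hx hz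
    apply hA _ hx.1 y hy.1 z hz.1
    abel
  rw [← hZc, ← Finset.card_union_of_disjoint hdisj]
  apply coset_card φ.ker _ x0
  intro x hx
  apply sub_mem_ker
  rw [hx0]
  rw [Finset.mem_union] at hx
  rcases hx with hx | hx
  · exact (Finset.mem_filter.1 hx).2
  · rw [hZ, Finset.mem_image] at hx
    obtain ⟨z, hz, rfl⟩ := hx
    rw [Finset.mem_filter] at hz
    rw [map_sub, map_neg, hy.2, hz.2]
    have : j = -i - k := by
      rw [← sub_eq_zero]
      rw [← h]; abel
    rw [this]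

theorem nf_third {m : ℕ} (hG : Nat.card G = 3 ^ m) (hφ : Function.Surjective φ) {A : Finset G}
    (hA : SF A) {j : ZMod (3 ^ (r + 1))} (h : j + j + j = 0) :
    3 * nf φ A j ≤ Nat.card φ.ker := by
  classical
  obtain ⟨x0, hx0⟩ := hφ j
  unfold nf
  apply coset_third hG φ.ker _ x0
  · rw [AddMonoidHom.mem_ker, map_add, map_add, hx0, h]
  · intro x hx
    exact sub_mem_ker ((Finset.mem_filter.1 hx).2.trans hx0.symm)
  · exact SF_mono (Finset.filter_subset _ _) hA

theorem smul3 (j : ZMod (3 ^ (r + 1))) : 3 ^ (0 + 1) • j = j + j + j := by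
  rw [zero_add, pow_one, succ_nsmul, two_nsmul]

theorem cut_lay (B : Finset G) : (cut B (lay φ 0)).card =
    nf φ B 0 + nf φ B (cc r) + nf φ B (cc r + cc r) := by
  classical
  have h1 : (cut B (lay φ 0)).card = ∑ j ∈ ({0, cc r, cc r + cc r} : Finset (ZMod (3 ^ (r + 1)))),
      ((cut B (lay φ 0)).filter (fun x => φ x = j)).card := by
    apply Finset.card_eq_sum_card_fiberwise
    intro x hx
    have h2 := (mem_cut.1 (Finset.mem_coe.1 hx)).2
    rw [mem_lay, smul3] at h2
    apply Finset.mem_coe.2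
    rw [Finset.mem_insert, Finset.mem_insert, Finset.mem_singleton]
    exact bot _ h2
  have h2 : ∀ j : ZMod (3 ^ (r + 1)), j + j + j = 0 →
      ((cut B (lay φ 0)).filter (fun x => φ x = j)).card = nf φ B j := by
    intro j hj
    unfold nf
    congr 1
    ext x
    rw [Finset.mem_filter, mem_cut, Finset.mem_filter, mem_lay, smul3]
    constructor
    · rintro ⟨⟨h3, _⟩, h4⟩
      exact ⟨h3, h4⟩
    · rintro ⟨h3, h4⟩
      refine ⟨⟨h3, ?_⟩, h4⟩
      rw [h4, hj]
  have h3 := cc3 r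
  have hcc : cc r ≠ cc r + cc r := by
    intro h
    apply cc_ne r
    have h4 : cc r + 0 = cc r + cc r := by rw [add_zero]; exact h
    exact (add_left_cancel h4).symm
  rw [h1, Finset.sum_insert, Finset.sum_insert, Finset.sum_singleton, h2 0 (by simp),
    h2 _ h3, h2 (cc r + cc r)]
  · ring
  · have : cc r + cc r + (cc r + cc r) + (cc r + cc r) = (cc r + cc r + cc r) +
      (cc r + cc r + cc r) := by abel
    rw [this, h3, add_zero]
  · rw [Finset.mem_singleton]
    exact hcc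
  · rw [Finset.mem_insert, Finset.mem_singleton, not_or]
    exact ⟨(cc_ne r).symm, (cc2_ne r).symm⟩

theorem nf_layer {m : ℕ} (hG : Nat.card G = 3 ^ m) (hφ : Function.Surjective φ) {A : Finset G}
    (hA : SF A) : 3 * A.card + 3 * Nat.card φ.ker ≤
      Nat.card G + 3 * (nf φ A 0 + nf φ A (cc r) + nf φ A (cc r + cc r)) := by
  have h := layer_hom hG φ r (fun x => by
    rw [nsmul_eq_mul]
    have h0 : (((3 ^ (r + 1) : ℕ)) : ZMod (3 ^ (r + 1))) = 0 := ZMod.natCast_self _
    have : ((3 ^ (r + 1) : ℕ) : ZMod (3 ^ (r + 1))) * φ x = 0 := by rw [h0, zero_mul]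
    exact_mod_cast this) A hA
  have h1 : Nat.card (lay φ 0) = 3 * Nat.card φ.ker := by
    rw [← card_cut_univ, cut_lay, nf_univ φ hφ, nf_univ φ hφ, nf_univ φ hφ]
    ring
  rw [h1, cut_lay] at h
  exact h

theorem sum_nf (A : Finset G) (g : ZMod (3 ^ (r + 1)) → ℝ) :
    ∑ x ∈ A, g (φ x) = ∑ j, (nf φ A j : ℝ) * g j := by
  rw [← Finset.sum_fiberwise A (fun x => φ x) (fun x => g (φ x))]
  apply Finset.sum_congr rfl
  intro j _
  unfold nf
  rw [← nsmul_eq_mul, ← Finset.sum_const]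
  apply Finset.sum_congr rfl
  intro x hx
  rw [(Finset.mem_filter.1 hx).2]

theorem kerpos : (0 : ℝ) < (Nat.card φ.ker : ℝ) := by exact_mod_cast Nat.card_pos

theorem nf_af (A : Finset G) (j : ZMod (3 ^ (r + 1))) :
    (nf φ A j : ℝ) = (Nat.card φ.ker : ℝ) * af φ A j := by
  unfold af
  rw [mul_div_cancel₀ _ (kerpos φ).ne']

theorem sum_af (A : Finset G) : (A.card : ℝ) = (Nat.card φ.ker : ℝ) * ∑ j, af φ A j := by
  have h := sum_nf φ A (fun _ => 1)
  simp only [mul_one, Finset.sum_const, nsmul_eq_mul] at h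
  rw [h, Finset.mul_sum]
  apply Finset.sum_congr rfl
  intro j _
  exact nf_af φ A j

theorem af_nonneg (A : Finset G) (j : ZMod (3 ^ (r + 1))) : 0 ≤ af φ A j := by
  unfold af
  positivity

theorem af_pos {A : Finset G} {j : ZMod (3 ^ (r + 1))} : 0 < af φ A j ↔ 0 < nf φ A j := by
  have h := nf_af φ A j
  have h1 := kerpos φ
  constructor
  · intro h2
    have : (0 : ℝ) < nf φ A j := by rw [h]; exact mul_pos h1 h2
    exact_mod_cast this
  · intro h2
    have h3 : (0 : ℝ) < nf φ A j := by exact_mod_cast h2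
    unfold af
    exact div_pos h3 h1

theorem af_pair (hφ : Function.Surjective φ) {A : Finset G} (hA : SF A)
    {i j k : ZMod (3 ^ (r + 1))} (h : i + j + k = 0) (hi : 0 < af φ A i) :
    af φ A j + af φ A k ≤ 1 := by
  have h1 := nf_pair φ hφ hA h ((af_pos φ).1 hi)
  unfold af
  rw [← add_div, div_le_one (kerpos φ)]
  exact_mod_cast h1

theorem af_third {m : ℕ} (hG : Nat.card G = 3 ^ m) (hφ : Function.Surjective φ) {A : Finset G}
    (hA : SF A) {j : ZMod (3 ^ (r + 1))} (h : j + j + j = 0) : af φ A j ≤ 1 / 3 := by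
  have h1 := nf_third φ hG hφ hA h
  unfold af
  rw [div_le_iff₀ (kerpos φ)]
  have : ((3 * nf φ A j : ℕ) : ℝ) ≤ (Nat.card φ.ker : ℝ) := by exact_mod_cast h1
  push_cast at this
  linarith

theorem af_layer {m : ℕ} (hG : Nat.card G = 3 ^ m) (hφ : Function.Surjective φ) {A : Finset G}
    (hA : SF A) : ∑ j, af φ A j ≤
      3 ^ r - 1 + (af φ A 0 + af φ A (cc r) + af φ A (cc r + cc r)) := by
  have h1 := nf_layer φ hG hφ hA
  rw [card_G φ hφ] at h1
  have h2 : ((3 * A.card + 3 * Nat.card φ.ker : ℕ) : ℝ) ≤ ((3 ^ (r + 1) * Nat.card φ.ker +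
    3 * (nf φ A 0 + nf φ A (cc r) + nf φ A (cc r + cc r)) : ℕ) : ℝ) := by exact_mod_cast h1
  push_cast at h2
  rw [sum_af φ A, nf_af, nf_af, nf_af] at h2
  have e0 : (3 : ℝ) ^ (r + 1) = 3 * 3 ^ r := by ring
  rw [e0] at h2
  have h3 := kerpos φ
  have h4 : (Nat.card φ.ker : ℝ) * ∑ j, af φ A j ≤ (Nat.card φ.ker : ℝ) *
      (3 ^ r - 1 + (af φ A 0 + af φ A (cc r) + af φ A (cc r + cc r))) := by
    nlinarith
  exact le_of_mul_le_mul_left h4 h3

/-- Bound for one frequency. -/
theorem charBound (hφ : Function.Surjective φ) {A : Finset G} (hA : SF A) {P : ℝ}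
    (hpos : ∀ j, j + j + j = 0 → 0 < af φ A j) (hP : ∀ j, j + j + j = 0 → af φ A j ≤ P)
    {ψ : AddChar G ℂ} (hψ : ∀ x, ψ x = ZMod.stdAddChar (φ x)) (s : ZMod (3 ^ (r + 1)))
    (hs : s + s + s = 0) :
    K (SG A ψ * ZMod.stdAddChar s) ≤ (Nat.card φ.ker : ℝ) *
      ((3 ^ r + Sq r) / 2 - 1 + 2 * P - (∑ j, af φ A j) / 2) := by
  have e1 : K (SG A ψ * ZMod.stdAddChar s) = (Nat.card φ.ker : ℝ) *
      ∑ j, af φ A (j - s) * kq r j := by
    unfold SG
    rw [Finset.sum_mul, K_sum]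
    have e2 : ∀ x ∈ A, K (ψ x * ZMod.stdAddChar s) = kq r (φ x + s) := by
      intro x _
      unfold kq
      rw [hψ, AddChar.map_add_eq_mul]
    rw [Finset.sum_congr rfl e2, sum_nf φ A (fun j => kq r (j + s)), Finset.mul_sum]
    rw [← Equiv.sum_comp (Equiv.subRight s) (fun j => (nf φ A j : ℝ) * kq r (j + s))]
    apply Finset.sum_congr rfl
    intro j _
    rw [Equiv.subRight_apply, nf_af, sub_add_cancel]
    ring
  rw [e1]
  apply mul_le_mul_of_nonneg_left _ (kerpos φ).le
  have h1 := profile (fun j => af φ A (j - s)) (fun j => af_nonneg φ A _) ?_ ?_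
  · have e3 : ∑ j, af φ A (j - s) = ∑ j, af φ A j :=
      Equiv.sum_comp (Equiv.subRight s) (fun j => af φ A j)
    rw [e3] at h1
    have h2 : af φ A (0 - s) ≤ P := by
      apply hP
      have : 0 - s + (0 - s) + (0 - s) = -(s + s + s) := by abel
      rw [this, hs, neg_zero]
    have h3 : af φ A (cc r - s) ≤ P := by
      apply hP
      have : cc r - s + (cc r - s) + (cc r - s) = (cc r + cc r + cc r) - (s + s + s) := by abel
      rw [this, hs, cc3, sub_zero]
    linarith
  · intro i j k hijk hi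
    apply af_pair φ hφ hA (i := i - s) _ hi
    have : i - s + (j - s) + (k - s) = (i + j + k) - (s + s + s) := by abel
    rw [this, hijk, hs, sub_zero]
  · apply hpos
    have : cc r + cc r - s + (cc r + cc r - s) + (cc r + cc r - s) =
      (cc r + cc r + cc r) + (cc r + cc r + cc r) - (s + s + s) := by abel
    rw [this, hs, cc3, add_zero, sub_zero]

end

theorem e9_6_eq (r : ℕ) : e9 6 = ZMod.stdAddChar (cc r + cc r) := by
  rw [AddChar.map_add_eq_mul, std_cc, ← AddChar.map_add_eq_mul]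
  rfl

end Pool.Agent.N9
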