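import Pool.Agent.N9.G5

set_option autoImplicit false

/-! # The step of the induction for exponent 9 -/

namespace Pool.Agent.N9
open Finset Pool.Agent.DG

section
variable {G : Type*} [AddCommGroup G] [Fintype G] (φ : G →+ ZMod 9)

open Classical in
/-- The fibre over `j`, translated into the kernel. -/
noncomputable def f9 (g : G) (A : Finset G) (j : ZMod 9) : Finset φ.ker :=
  (Finset.univ : Finset φ.ker).filter (fun w => (w : G) + j.val • g ∈ A)

theorem mem_f9 {g : G} {A : Finset G} {j : ZMod 9} {w : φ.ker} :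
    w ∈ f9 φ g A j ↔ (w : G) + j.val • g ∈ A := by
  classical
  unfold f9
  rw [Finset.mem_filter]
  exact ⟨fun h => h.2, fun h => ⟨Finset.mem_univ _, h⟩⟩

theorem phi_g {g : G} (hg : φ g = 1) (j : ZMod 9) : φ (j.val • g) = j := by
  rw [map_nsmul, hg, nsmul_eq_mul, mul_one, ZMod.natCast_zmod_val]

theorem card_f9 {g : G} (hg : φ g = 1) (A : Finset G) (j : ZMod 9) :
    (f9 φ g A j).card = (A.filter (fun x => φ x = j)).card := by
  classical
  apply Finset.card_bij (fun (w : φ.ker) _ => (w : G) + j.val • g)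
  · intro w hw
    rw [Finset.mem_filter]
    refine ⟨(mem_f9 φ).1 hw, ?_⟩
    rw [map_add, AddMonoidHom.mem_ker.1 w.2, zero_add, phi_g φ hg]
  · intro a _ b _ hab
    exact Subtype.ext (add_right_cancel hab)
  · intro x hx
    rw [Finset.mem_filter] at hx
    have hk : x - j.val • g ∈ φ.ker := by
      rw [AddMonoidHom.mem_ker, map_sub, phi_g φ hg, hx.2, sub_self]
    refine ⟨⟨x - j.val • g, hk⟩, ?_, ?_⟩
    · rw [mem_f9]
      change x - j.val • g + j.val • g ∈ A
      rw [sub_add_cancel]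
      exact hx.1
    · change x - j.val • g + j.val • g = x
      rw [sub_add_cancel]

theorem dec9 : ∀ i j k : ZMod 9, i + j + k = 0 → 9 ∣ i.val + j.val + k.val := by
  intro i j k h
  rw [← ZMod.natCast_eq_zero_iff]
  push_cast
  rw [ZMod.natCast_zmod_val, ZMod.natCast_zmod_val, ZMod.natCast_zmod_val]
  exact h

theorem fam_f9 {g : G} (h9 : 9 • g = 0) {A : Finset G} (hA : SF A) : FamSF (f9 φ g A) := by
  intro i j k hijk x hx y hy z hz hs
  rw [mem_f9] at hx hy hz
  apply hA _ hx _ hy _ hz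
  obtain ⟨t, ht⟩ := dec9 i j k hijk
  have hs' : (x : G) + y + z = 0 := congrArg (fun v : φ.ker => (v : G)) hs
  have e : (x : G) + i.val • g + (y + j.val • g) + (z + k.val • g) =
      (x + y + z) + (i.val + j.val + k.val) • g := by
    rw [add_smul, add_smul]; abel
  rw [e, hs', ht, mul_comm, mul_smul, h9, smul_zero, add_zero]

theorem sum_f9 {g : G} (hg : φ g = 1) (A : Finset G) (w : ZMod 9 → ℝ) :
    ∑ x ∈ A, w (φ x) = (Nat.card φ.ker : ℝ) * ∑ j, al (f9 φ g A) j * w j := by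
  rw [← Finset.sum_fiberwise A (fun x => φ x) (fun x => w (φ x)), Finset.mul_sum]
  apply Finset.sum_congr rfl
  intro j _
  have h1 : ∑ x ∈ A.filter (fun x => φ x = j), w (φ x) =
      ((A.filter (fun x => φ x = j)).card : ℝ) * w j := by
    rw [← nsmul_eq_mul, ← Finset.sum_const]
    apply Finset.sum_congr rfl
    intro x hx
    rw [(Finset.mem_filter.1 hx).2]
  rw [h1, ← card_f9 φ hg]
  unfold al
  have h2 : (0 : ℝ) < (Nat.card φ.ker : ℝ) := by exact_mod_cast Nat.card_pos
  field_simp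

theorem nineStep {m : ℕ} (hm : Nat.card φ.ker = 3 ^ m) (hφ : Function.Surjective φ)
    (h9 : ∀ x : G, 9 • x = 0) {A : Finset G} (hA : SF A) {p : ℝ} (plo : 2 / 9 ≤ p)
    (phi : p ≤ 2 / 7)
    (hM : ∀ B : Finset φ.ker, SF B → (B.card : ℝ) ≤ p * (Nat.card φ.ker : ℝ))
    {t : ℝ} (ht : (A.card : ℝ) = (Nat.card φ.ker : ℝ) * t) (hT : 2 + 2 * p < t)
    {ψ : AddChar G ℂ} (hψ : ∀ x, ψ x = e9 (φ x)) (s : ZMod 9) (hs : s + s + s = 0) :
    K (SG A ψ * e9 (-s)) ≤ (Nat.card φ.ker : ℝ) * (24 / 25 * t - 36 / 25 - 1 / 2000) := by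
  obtain ⟨g, hg⟩ := hφ 1
  have hfam := fam_f9 φ (h9 g) hA
  have hpos : (0 : ℝ) < (Nat.card φ.ker : ℝ) := by exact_mod_cast Nat.card_pos
  have hp : ∀ i : ZMod 9, i + i + i = 0 → al (f9 φ g A) i ≤ p := by
    intro i hi
    have h1 := hM (f9 φ g A i) (hfam i i i hi)
    unfold al
    rw [div_le_iff₀ hpos]
    exact h1
  have htot : tot (f9 φ g A) = t := by
    have h1 := sum_f9 φ hg A (fun _ => 1)
    simp only [mul_one, Finset.sum_const, nsmul_eq_mul] at h1
    rw [ht] at h1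
    exact (mul_left_cancel₀ hpos.ne' h1).symm
  have h2 := fam_shift hm hfam plo phi hp (by rw [htot]; exact hT) kap_bounds s hs
  rw [htot] at h2
  have e1 : K (SG A ψ * e9 (-s)) = (Nat.card φ.ker : ℝ) *
      ∑ j, al (f9 φ g A) j * kap (j - s) := by
    rw [← sum_f9 φ hg A (fun j => kap (j - s))]
    unfold SG
    rw [Finset.sum_mul, K_sum]
    apply Finset.sum_congr rfl
    intro x _
    unfold kap
    rw [hψ, sub_eq_add_neg, AddChar.map_add_eq_mul]
  rw [e1]
  exact mul_le_mul_of_nonneg_left h2 hpos.le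

end

theorem std_congr {a b : ℕ} (h : a = b) [NeZero a] [NeZero b] (x : ZMod a) :
    ZMod.stdAddChar (ZMod.ringEquivCongr h x) = ZMod.stdAddChar x := by
  subst h
  rw [ZMod.ringEquivCongr_refl]
  rfl

end Pool.Agent.N9
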