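import Pool.Agent.N9.G6

set_option autoImplicit false

/-! # The main step of the induction -/

namespace Pool.Agent.N9
open Finset Pool.Agent.DG

/-- Sum-free subsets of the kernel of every surjection to `ZMod (3^(k+1))` have at most `f`
elements. -/
def KerB (G : Type*) [AddCommGroup G] (k f : ℕ) : Prop :=
  ∀ H : AddSubgroup G, (∃ φ : G →+ ZMod (3 ^ (k + 1)), Function.Surjective φ ∧ φ.ker = H) →
    ∀ B : Finset H, SF B → B.card ≤ f

section
variable {G : Type*} [AddCommGroup G] [Fintype G]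

theorem order_le {r k : ℕ} (φ : G →+ ZMod (3 ^ (r + 1))) (hφ : Function.Surjective φ)
    (hexp : ∀ x : G, 3 ^ (k + 1) • x = 0) : r ≤ k := by
  obtain ⟨g, hg⟩ := hφ 1
  have h1 : 3 ^ (k + 1) • (1 : ZMod (3 ^ (r + 1))) = 0 := by
    rw [← hg, ← map_nsmul, hexp, map_zero]
  rw [nsmul_eq_mul, mul_one, ZMod.natCast_eq_zero_iff] at h1
  have h2 := (Nat.pow_dvd_pow_iff_le_right (by norm_num : 1 < 3)).1 h1
  omega

/-- Bottom fibres of full order. -/
theorem bottom_full {k : ℕ} (φ : G →+ ZMod (3 ^ (k + 1))) (hφ : Function.Surjective φ)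
    (hexp : ∀ x : G, 3 ^ (k + 1) • x = 0) {A : Finset G} (hA : SF A) {f : ℕ}
    (hM : ∀ B : Finset φ.ker, SF B → B.card ≤ f) {j : ZMod (3 ^ (k + 1))} (hj : j + j + j = 0) :
    nf φ A j ≤ f := by
  classical
  obtain ⟨g, hg⟩ := hφ 1
  set x0 := j.val • g with hx0
  have hφx0 : φ x0 = j := by
    rw [hx0, map_nsmul, hg, nsmul_eq_mul, mul_one, ZMod.natCast_zmod_val]
  have h3 : x0 + x0 + x0 = 0 := by
    have h4 : 3 ^ (k + 1) ∣ j.val + j.val + j.val := by
      rw [← ZMod.natCast_eq_zero_iff]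
      push_cast
      rw [ZMod.natCast_zmod_val]
      exact hj
    obtain ⟨t, ht⟩ := h4
    rw [hx0, ← add_smul, ← add_smul, ht, mul_comm, mul_smul, hexp, smul_zero]
  unfold nf
  obtain ⟨W, hW, hc⟩ := tr φ.ker (A.filter (fun x => φ x = j)) x0 (fun x hx =>
    sub_mem_ker ((Finset.mem_filter.1 hx).2.trans hφx0.symm))
  rw [← hc]
  apply hM
  intro x hx y hy z hz hs
  have hx' := (Finset.mem_filter.1 (hW x hx)).1
  have hy' := (Finset.mem_filter.1 (hW y hy)).1
  have hz' := (Finset.mem_filter.1 (hW z hz)).1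
  apply hA _ hx' _ hy' _ hz'
  have hs' : (x : G) + y + z = 0 := congrArg (fun v : φ.ker => (v : G)) hs
  have e : (x : G) + x0 + (y + x0) + (z + x0) = (x + y + z) + (x0 + x0 + x0) := by abel
  rw [e, hs', h3, add_zero]

theorem mainStep {m : ℕ} (hG : Nat.card G = 3 ^ m) {k : ℕ} (hk : 1 ≤ k)
    (hexp : ∀ x : G, 3 ^ (k + 1) • x = 0) {N f : ℕ} (hN : Nat.card G = 3 ^ (k + 1) * N)
    (hf1 : 2 * N ≤ 9 * f) (hf2 : 3 * f ≤ N) (hf3 : k = 1 → 7 * f ≤ 2 * N)
    (hM : KerB G k f) {A : Finset G} (hA : SF A) : A.card ≤ (3 ^ k - 1) * N + 2 * f := by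
  classical
  by_contra hcon
  rw [not_le] at hcon
  have hNpos : 0 < N := by
    have h1 : 0 < Nat.card G := Nat.card_pos
    rw [hN] at h1
    apply Nat.pos_of_ne_zero
    intro h0
    rw [h0, mul_zero] at h1
    exact lt_irrefl _ h1
  have hNR : (0 : ℝ) < N := by exact_mod_cast hNpos
  set p : ℝ := (f : ℝ) / N with hp
  have hpN : (f : ℝ) = p * N := by rw [hp, div_mul_cancel₀ _ hNR.ne']
  have hp1 : 2 / 9 ≤ p := by
    rw [hp, le_div_iff₀ hNR]
    have : ((2 * N : ℕ) : ℝ) ≤ ((9 * f : ℕ) : ℝ) := by exact_mod_cast hf1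
    push_cast at this
    linarith
  have hp2 : p ≤ 1 / 3 := by
    rw [hp, div_le_iff₀ hNR]
    have : ((3 * f : ℕ) : ℝ) ≤ (N : ℝ) := by exact_mod_cast hf2
    push_cast at this
    linarith
  have hp3 : k = 1 → p ≤ 2 / 7 := by
    intro h
    rw [hp, div_le_iff₀ hNR]
    have : ((7 * f : ℕ) : ℝ) ≤ ((2 * N : ℕ) : ℝ) := by exact_mod_cast hf3 h
    push_cast at this
    linarith
  set q : ℝ := 3 ^ (k + 1) with hq
  have hq9 : 9 ≤ q := by
    rw [hq]
    calc (9 : ℝ) = 3 ^ 2 := by norm_num
      _ ≤ 3 ^ (k + 1) := pow_le_pow_right₀ (by norm_num) (by omega)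
  have hq3 : (3 : ℝ) ^ k = q / 3 := by rw [hq, pow_succ]; ring
  have hGR : (Nat.card G : ℝ) = q * N := by
    rw [hN]; push_cast; rfl
  have hGpos : (0 : ℝ) < (Nat.card G : ℝ) := by rw [hGR]; positivity
  have hbig : (q / 3 - 1) * N + 2 * (p * N) < (A.card : ℝ) := by
    have h1 : (((3 ^ k - 1) * N + 2 * f : ℕ) : ℝ) < (A.card : ℝ) := by exact_mod_cast hcon
    have h2 : 1 ≤ 3 ^ k := Nat.one_le_pow _ _ (by norm_num)
    rw [Nat.cast_add, Nat.cast_mul, Nat.cast_sub h2] at h1
    push_cast at h1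
    rw [hq3, hpN] at h1
    exact h1
  set δ : ℝ := (A.card : ℝ) / (Nat.card G : ℝ) with hδ
  have hAδ : (A.card : ℝ) = (Nat.card G : ℝ) * δ := by
    rw [hδ, mul_div_cancel₀ _ hGpos.ne']
  have hδ1 : q / 3 - 1 + 2 * p < q * δ := by
    rw [hAδ, hGR] at hbig
    have h1 : (q / 3 - 1 + 2 * p) * N < (q * δ) * N := by linarith
    exact lt_of_mul_lt_mul_right h1 hNR.le
  have hδ2 : δ ≤ 1 / 3 := by
    have h1 : 3 * A.card ≤ Nat.card G := third hG A 0 hA
    rw [hδ, div_le_iff₀ hGpos]
    have : ((3 * A.card : ℕ) : ℝ) ≤ (Nat.card G : ℝ) := by exact_mod_cast h1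
    push_cast at this
    linarith
  have hδ3 : 22 / 81 < δ := by
    have h1 : q * (1 / 3 - δ) < 5 / 9 := by linarith
    by_contra h
    rw [not_lt] at h
    have h2 : 9 * (1 / 3 - δ) ≤ q * (1 / 3 - δ) :=
      mul_le_mul_of_nonneg_right hq9 (by linarith)
    linarith
  set B : ℝ := δ ^ 2 / (1 - δ) - 1 / 20000 with hB
  have h1δ : 0 < 1 - δ := by linarith
  have hB0 : 0 ≤ B := by
    have h1 : δ ^ 2 ≤ δ ^ 2 / (1 - δ) := by
      rw [le_div_iff₀ h1δ]
      nlinarith
    rw [hB]
    nlinarith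
  -- the bound for every non-trivial character
  have key : ∀ ψ : AddChar G ℂ, ψ ≠ 0 → K (SG A ψ) ≤ (Nat.card G : ℝ) * B ∧
      K (SG A ψ * e9 6) ≤ (Nat.card G : ℝ) * B ∧ K (SG A ψ * e9 3) ≤ (Nat.card G : ℝ) * B := by
    intro ψ hψ0
    obtain ⟨r, φ, hφ, hψ⟩ := char_hom hG ψ hψ0
    have hrk := order_le φ hφ hexp
    have hker : (Nat.card G : ℝ) = 3 ^ (r + 1) * (Nat.card φ.ker : ℝ) := by
      rw [card_G φ hφ]; push_cast; rfl
    have hkpos := kerpos φ
    have ht : ∑ j, af φ A j = 3 ^ (r + 1) * δ := by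
      have h1 := sum_af φ A
      rw [hAδ, hker] at h1
      have h2 : (Nat.card φ.ker : ℝ) * ∑ j, af φ A j =
        (Nat.card φ.ker : ℝ) * (3 ^ (r + 1) * δ) := by rw [← h1]; ring
      exact mul_left_cancel₀ hkpos.ne' h2
    have hlay := af_layer φ hG hφ hA
    -- it is enough to bound the normalised sums
    have fin : ∀ P : ℝ, (∀ j, j + j + j = 0 → 0 < af φ A j) → (∀ j, j + j + j = 0 → af φ A j ≤ P) →
        (3 ^ r + Sq r) / 2 - 1 + 2 * P - (∑ j, af φ A j) / 2 ≤ 3 ^ (r + 1) * B →
        K (SG A ψ) ≤ (Nat.card G : ℝ) * B ∧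
          K (SG A ψ * e9 6) ≤ (Nat.card G : ℝ) * B ∧
          K (SG A ψ * e9 3) ≤ (Nat.card G : ℝ) * B := by
      intro P hpos hP hle
      have h2 : ∀ s : ZMod (3 ^ (r + 1)), s + s + s = 0 →
          K (SG A ψ * ZMod.stdAddChar s) ≤ (Nat.card G : ℝ) * B := by
        intro s hs
        have h3 := charBound φ hφ hA hpos hP hψ s hs
        have h4 := mul_le_mul_of_nonneg_left hle hkpos.le
        rw [hker]
        calc K (SG A ψ * ZMod.stdAddChar s) ≤ _ := h3
          _ ≤ _ := h4
          _ = _ := by ring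
      refine ⟨?_, ?_, ?_⟩
      · have := h2 0 (by simp)
        rwa [AddChar.map_zero_eq_one, mul_one] at this
      · rw [e9_6_eq r]
        apply h2
        have : cc r + cc r + (cc r + cc r) + (cc r + cc r) = (cc r + cc r + cc r) +
          (cc r + cc r + cc r) := by abel
        rw [this, cc3, add_zero]
      · rw [← std_cc r]
        exact h2 _ (cc3 r)
    have hb1 := cc3 r
    have hb2 : cc r + cc r + (cc r + cc r) + (cc r + cc r) = 0 := by
      have : cc r + cc r + (cc r + cc r) + (cc r + cc r) = (cc r + cc r + cc r) +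
        (cc r + cc r + cc r) := by abel
      rw [this, cc3, add_zero]
    have posP : ∀ P : ℝ, (∀ j, j + j + j = 0 → af φ A j ≤ P) → 3 ^ r - 1 + 2 * P <
        3 ^ (r + 1) * δ → ∀ j, j + j + j = 0 → 0 < af φ A j := by
      intro P hP hlt j hj
      by_contra h0
      have h1 : af φ A j = 0 := le_antisymm (not_lt.1 h0) (af_nonneg φ A j)
      have g0 := hP 0 (by simp)
      have g1 := hP _ hb1
      have g2 := hP _ hb2
      rw [ht] at hlay
      rcases bot j hj with rfl | rfl | rfl <;> linarith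
    rcases Nat.lt_or_ge r k with hlt | hge
    · -- smaller order
      set d : ℝ := 3 ^ (k - r) with hd
      have hd3 : 3 ≤ d := by
        rw [hd]
        calc (3 : ℝ) = 3 ^ 1 := by norm_num
          _ ≤ 3 ^ (k - r) := pow_le_pow_right₀ (by norm_num) (by omega)
      have hqd : q = 3 ^ (r + 1) * d := by
        rw [hq, hd, ← pow_add]
        congr 1
        omega
      have hQ3 : (3 : ℝ) ^ r = 3 ^ (r + 1) / 3 := by rw [pow_succ]; ring
      have hlow : 3 ^ r - 5 / 27 ≤ 3 ^ (r + 1) * δ := by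
        rw [hQ3]
        set Q : ℝ := 3 ^ (r + 1) with hQ
        rw [hqd] at hδ1
        by_contra h
        rw [not_le] at h
        have h1 : 5 / 27 < Q * (1 / 3 - δ) := by linarith
        have h2 : d * (5 / 27) < d * (Q * (1 / 3 - δ)) := mul_lt_mul_of_pos_left h1 (by linarith)
        have h3 : d * (Q * (1 / 3 - δ)) < 5 / 9 := by
          have : d * (Q * (1 / 3 - δ)) = Q * d / 3 - Q * d * δ := by ring
          rw [this]
          linarith
        linarith
      apply fin (1 / 3)
      · apply posP (1 / 3) (fun j hj => af_third φ hG hφ hA hj)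
        linarith
      · exact fun j hj => af_third φ hG hφ hA hj
      · rw [ht, hB]
        apply num_small
        · rintro rfl
          norm_num at hlow
          linarith
        · rintro rfl
          norm_num at hlow
          linarith
        · intro hr2
          have hQ27 : (27 : ℝ) ≤ 3 ^ (r + 1) := by
            calc (27 : ℝ) = 3 ^ 3 := by norm_num
              _ ≤ 3 ^ (r + 1) := pow_le_pow_right₀ (by norm_num) (by omega)
          rw [hQ3] at hlow
          by_contra h
          rw [not_le] at h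
          nlinarith
        · exact hδ2
        · linarith
    · -- full order
      have hrk' : r = k := le_antisymm hrk hge
      subst hrk'
      have hNk : (N : ℝ) = (Nat.card φ.ker : ℝ) := by
        rw [hGR, ← hq] at hker
        exact mul_left_cancel₀ (by positivity) hker
      have hMφ := hM φ.ker ⟨φ, hφ, rfl⟩
      rcases Nat.lt_or_ge r 2 with hr1 | hr2
      · -- exponent nine
        have hr : r = 1 := by omega
        subst hr
        have e39 : 3 ^ (1 + 1) = 9 := rfl
        set ρ := ZMod.ringEquivCongr e39 with hρ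
        set φ9 : G →+ ZMod 9 := (ρ.toAddMonoidHom : ZMod (3 ^ (1 + 1)) →+ ZMod 9).comp φ with hφ9
        have hφ9s : Function.Surjective φ9 := ρ.surjective.comp hφ
        have hker9 : φ9.ker = φ.ker := by
          ext x
          rw [AddMonoidHom.mem_ker, AddMonoidHom.mem_ker]
          change ρ (φ x) = 0 ↔ φ x = 0
          exact map_eq_zero_iff ρ ρ.injective
        have hψ9 : ∀ x, ψ x = e9 (φ9 x) := by
          intro x
          rw [hψ x]
          exact (std_congr e39 (φ x)).symm
        have h9 : ∀ x : G, 9 • x = 0 := hexp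
        obtain ⟨m', hm'⟩ := sub_pow hG φ9.ker
        have hc9 : (Nat.card φ9.ker : ℝ) = (Nat.card φ.ker : ℝ) := by rw [hker9]
        have hG9 : (Nat.card G : ℝ) = 9 * (Nat.card φ9.ker : ℝ) := by
          rw [hc9, hker]; norm_num
        have hres : ∀ s : ZMod 9, s + s + s = 0 →
            K (SG A ψ * e9 (-s)) ≤ (Nat.card G : ℝ) * B := by
          intro s hs
          have h1 := nineStep φ9 hm' hφ9s h9 hA hp1 (hp3 rfl) ?_ (t := 9 * δ) ?_ ?_ hψ9 s hs
          · apply h1.trans
            rw [hG9, mul_comm 9 (Nat.card φ9.ker : ℝ), mul_assoc]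
            apply mul_le_mul_of_nonneg_left _ (by positivity)
            rw [hB]
            have h2 : 24 / 25 * δ - 4 / 25 ≤ δ ^ 2 / (1 - δ) := by
              rw [le_div_iff₀ h1δ]
              nlinarith [sq_nonneg (7 * δ - 2)]
            linarith
          · intro D hD
            have h2 := hM φ9.ker ⟨φ, hφ, hker9.symm⟩ D hD
            have h3 : (D.card : ℝ) ≤ (f : ℝ) := by exact_mod_cast h2
            rw [hpN, hNk, ← hc9] at h3
            exact h3
          · rw [hAδ, hG9]; ring
          · have hq' : q = 9 := by rw [hq]; norm_num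
            rw [hq'] at hδ1
            linarith
        refine ⟨?_, ?_, ?_⟩
        · have := hres 0 (by decide)
          rwa [neg_zero, AddChar.map_zero_eq_one, mul_one] at this
        · have := hres 3 (by decide)
          rwa [show (-3 : ZMod 9) = 6 from rfl] at this
        · have := hres 6 (by decide)
          rwa [show (-6 : ZMod 9) = 3 from rfl] at this
      · have hP : ∀ j, j + j + j = 0 → af φ A j ≤ p := by
          intro j hj
          have h1 := bottom_full φ hφ hexp hA hMφ hj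
          unfold af
          rw [div_le_iff₀ hkpos, ← hNk, ← hpN]
          exact_mod_cast h1
        apply fin p
        · apply posP p hP
          rw [hq3, ← hq]
          exact hδ1
        · exact hP
        · rw [ht, hB]
          apply num_full hr2
          · have hQ27 : (27 : ℝ) ≤ q := by
              rw [hq]
              calc (27 : ℝ) = 3 ^ 3 := by norm_num
                _ ≤ 3 ^ (r + 1) := pow_le_pow_right₀ (by norm_num) (by omega)
            by_contra h
            rw [not_le] at h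
            nlinarith
          · exact hδ2
          · rw [← hq, hq3]
            linarith
  have hF := fourierG A hA ((Nat.card G : ℝ) * B) (mul_nonneg hGpos.le hB0) key
  rw [← Nat.card_eq_fintype_card, hAδ] at hF
  set g : ℝ := (Nat.card G : ℝ) with hg
  have h5 : (g ^ 3 * δ) * δ ^ 2 ≤ (g ^ 3 * δ) * (B * (1 - δ)) := by
    have e1 : (g * δ) ^ 3 = (g ^ 3 * δ) * δ ^ 2 := by ring
    have e2 : g * B * (g * (g * δ) - (g * δ) ^ 2) = (g ^ 3 * δ) * (B * (1 - δ)) := by ring
    rw [← e1, ← e2]
    exact hF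
  have hgd : 0 < g ^ 3 * δ := mul_pos (pow_pos hGpos 3) (by linarith)
  have h6 := le_of_mul_le_mul_left h5 hgd
  have h7 : B * (1 - δ) = δ ^ 2 - 1 / 20000 * (1 - δ) := by
    rw [hB]
    field_simp
  rw [h7] at h6
  linarith

end

end Pool.Agent.N9
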