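import Pool.Agent.N9.G7

set_option autoImplicit false

/-! # Induction over the invariants of a finite abelian 3-group -/

namespace Pool.Agent.N9
open Finset Pool.Agent.DG

universe u

/-- The number of elements killed by `3^i`. -/
noncomputable def tors (G : Type*) [AddCommGroup G] (i : ℕ) : ℕ :=
  Nat.card {x : G // 3 ^ i • x = 0}

/-- The order of the group with invariants `L`. -/
def sz (L : List ℕ) : ℕ := (L.map (fun k => 3 ^ k)).prod

/-- `G` has the same torsion numbers as the product of the `ZMod (3^k)`, `k ∈ L`. -/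
def Inv (G : Type*) [AddCommGroup G] (L : List ℕ) : Prop :=
  (∀ i, tors G i = (L.map (fun k => tors (ZMod (3 ^ k)) i)).prod) ∧ Nat.card G = sz L

/-- The extremal value. -/
def F : List ℕ → ℕ
  | [] => 0
  | k :: L => (3 ^ (k - 1) - 1) * sz L + 2 * F L

theorem sz_cons (k : ℕ) (L : List ℕ) : sz (k :: L) = 3 ^ k * sz L := by
  unfold sz
  rw [List.map_cons, List.prod_cons]

theorem sz_pos (L : List ℕ) : 0 < sz L := by
  induction L with
  | nil => exact Nat.one_pos
  | cons k L ih => rw [sz_cons]; positivity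

theorem F_cons (k : ℕ) (L : List ℕ) : F (k :: L) = (3 ^ (k - 1) - 1) * sz L + 2 * F L := rfl

theorem F_le (L : List ℕ) (h1 : ∀ k ∈ L, 1 ≤ k) : 3 * F L ≤ sz L := by
  induction L with
  | nil => exact Nat.zero_le _
  | cons k L ih =>
    have ih' := ih (fun j hj => h1 j (List.mem_cons_of_mem _ hj))
    obtain ⟨κ, rfl⟩ : ∃ κ, k = κ + 1 := ⟨k - 1, by have := h1 k List.mem_cons_self; omega⟩
    rw [F_cons, sz_cons, Nat.add_sub_cancel]
    obtain ⟨w, hw⟩ : ∃ w, 3 ^ κ = w + 1 := ⟨3 ^ κ - 1, by
      have : 1 ≤ 3 ^ κ := Nat.one_le_pow _ _ (by norm_num)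
      omega⟩
    rw [pow_succ, hw, Nat.add_sub_cancel]
    nlinarith

theorem F_zero (L : List ℕ) (h2 : ∀ k ∈ L, k ≤ 1) : F L = 0 := by
  induction L with
  | nil => rfl
  | cons k L ih =>
    have ih' := ih (fun j hj => h2 j (List.mem_cons_of_mem _ hj))
    have hk : k - 1 = 0 := by have := h2 k List.mem_cons_self; omega
    rw [F_cons, ih', hk]
    simp

theorem F_big (k : ℕ) (L : List ℕ) (hk : 2 ≤ k) : 2 * sz (k :: L) ≤ 9 * F (k :: L) := by
  obtain ⟨κ, rfl⟩ : ∃ κ, k = κ + 2 := ⟨k - 2, by omega⟩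
  rw [F_cons, sz_cons, show κ + 2 - 1 = κ + 1 by omega]
  obtain ⟨w, hw⟩ : ∃ w, 3 ^ κ = w + 1 := ⟨3 ^ κ - 1, by
    have : 1 ≤ 3 ^ κ := Nat.one_le_pow _ _ (by norm_num)
    omega⟩
  have e1 : 3 ^ (κ + 2) = 9 * w + 9 := by rw [pow_add, hw]; ring
  have e2 : 3 ^ (κ + 1) - 1 = 3 * w + 2 := by
    rw [pow_add, hw]; omega
  rw [e1, e2]
  nlinarith [Nat.zero_le (F L), Nat.zero_le (w * sz L)]

theorem F_nine (L : List ℕ) (h1 : ∀ k ∈ L, 1 ≤ k) (h2 : ∀ k ∈ L, k ≤ 2) : 7 * F L ≤ 2 * sz L := by
  induction L with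
  | nil => exact Nat.zero_le _
  | cons k L ih =>
    have ih' := ih (fun j hj => h1 j (List.mem_cons_of_mem _ hj))
      (fun j hj => h2 j (List.mem_cons_of_mem _ hj))
    have hk1 := h1 k List.mem_cons_self
    have hk2 := h2 k List.mem_cons_self
    rw [F_cons, sz_cons]
    interval_cases k
    · norm_num
      omega
    · norm_num
      omega

theorem tors_pos (G : Type*) [AddCommGroup G] [Finite G] (i : ℕ) : 0 < tors G i := by
  unfold tors
  have : Nonempty {x : G // 3 ^ i • x = 0} := ⟨⟨0, smul_zero _⟩⟩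
  exact Nat.card_pos

theorem tors_congr {G H : Type*} [AddCommGroup G] [AddCommGroup H] (e : G ≃+ H) (i : ℕ) :
    tors G i = tors H i := by
  unfold tors
  apply Nat.card_congr
  refine Equiv.subtypeEquiv e.toEquiv ?_
  intro x
  change 3 ^ i • x = 0 ↔ 3 ^ i • e x = 0
  rw [← map_nsmul]
  exact (map_eq_zero_iff e e.injective).symm

theorem tors_prod (G H : Type*) [AddCommGroup G] [AddCommGroup H] (i : ℕ) :
    tors (G × H) i = tors G i * tors H i := by
  unfold tors
  rw [← Nat.card_prod]
  apply Nat.card_congr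
  refine ⟨fun x => (⟨x.1.1, ?_⟩, ⟨x.1.2, ?_⟩), fun x => ⟨(x.1.1, x.2.1), ?_⟩, ?_, ?_⟩
  · exact congrArg Prod.fst x.2
  · exact congrArg Prod.snd x.2
  · exact Prod.ext x.1.2 x.2.2
  · intro x; rfl
  · intro x; rfl

theorem tors_full {k i : ℕ} (h : k ≤ i) : tors (ZMod (3 ^ k)) i = 3 ^ k := by
  unfold tors
  have h1 : ∀ x : ZMod (3 ^ k), 3 ^ i • x = 0 := by
    intro x
    obtain ⟨d, rfl⟩ : ∃ d, i = k + d := ⟨i - k, by omega⟩
    rw [pow_add, mul_comm, mul_smul]
    have : (3 ^ k : ℕ) • x = 0 := by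
      rw [nsmul_eq_mul]
      have h0 : (((3 ^ k : ℕ)) : ZMod (3 ^ k)) = 0 := ZMod.natCast_self _
      rw [h0, zero_mul]
    rw [this, smul_zero]
  rw [Nat.card_congr (Equiv.subtypeUnivEquiv h1), Nat.card_zmod]

theorem tors_one {k : ℕ} (h : 1 ≤ k) : 3 ≤ tors (ZMod (3 ^ k)) 1 := by
  obtain ⟨r, rfl⟩ : ∃ r, k = r + 1 := ⟨k - 1, by omega⟩
  unfold tors
  have : Fintype {x : ZMod (3 ^ (r + 1)) // 3 ^ 1 • x = 0} := Fintype.ofFinite _
  rw [Nat.card_eq_fintype_card]
  have hz : ∀ j : ZMod (3 ^ (r + 1)), j + j + j = 0 → 3 ^ 1 • j = 0 := by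
    intro j hj
    rw [pow_one, succ_nsmul, two_nsmul]
    exact hj
  have hb1 := cc3 r
  have hb2 : cc r + cc r + (cc r + cc r) + (cc r + cc r) = 0 := by
    have : cc r + cc r + (cc r + cc r) + (cc r + cc r) = (cc r + cc r + cc r) +
      (cc r + cc r + cc r) := by abel
    rw [this, cc3, add_zero]
  have hcc : cc r ≠ cc r + cc r := by
    intro h
    apply cc_ne r
    have h4 : cc r + 0 = cc r + cc r := by rw [add_zero]; exact h
    exact (add_left_cancel h4).symm
  classical
  have h3 : ({⟨0, hz 0 (by simp)⟩, ⟨cc r, hz _ hb1⟩, ⟨cc r + cc r, hz _ hb2⟩} :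
      Finset {x : ZMod (3 ^ (r + 1)) // 3 ^ 1 • x = 0}).card = 3 := by
    rw [Finset.card_insert_of_notMem, Finset.card_insert_of_notMem, Finset.card_singleton]
    · rw [Finset.mem_singleton]
      intro h
      exact hcc (congrArg Subtype.val h)
    · rw [Finset.mem_insert, Finset.mem_singleton, not_or]
      exact ⟨fun h => cc_ne r (congrArg Subtype.val h).symm,
        fun h => cc2_ne r (congrArg Subtype.val h).symm⟩
  exact h3.symm.le.trans (Finset.card_le_univ _)

/-- The splitting over a cyclic quotient of full order. -/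
theorem split {G : Type*} [AddCommGroup G] {n : ℕ} [NeZero n] (φ : G →+ ZMod n)
    (hφ : Function.Surjective φ) (hexp : ∀ x : G, n • x = 0) :
    Nonempty (G ≃+ ZMod n × φ.ker) := by
  obtain ⟨g, hg⟩ := hφ 1
  let σ : ZMod n →+ G := ZMod.lift n ⟨zmultiplesHom G g, by
    rw [zmultiplesHom_apply, natCast_zsmul]
    exact hexp g⟩
  have hσ : ∀ j : ZMod n, σ j = j.val • g := by
    intro j
    have h1 : σ ((j.val : ℤ) : ZMod n) = (j.val : ℤ) • g := by
      change ZMod.lift n _ ((j.val : ℤ) : ZMod n) = _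
      rw [ZMod.lift_coe]
      rfl
    have h2 : ((j.val : ℤ) : ZMod n) = j := by
      push_cast
      exact ZMod.natCast_zmod_val j
    rw [h2] at h1
    rw [h1, natCast_zsmul]
  have hφσ : ∀ j : ZMod n, φ (σ j) = j := by
    intro j
    rw [hσ, map_nsmul, hg, nsmul_eq_mul, mul_one, ZMod.natCast_zmod_val]
  refine ⟨{ toFun := fun x => (φ x, ⟨x - σ (φ x), ?_⟩)
            invFun := fun y => σ y.1 + (y.2 : G)
            left_inv := ?_
            right_inv := ?_
            map_add' := ?_ }⟩
  · rw [AddMonoidHom.mem_ker, map_sub, hφσ, sub_self]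
  · intro x
    change σ (φ x) + (x - σ (φ x)) = x
    abel
  · rintro ⟨j, w⟩
    have h1 : φ (σ j + (w : G)) = j := by
      rw [map_add, hφσ, AddMonoidHom.mem_ker.1 w.2, add_zero]
    apply Prod.ext
    · exact h1
    · apply Subtype.ext
      change σ j + (w : G) - σ (φ (σ j + (w : G))) = w
      rw [h1]
      abel
  · intro x y
    apply Prod.ext
    · exact map_add φ x y
    · apply Subtype.ext
      change x + y - σ (φ (x + y)) = (x - σ (φ x)) + (y - σ (φ y))
      rw [map_add, map_add]
      abel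

theorem main_list : ∀ L : List ℕ, (∀ k ∈ L, 1 ≤ k) → L.Pairwise (fun a b => b ≤ a) →
    ∀ (G : Type u) [AddCommGroup G] [Finite G], Inv G L → ∀ A : Finset G, SF A →
      A.card ≤ F L := by
  intro L
  induction L with
  | nil =>
    intro _ _ G _ _ hI A hA
    have h1 : Nat.card G = 1 := hI.2
    have h2 : Subsingleton G := (Nat.card_eq_one_iff_unique.1 h1).1
    have h0 : A = ∅ := by
      rw [Finset.eq_empty_iff_forall_notMem]
      intro x hx
      exact hA x hx x hx x hx (Subsingleton.elim _ _)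
    rw [h0]
    exact Nat.zero_le _
  | cons k L ih =>
    intro hL1 hsort G _ _ hI A hA
    have hft : Fintype G := Fintype.ofFinite G
    have hk1 := hL1 k List.mem_cons_self
    have hL1' : ∀ j ∈ L, 1 ≤ j := fun j hj => hL1 j (List.mem_cons_of_mem _ hj)
    rw [List.pairwise_cons] at hsort
    obtain ⟨hkL, hsort'⟩ := hsort
    obtain ⟨hT, hc⟩ := hI
    have hszp : ∀ L : List ℕ, ∃ m, sz L = 3 ^ m := by
      intro L
      induction L with
      | nil => exact ⟨0, rfl⟩
      | cons k L ih =>
        obtain ⟨m, hm⟩ := ih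
        exact ⟨k + m, by rw [sz_cons, hm, pow_add]⟩
    obtain ⟨m, hm⟩ := hszp (k :: L)
    have hG : Nat.card G = 3 ^ m := hc.trans hm
    rw [sz_cons] at hc
    have hexp : ∀ x : G, 3 ^ k • x = 0 := by
      have h1 := hT k
      have h2 : ((k :: L).map (fun j => tors (ZMod (3 ^ j)) k)).prod = sz (k :: L) := by
        unfold sz
        congr 1
        apply List.map_congr_left
        intro j hj
        apply tors_full
        rcases List.mem_cons.1 hj with rfl | h
        · exact le_rfl
        · exact hkL j h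
      rw [h2, sz_cons, ← hc] at h1
      unfold tors at h1
      intro x
      by_contra hx
      have hlt : Nat.card {x : G // 3 ^ k • x = 0} < Nat.card G := by
        exact Finite.card_subtype_lt (p := fun x : G => 3 ^ k • x = 0) (x := x) hx
      omega
    by_cases hsmall : ∀ j ∈ L, j ≤ 1
    · -- the tail is elementary abelian
      rw [F_cons, F_zero L hsmall, mul_zero, add_zero]
      have hl := layer_hom hG (AddMonoidHom.id G) (k - 1) (fun x => by
        rw [Nat.sub_add_cancel hk1]
        exact hexp x) A hA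
      have h1 : (cut A (lay (AddMonoidHom.id G) 0)).card = 0 := by
        rw [Finset.card_eq_zero, Finset.eq_empty_iff_forall_notMem]
        intro x hx
        rw [mem_cut, mem_lay] at hx
        apply hA x hx.1 x hx.1 x hx.1
        have := hx.2
        rw [zero_add, pow_one, succ_nsmul, two_nsmul] at this
        exact this
      have h2 : Nat.card (lay (AddMonoidHom.id G) 0) = tors G 1 := rfl
      have h3 : 3 * sz L ≤ tors G 1 := by
        rw [hT 1, List.map_cons, List.prod_cons]
        have h4 : (L.map (fun j => tors (ZMod (3 ^ j)) 1)).prod = sz L := by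
          unfold sz
          congr 1
          apply List.map_congr_left
          intro j hj
          exact tors_full (hsmall j hj)
        rw [h4]
        exact Nat.mul_le_mul_right _ (tors_one hk1)
      rw [h1, h2, hc] at hl
      obtain ⟨κ, rfl⟩ : ∃ κ, k = κ + 1 := ⟨k - 1, by omega⟩
      rw [Nat.add_sub_cancel]
      obtain ⟨w, hw⟩ : ∃ w, 3 ^ κ = w + 1 := ⟨3 ^ κ - 1, by
        have : 1 ≤ 3 ^ κ := Nat.one_le_pow _ _ (by norm_num)
        omega⟩
      rw [pow_succ, hw] at hl
      rw [hw, Nat.add_sub_cancel]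
      nlinarith
    · push Not at hsmall
      obtain ⟨j0, hj0, hj0'⟩ := hsmall
      have hk2 : 2 ≤ k := (hj0' : 1 < j0).trans_le (hkL j0 hj0)
      obtain ⟨κ, rfl⟩ : ∃ κ, k = κ + 1 := ⟨k - 1, by omega⟩
      rw [F_cons, Nat.add_sub_cancel]
      apply mainStep hG (k := κ) (by omega) hexp hc
      · -- the head of the tail is at least two
        cases L with
        | nil => exact absurd hj0 (by simp)
        | cons k' L' =>
          apply F_big
          rw [List.pairwise_cons] at hsort'
          rcases List.mem_cons.1 hj0 with rfl | h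
          · exact hj0'
          · exact le_trans (show 2 ≤ j0 from hj0') (hsort'.1 j0 h)
      · exact F_le L hL1'
      · intro hκ
        apply F_nine L hL1'
        intro j hj
        have := hkL j hj
        omega
      · rintro H ⟨φ, hφ, rfl⟩ B hB
        have hexp' : ∀ x : G, 3 ^ (κ + 1) • x = 0 := hexp
        obtain ⟨e⟩ := split φ hφ hexp'
        apply ih hL1' hsort' φ.ker _ B hB
        constructor
        · intro i
          have h1 := tors_congr e i
          rw [tors_prod, hT i, List.map_cons, List.prod_cons] at h1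
          exact (Nat.eq_of_mul_eq_mul_left (tors_pos _ _) h1).symm
        · have h1 := Nat.card_congr e.toEquiv
          rw [Nat.card_prod, Nat.card_zmod, hc] at h1
          exact (Nat.eq_of_mul_eq_mul_left (by positivity) h1).symm
      · exact hA

end Pool.Agent.N9
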