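import Pool.Agent.N9.G8

set_option autoImplicit false

/-! # Lower bound, structure, and the exact value for finite abelian 3-groups -/

namespace Pool.Agent.N9
open Finset Pool.Agent.DG

universe u

theorem lowStep {H : Type*} [AddCommGroup H] [Fintype H] (r : ℕ) (C : Finset H) (hC : SF C) :
    ∃ C' : Finset (ZMod (3 ^ (r + 1)) × H), SF C' ∧
      C'.card = (3 ^ r - 1) * Nat.card H + 2 * C.card := by
  classical
  set I : Finset (ZMod (3 ^ (r + 1))) := (Finset.Ico 1 (3 ^ r)).image (fun a : ℕ => (a : ZMod _))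
    with hI
  set J : Finset (ZMod (3 ^ (r + 1))) := {0, cc r} with hJ
  have hr : 0 < 3 ^ r := by positivity
  have hr1 : 3 ^ (r + 1) = 3 * 3 ^ r := by rw [pow_succ]; ring
  have hinj : ∀ a b : ℕ, a ≤ 3 ^ r → b ≤ 3 ^ r →
      ((a : ℕ) : ZMod (3 ^ (r + 1))) = ((b : ℕ) : ZMod (3 ^ (r + 1))) → a = b := by
    intro a b ha hb h
    rw [ZMod.natCast_eq_natCast_iff'] at h
    rwa [Nat.mod_eq_of_lt (by omega), Nat.mod_eq_of_lt (by omega)] at h
  have hIc : I.card = 3 ^ r - 1 := by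
    rw [hI, Finset.card_image_of_injOn, Nat.card_Ico]
    intro a ha b hb h
    rw [Finset.mem_coe, Finset.mem_Ico] at ha hb
    exact hinj a b (by omega) (by omega) h
  have hJc : J.card = 2 := by
    rw [hJ, Finset.card_insert_of_notMem, Finset.card_singleton]
    rw [Finset.mem_singleton]
    exact (cc_ne r).symm
  set C' := I ×ˢ (univ : Finset H) ∪ J ×ˢ C with hC'
  have hdisj : Disjoint (I ×ˢ (univ : Finset H)) (J ×ˢ C) := by
    rw [Finset.disjoint_left]
    rintro ⟨a, x⟩ h1 h2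
    rw [Finset.mem_product] at h1 h2
    rw [hI, Finset.mem_image] at h1
    obtain ⟨⟨a', ha', ha''⟩, _⟩ := h1
    rw [Finset.mem_Ico] at ha'
    have h3 : a = 0 ∨ a = cc r := by
      have := h2.1
      rw [hJ, Finset.mem_insert, Finset.mem_singleton] at this
      exact this
    rcases h3 with h3 | h3
    · have := hinj a' 0 (by omega) (by omega) (by rw [Nat.cast_zero]; exact ha''.trans h3)
      omega
    · have := hinj a' (3 ^ r) (by omega) (by omega) (ha''.trans h3)
      omega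
  refine ⟨C', ?_, ?_⟩
  · have hmem : ∀ x ∈ C', ∃ a : ℕ, x.1 = (a : ZMod (3 ^ (r + 1))) ∧ a ≤ 3 ^ r ∧
        ((a = 0 ∨ a = 3 ^ r) → x.2 ∈ C) := by
      intro x hx
      rw [hC', Finset.mem_union, Finset.mem_product, Finset.mem_product] at hx
      rcases hx with ⟨h1, _⟩ | ⟨h1, h2⟩
      · rw [hI, Finset.mem_image] at h1
        obtain ⟨a, ha, ha'⟩ := h1
        rw [Finset.mem_Ico] at ha
        refine ⟨a, ha'.symm, by omega, ?_⟩
        rintro (h | h) <;> omega
      · rw [hJ, Finset.mem_insert, Finset.mem_singleton] at h1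
        rcases h1 with h1 | h1
        · exact ⟨0, by rw [h1, Nat.cast_zero], by omega, fun _ => h2⟩
        · exact ⟨3 ^ r, h1, le_rfl, fun _ => h2⟩
    intro x hx y hy z hz hs
    obtain ⟨a, ha, ha1, ha2⟩ := hmem x hx
    obtain ⟨b, hb, hb1, hb2⟩ := hmem y hy
    obtain ⟨c, hc, hc1, hc2⟩ := hmem z hz
    have h1 : x.1 + y.1 + z.1 = 0 := congrArg Prod.fst hs
    have h2 : x.2 + y.2 + z.2 = 0 := congrArg Prod.snd hs
    rw [ha, hb, hc, ← Nat.cast_add, ← Nat.cast_add, ZMod.natCast_eq_zero_iff] at h1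
    obtain ⟨t, ht⟩ := h1
    have ht1 : t < 2 := by
      by_contra h
      have h4 : 3 ^ (r + 1) * 2 ≤ 3 ^ (r + 1) * t := Nat.mul_le_mul_left _ (by omega)
      omega
    have h5 : (a = 0 ∧ b = 0 ∧ c = 0) ∨ (a = 3 ^ r ∧ b = 3 ^ r ∧ c = 3 ^ r) := by
      interval_cases t
      · left; omega
      · right; omega
    rcases h5 with ⟨h6, h7, h8⟩ | ⟨h6, h7, h8⟩
    · exact hC _ (ha2 (Or.inl h6)) _ (hb2 (Or.inl h7)) _ (hc2 (Or.inl h8)) h2
    · exact hC _ (ha2 (Or.inr h6)) _ (hb2 (Or.inr h7)) _ (hc2 (Or.inr h8)) h2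
  · rw [hC', Finset.card_union_of_disjoint hdisj, Finset.card_product, Finset.card_product, hIc,
      hJc, Finset.card_univ, Nat.card_eq_fintype_card]

theorem SF_transport {G H : Type*} [AddCommGroup G] [AddCommGroup H] (e : G ≃+ H) (C : Finset H)
    (hC : SF C) : ∃ C' : Finset G, SF C' ∧ C'.card = C.card := by
  refine ⟨C.map e.symm.toEquiv.toEmbedding, ?_, Finset.card_map _⟩
  intro x hx y hy z hz hs
  rw [Finset.mem_map] at hx hy hz
  obtain ⟨x', hx', rfl⟩ := hx
  obtain ⟨y', hy', rfl⟩ := hy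
  obtain ⟨z', hz', rfl⟩ := hz
  apply hC x' hx' y' hy' z' hz'
  have h1 : e.symm x' + e.symm y' + e.symm z' = 0 := hs
  rw [← map_add, ← map_add] at h1
  exact (map_eq_zero_iff e.symm e.symm.injective).1 h1

/-- Splitting off the first factor. -/
def consE {n : ℕ} (k : Fin (n + 1) → ℕ) : ((i : Fin (n + 1)) → ZMod (3 ^ k i)) ≃+
    ZMod (3 ^ k 0) × ((i : Fin n) → ZMod (3 ^ k i.succ)) where
  toFun x := (x 0, fun i => x i.succ)
  invFun y := Fin.cons y.1 y.2
  left_inv x := Fin.cons_self_tail x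
  right_inv y := by
    apply Prod.ext
    · rfl
    · funext i
      rfl
  map_add' x y := rfl

theorem card_pi {n : ℕ} (k : Fin n → ℕ) :
    Nat.card ((i : Fin n) → ZMod (3 ^ k i)) = sz (List.ofFn k) := by
  rw [Nat.card_pi]
  unfold sz
  rw [List.map_ofFn, List.prod_ofFn]
  apply Finset.prod_congr rfl
  intro i _
  rw [Nat.card_zmod]
  rfl

theorem low_pi : ∀ (n : ℕ) (k : Fin n → ℕ), (∀ i, 1 ≤ k i) →
    ∃ C : Finset ((i : Fin n) → ZMod (3 ^ k i)), SF C ∧ C.card = F (List.ofFn k) := by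
  intro n
  induction n with
  | zero =>
    intro k _
    refine ⟨∅, ?_, rfl⟩
    intro x hx
    simp at hx
  | succ n ih =>
    intro k hk
    obtain ⟨C, hC, hCc⟩ := ih (fun i => k i.succ) (fun i => hk i.succ)
    obtain ⟨r, hr⟩ : ∃ r, k 0 = r + 1 := ⟨k 0 - 1, by have := hk 0; omega⟩
    obtain ⟨C', hC', hCc'⟩ := lowStep r C hC
    have key : ∃ D : Finset (ZMod (3 ^ k 0) × ((i : Fin n) → ZMod (3 ^ k i.succ))), SF D ∧
        D.card = (3 ^ r - 1) * Nat.card ((i : Fin n) → ZMod (3 ^ k i.succ)) + 2 * C.card := by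
      rw [hr]
      exact ⟨C', hC', hCc'⟩
    obtain ⟨D, hD, hDc⟩ := key
    obtain ⟨E, hE, hEc⟩ := SF_transport (consE k) D hD
    refine ⟨E, hE, ?_⟩
    rw [hEc, hDc, hCc, List.ofFn_succ, F_cons, hr, Nat.add_sub_cancel, card_pi]

theorem tors_pi {n : ℕ} (k : Fin n → ℕ) (i : ℕ) :
    tors ((j : Fin n) → ZMod (3 ^ k j)) i = ∏ j, tors (ZMod (3 ^ k j)) i := by
  unfold tors
  rw [← Nat.card_pi]
  apply Nat.card_congr
  refine (Equiv.subtypeEquivRight ?_).trans
    (Equiv.subtypePiEquivPi (p := fun j (x : ZMod (3 ^ k j)) => 3 ^ i • x = 0))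
  intro x
  exact ⟨fun h j => congrFun h j, fun h => funext h⟩

theorem inv_pi {n : ℕ} (k : Fin n → ℕ) : Inv ((j : Fin n) → ZMod (3 ^ k j)) (List.ofFn k) := by
  constructor
  · intro i
    rw [tors_pi, List.map_ofFn, List.prod_ofFn]
    rfl
  · exact card_pi k

theorem inv_congr {G H : Type*} [AddCommGroup G] [AddCommGroup H] (e : G ≃+ H) {L : List ℕ}
    (h : Inv H L) : Inv G L := by
  constructor
  · intro i
    rw [tors_congr e i]
    exact h.1 i
  · rw [Nat.card_congr e.toEquiv]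
    exact h.2

/-- The explicit extremal value. -/
def val {n : ℕ} (k : Fin n → ℕ) : ℕ :=
  ∑ i : Fin n, 2 ^ (i : ℕ) * (3 ^ (k i - 1) - 1) * ∏ j ∈ Finset.Ioi i, 3 ^ k j

theorem val_eq : ∀ (n : ℕ) (k : Fin n → ℕ), val k = F (List.ofFn k) := by
  intro n
  induction n with
  | zero =>
    intro k
    unfold val
    rfl
  | succ n ih =>
    intro k
    rw [List.ofFn_succ, F_cons, ← ih]
    unfold val
    rw [Fin.sum_univ_succ, Fin.prod_Ioi_zero, Finset.mul_sum]
    congr 1
    · rw [Fin.val_zero, pow_zero, one_mul]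
      congr 1
      unfold sz
      rw [List.map_ofFn, List.prod_ofFn]
      rfl
    · apply Finset.sum_congr rfl
      intro i _
      rw [Fin.prod_Ioi_succ, Fin.val_succ, pow_succ]
      ring

/-- The exact value for a finite abelian 3-group given by its invariants. -/
theorem exact_val (G : Type u) [AddCommGroup G] [Finite G] {n : ℕ} (k : Fin n → ℕ)
    (hk : Antitone k) (hk1 : ∀ i, 1 ≤ k i) (e : G ≃+ ((i : Fin n) → ZMod (3 ^ k i))) :
    (∀ A : Finset G, SF A → A.card ≤ val k) ∧ ∃ A : Finset G, SF A ∧ A.card = val k := by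
  rw [val_eq]
  constructor
  · intro A hA
    apply main_list (List.ofFn k) _ _ G (inv_congr e (inv_pi k)) A hA
    · intro a ha
      rw [List.mem_ofFn] at ha
      obtain ⟨i, rfl⟩ := ha
      exact hk1 i
    · rw [List.pairwise_ofFn]
      intro i j hij
      exact hk hij.le
  · obtain ⟨C, hC, hCc⟩ := low_pi n k hk1
    obtain ⟨C', hC', hCc'⟩ := SF_transport e C hC
    exact ⟨C', hC', hCc'.trans hCc⟩

end Pool.Agent.N9
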