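import Pool.Agent.DG.K3

set_option autoImplicit false

/-! # Three level sets: the key lemma -/

namespace Pool.Agent.N9
open Finset Pool.Agent.DG

section
variable {Q : Type*} [AddCommGroup Q] [Finite Q]

/-- The part of `X` in the class `C`. -/
noncomputable def part (F : AddSubgroup Q) (X : Finset Q) (C : Q ⧸ F) : Finset Q := by
  classical exact X.filter (fun x => (QuotientAddGroup.mk x : Q ⧸ F) = C)

theorem mem_part {F : AddSubgroup Q} {X : Finset Q} {C : Q ⧸ F} {x : Q} :
    x ∈ part F X C ↔ x ∈ X ∧ (QuotientAddGroup.mk x : Q ⧸ F) = C := by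
  classical
  unfold part
  rw [Finset.mem_filter]

theorem part_le (F : AddSubgroup Q) (X : Finset Q) (C : Q ⧸ F) :
    (part F X C).card ≤ Nat.card F := by
  obtain ⟨g, rfl⟩ := QuotientAddGroup.mk_surjective C
  exact card_class_le F _ g (fun a ha => (mem_part.1 ha).2)

theorem part_nonempty {F : AddSubgroup Q} {X : Finset Q} {C : Q ⧸ F} (h : C ∈ cl F X) :
    ∃ x ∈ X, (QuotientAddGroup.mk x : Q ⧸ F) = C := mem_cl.1 h

theorem card_sum_part (F : AddSubgroup Q) (X : Finset Q) :
    X.card = ∑ C ∈ cl F X, (part F X C).card := by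
  classical
  have := Finset.card_eq_sum_card_fiberwise (s := X) (t := cl F X)
    (f := fun x => (QuotientAddGroup.mk x : Q ⧸ F))
    (fun x hx => Finset.mem_coe.2 (mk_mem_cl F (Finset.mem_coe.1 hx)))
  rw [this]
  apply Finset.sum_congr rfl
  intro C _
  unfold part
  rfl

theorem one_class (F : AddSubgroup Q) (X : Finset Q) {C : Q ⧸ F} (h : C ∈ cl F X) :
    X.card + Nat.card F ≤ Nat.card F * (cl F X).card + (part F X C).card := by
  classical
  have h1 : ∑ C' ∈ (cl F X).erase C, (part F X C').card ≤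
      ∑ _C' ∈ (cl F X).erase C, Nat.card F := Finset.sum_le_sum (fun C' _ => part_le F X C')
  rw [Finset.sum_const, smul_eq_mul, Finset.card_erase_of_mem h] at h1
  have h2 := card_sum_part F X
  rw [← Finset.add_sum_erase _ _ h] at h2
  have h3 : 0 < (cl F X).card := Finset.card_pos.2 ⟨C, h⟩
  obtain ⟨e, he⟩ : ∃ e, (cl F X).card = e + 1 := ⟨(cl F X).card - 1, by omega⟩
  rw [he, Nat.add_sub_cancel] at h1
  rw [he]
  have e1 : Nat.card F * (e + 1) = e * Nat.card F + Nat.card F := by ring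
  rw [e1]
  omega

theorem two_class (F : AddSubgroup Q) (X : Finset Q) {C C' : Q ⧸ F} (h : C ∈ cl F X)
    (h' : C' ∈ cl F X) (hne : C ≠ C') :
    X.card + 2 * Nat.card F ≤
      Nat.card F * (cl F X).card + (part F X C).card + (part F X C').card := by
  classical
  have hC' : C' ∈ (cl F X).erase C := Finset.mem_erase.2 ⟨fun h => hne h.symm, h'⟩
  have h1 : ∑ D ∈ ((cl F X).erase C).erase C', (part F X D).card ≤
      ∑ _D ∈ ((cl F X).erase C).erase C', Nat.card F :=
    Finset.sum_le_sum (fun D _ => part_le F X D)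
  rw [Finset.sum_const, smul_eq_mul, Finset.card_erase_of_mem hC',
    Finset.card_erase_of_mem h] at h1
  have h2 := card_sum_part F X
  rw [← Finset.add_sum_erase _ _ h, ← Finset.add_sum_erase _ _ hC'] at h2
  have h3 : 1 < (cl F X).card := Finset.one_lt_card.2 ⟨C, h, C', h', hne⟩
  obtain ⟨e, he⟩ : ∃ e, (cl F X).card = e + 2 := ⟨(cl F X).card - 2, by omega⟩
  have e0 : e + 2 - 1 - 1 = e := by omega
  rw [he, e0] at h1
  rw [he]
  have e1 : Nat.card F * (e + 2) = e * Nat.card F + 2 * Nat.card F := by ring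
  rw [e1]
  omega

/-- Pigeonhole in a class. -/
theorem pigeon (F : AddSubgroup Q) (X Y : Finset Q) (C C' : Q ⧸ F) (s : Q)
    (hs : (QuotientAddGroup.mk s : Q ⧸ F) = C + C') (r : ℕ)
    (h : Nat.card F + r ≤ (part F X C).card + (part F Y C').card) :
    ∃ S : Finset Q, r ≤ S.card ∧ ∀ x ∈ S, x ∈ part F X C ∧ s - x ∈ part F Y C' := by
  classical
  set Y' := (part F Y C').image (fun y => s - y) with hY'
  have hc : Y'.card = (part F Y C').card :=
    Finset.card_image_of_injective _ (sub_right_injective)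
  have hU : ((part F X C) ∪ Y').card ≤ Nat.card F := by
    obtain ⟨g, rfl⟩ := QuotientAddGroup.mk_surjective C
    apply card_class_le F _ g
    intro a ha
    rw [Finset.mem_union] at ha
    rcases ha with ha | ha
    · exact (mem_part.1 ha).2
    · rw [hY', Finset.mem_image] at ha
      obtain ⟨y, hy, rfl⟩ := ha
      rw [QuotientAddGroup.mk_sub, hs, (mem_part.1 hy).2, add_sub_cancel_right]
  have h1 := Finset.card_union_add_card_inter (part F X C) Y'
  refine ⟨part F X C ∩ Y', by omega, ?_⟩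
  intro x hx
  rw [Finset.mem_inter] at hx
  refine ⟨hx.1, ?_⟩
  have h2 := hx.2
  rw [hY', Finset.mem_image] at h2
  obtain ⟨y, hy, rfl⟩ := h2
  rwa [sub_sub_cancel]

open scoped Pointwise in
open Pool.Agent.Kneser in
/-- Kneser's theorem with a maximal subgroup. -/
theorem k3_max (X Y Z : Finset Q) (hX : X.Nonempty) (hY : Y.Nonempty) (F : AddSubgroup Q)
    (hF : ∀ x ∈ X, ∀ y ∈ Y, ∀ z ∈ Z, x + y + z ∉ F)
    (hmax : ∀ E : AddSubgroup Q, F ≤ E → (∀ x ∈ X, ∀ y ∈ Y, ∀ z ∈ Z, x + y + z ∉ E) → E ≤ F) :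
    (cl F X).card + (cl F Y).card + (cl F Z).card ≤ Nat.card (Q ⧸ F) + 1 := by
  classical
  have : Fintype (Q ⧸ F) := Fintype.ofFinite _
  set S : Finset (Q ⧸ F) := cl F X + cl F Y with hS
  have hsub := isSub_stab S
  let E : AddSubgroup Q :=
    { carrier := {g | (QuotientAddGroup.mk g : Q ⧸ F) ∈ stab S}
      zero_mem' := by
        change (QuotientAddGroup.mk (0 : Q) : Q ⧸ F) ∈ stab S
        rw [QuotientAddGroup.mk_zero]
        exact hsub.zero
      add_mem' := by
        intro a b ha hb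
        change (QuotientAddGroup.mk (a + b) : Q ⧸ F) ∈ stab S
        rw [QuotientAddGroup.mk_add]
        exact hsub.add ha hb
      neg_mem' := by
        intro a ha
        change (QuotientAddGroup.mk (-a) : Q ⧸ F) ∈ stab S
        rw [QuotientAddGroup.mk_neg]
        exact hsub.neg ha }
  have hFE : F ≤ E := by
    intro g hg
    change (QuotientAddGroup.mk g : Q ⧸ F) ∈ stab S
    rw [(QuotientAddGroup.eq_zero_iff g).2 hg]
    exact hsub.zero
  have hE : ∀ x ∈ X, ∀ y ∈ Y, ∀ z ∈ Z, x + y + z ∉ E := by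
    intro x hx y hy z hz hm
    change (QuotientAddGroup.mk (x + y + z) : Q ⧸ F) ∈ stab S at hm
    have h1 := hsub.neg hm
    rw [mem_stab] at h1
    have h2 : (QuotientAddGroup.mk x + QuotientAddGroup.mk y : Q ⧸ F) ∈ S :=
      Finset.add_mem_add (mk_mem_cl F hx) (mk_mem_cl F hy)
    have h3 := (h1 _).2 h2
    rw [hS, Finset.mem_add] at h3
    obtain ⟨u, hu, v, hv, huv⟩ := h3
    obtain ⟨x', hx', rfl⟩ := mem_cl.1 hu
    obtain ⟨y', hy', rfl⟩ := mem_cl.1 hv
    apply hF x' hx' y' hy' z hz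
    rw [← QuotientAddGroup.eq_zero_iff, QuotientAddGroup.mk_add, QuotientAddGroup.mk_add, huv,
      QuotientAddGroup.mk_add, QuotientAddGroup.mk_add]
    abel
  have hEF : E ≤ F := hmax E hFE hE
  have hstab : stab S = {0} := by
    ext g
    rw [Finset.mem_singleton]
    constructor
    · intro hg
      obtain ⟨g', rfl⟩ := QuotientAddGroup.mk_surjective g
      exact (QuotientAddGroup.eq_zero_iff g').2 (hEF hg)
    · rintro rfl
      exact hsub.zero
  have hclX : (cl F X).Nonempty := by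
    obtain ⟨x, hx⟩ := hX
    exact ⟨_, mk_mem_cl F hx⟩
  have hclY : (cl F Y).Nonempty := by
    obtain ⟨x, hx⟩ := hY
    exact ⟨_, mk_mem_cl F hx⟩
  have hk := kneser_weak hclX hclY
  rw [← hS, hstab, Finset.card_singleton] at hk
  have hdisj : Disjoint ((cl F Z).image (fun z => -z)) S := by
    rw [Finset.disjoint_left]
    intro w hw hwS
    rw [Finset.mem_image] at hw
    obtain ⟨z', hz', rfl⟩ := hw
    obtain ⟨z, hz, rfl⟩ := mem_cl.1 hz'
    rw [hS, Finset.mem_add] at hwS
    obtain ⟨u, hu, v, hv, huv⟩ := hwS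
    obtain ⟨x', hx', rfl⟩ := mem_cl.1 hu
    obtain ⟨y', hy', rfl⟩ := mem_cl.1 hv
    apply hF x' hx' y' hy' z hz
    rw [← QuotientAddGroup.eq_zero_iff, QuotientAddGroup.mk_add, QuotientAddGroup.mk_add, huv]
    abel
  have h4 := Finset.card_le_univ (((cl F Z).image (fun z => -z)) ∪ S)
  rw [Finset.card_union_of_disjoint hdisj, Finset.card_image_of_injective _ neg_injective,
    ← Nat.card_eq_fintype_card] at h4
  omega

end

end Pool.Agent.N9
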