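import Pool.Agent.N9.KA
import Pool.Agent.DG.Levels2
import Pool.Agent.DG.Pairing

set_option autoImplicit false

/-! # The key lemma for fibres over a subgroup of order three -/

namespace Pool.Agent.N9
open Finset Pool.Agent.DG

section
variable {Q : Type*} [AddCommGroup Q] [Finite Q]

theorem exists_max (P : AddSubgroup Q → Prop) (h0 : P ⊥) :
    ∃ F : AddSubgroup Q, P F ∧ ∀ E, F ≤ E → P E → E ≤ F := by
  have hfin : Finite (AddSubgroup Q) := inferInstance
  obtain ⟨F, hF, hmax⟩ := Set.exists_max_image {E | P E} (fun F => Nat.card F) (Set.toFinite _)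
    ⟨⊥, h0⟩
  refine ⟨F, hF, ?_⟩
  intro E hFE hE
  have hle := hmax E hE
  have h1 : (E : Set Q) = (F : Set Q) := by
    symm
    apply Set.eq_of_subset_of_ncard_le hFE
    exact hle
  intro g hg
  have hg' : g ∈ (E : Set Q) := hg
  rw [h1] at hg'
  exact hg'

theorem k3c (X Y Z : Finset Q) (c : Q) (hX : X.Nonempty) (hY : Y.Nonempty) (F : AddSubgroup Q)
    (hF : ∀ x ∈ X, ∀ y ∈ Y, ∀ z ∈ Z, x + y + z - c ∉ F)
    (hmax : ∀ E : AddSubgroup Q, F ≤ E →
      (∀ x ∈ X, ∀ y ∈ Y, ∀ z ∈ Z, x + y + z - c ∉ E) → E ≤ F) :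
    (cl F X).card + (cl F Y).card + (cl F Z).card ≤ Nat.card (Q ⧸ F) + 1 := by
  classical
  have h1 := k3_max X Y (Z.image (fun z => z - c)) hX hY F ?_ ?_
  · have h2 : cl F (Z.image (fun z => z - c)) =
        (cl F Z).image (fun C => C - (QuotientAddGroup.mk c : Q ⧸ F)) := by
      ext C
      rw [mem_cl, Finset.mem_image]
      constructor
      · rintro ⟨w, hw, rfl⟩
        rw [Finset.mem_image] at hw
        obtain ⟨z, hz, rfl⟩ := hw
        exact ⟨_, mk_mem_cl F hz, (QuotientAddGroup.mk_sub _ _ _).symm⟩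
      · rintro ⟨w, hw, rfl⟩
        obtain ⟨z, hz, rfl⟩ := mem_cl.1 hw
        exact ⟨z - c, Finset.mem_image_of_mem _ hz, QuotientAddGroup.mk_sub _ _ _⟩
    rw [h2, Finset.card_image_of_injective _ (sub_left_injective)] at h1
    exact h1
  · intro x hx y hy w hw
    rw [Finset.mem_image] at hw
    obtain ⟨z, hz, rfl⟩ := hw
    have e : x + y + (z - c) = x + y + z - c := by abel
    rw [e]
    exact hF x hx y hy z hz
  · intro E hFE hE
    apply hmax E hFE
    intro x hx y hy z hz
    have e : x + y + z - c = x + y + (z - c) := by abel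
    rw [e]
    exact hE x hx y hy _ (Finset.mem_image_of_mem _ hz)

/-- Avoiding a few elements. -/
theorem exists_avoid {α : Type*} [DecidableEq α] (S T : Finset α) (h : T.card < S.card) :
    ∃ x ∈ S, x ∉ T := by
  by_contra hcon
  push Not at hcon
  have := Finset.card_le_card (show S ⊆ T from hcon)
  omega

end

theorem level {Q : Type*} [AddCommGroup Q] [Fintype Q] {m : ℕ} (hm : Nat.card Q = 3 ^ m)
    (k : Q → ℕ) (c : Q) (hk3 : ∀ i, k i ≤ 3) (h0 : ∀ i, i + i + i ≠ c)
    (hA : ∀ i j l, i + j + l = c → 3 ≤ k i → 1 ≤ k j → 1 ≤ k l → (j ≠ l ∨ 2 ≤ k j) → False)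
    (hB : ∀ i j l, i + j + l = c → i ≠ j → 2 ≤ k i → 2 ≤ k j → 1 ≤ k l → l ≠ i → l ≠ j →
      False) : ∑ i, k i ≤ Nat.card Q + 3 := by
  classical
  have hodd : Nat.card Q % 2 = 1 := by
    rw [hm]
    exact Nat.odd_iff.1 (Odd.pow (by decide))
  have hsum : ∑ i, k i = (L k 1).card + (L k 2).card + (L k 3).card := by
    rw [lev_sum hk3]
    have e : Icc 1 3 = ({1, 2, 3} : Finset ℕ) := by decide
    rw [e, Finset.sum_insert (by decide), Finset.sum_insert (by decide), Finset.sum_singleton]
    unfold ell
    ring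
  have s21 : L k 2 ⊆ L k 1 := lev_anti (by norm_num)
  have s32 : L k 3 ⊆ L k 2 := lev_anti (by norm_num)
  have hhalf : ∀ x : Q, ∃ h : Q, ∀ j : Q, j + j = x → j = h := by
    intro x
    obtain ⟨h, hh⟩ := pairing_half hodd x
    refine ⟨h, fun j hj => ?_⟩
    exact BIG_two_inj hodd (hj.trans hh.symm)
  rcases Finset.eq_empty_or_nonempty (L k 3) with h3 | h3
  · rw [h3, Finset.card_empty, add_zero] at hsum
    rw [hsum]
    rcases Finset.eq_empty_or_nonempty (L k 2) with h2 | ⟨i, hi⟩
    · rw [h2, Finset.card_empty]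
      have := Finset.card_le_univ (L k 1)
      rw [← Nat.card_eq_fintype_card] at this
      omega
    · obtain ⟨h, hh⟩ := hhalf (c - i)
      set T : Finset Q := {i, c - i - i, h} with hT
      have hTc : T.card ≤ 3 := Finset.card_le_three
      set B := (L k 2) \ T with hBdef
      have hBc : (L k 2).card ≤ B.card + 3 := by
        have := Finset.le_card_sdiff T (L k 2)
        rw [← hBdef] at this
        omega
      have hdisj : Disjoint (B.image (fun j => c - i - j)) (L k 1) := by
        rw [Finset.disjoint_left]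
        intro w hw hw1
        rw [Finset.mem_image] at hw
        obtain ⟨j, hj, rfl⟩ := hw
        rw [hBdef, Finset.mem_sdiff, hT, Finset.mem_insert, Finset.mem_insert,
          Finset.mem_singleton, not_or, not_or] at hj
        obtain ⟨hj2, hji, hj3, hj4⟩ := hj
        apply hB i j (c - i - j) (by abel) (fun h => hji h.symm) (mem_L.1 hi) (mem_L.1 hj2)
          (mem_L.1 hw1)
        · intro he
          apply hj3
          calc j = c - i - (c - i - j) := by abel
            _ = c - i - i := by rw [he]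
        · intro he
          apply hj4
          apply hh
          calc j + j = j + (c - i - j) := by rw [he]
            _ = c - i := by abel
      have h4 := Finset.card_le_univ ((B.image (fun j => c - i - j)) ∪ L k 1)
      rw [Finset.card_union_of_disjoint hdisj, Finset.card_image_of_injective _
        (sub_right_injective), ← Nat.card_eq_fintype_card] at h4
      omega
  · by_contra hcon
    rw [not_le] at hcon
    rw [hsum] at hcon
    have h2 : (L k 2).Nonempty := h3.mono s32
    have h1 : (L k 1).Nonempty := h2.mono s21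
    have good0 : ∀ x ∈ L k 3, ∀ y ∈ L k 2, ∀ z ∈ L k 1, x + y + z - c ∉ (⊥ : AddSubgroup Q) := by
      intro x hx y hy z hz h
      rw [AddSubgroup.mem_bot, sub_eq_zero] at h
      exact hA x y z h (mem_L.1 hx) (by have := mem_L.1 hy; omega) (mem_L.1 hz)
        (Or.inr (mem_L.1 hy))
    obtain ⟨F, hF, hmax⟩ := exists_max
      (fun E => ∀ x ∈ L k 3, ∀ y ∈ L k 2, ∀ z ∈ L k 1, x + y + z - c ∉ E) good0
    have hK := k3c (L k 3) (L k 2) (L k 1) c h3 h2 F hF hmax
    have hq := card_quot F
    set m' := Nat.card (Q ⧸ F) with hm'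
    set f := Nat.card F with hf
    have b1 := card_le_cl F (L k 1)
    have b2 := card_le_cl F (L k 2)
    have b3 := card_le_cl F (L k 3)
    rw [← hf] at b1 b2 b3
    set a1 := (cl F (L k 1)).card with ha1
    set a2 := (cl F (L k 2)).card with ha2
    set a3 := (cl F (L k 3)).card with ha3
    have hfpos : 0 < f := Nat.card_pos
    have htot : a3 + a2 + a1 = m' + 1 := by
      apply le_antisymm hK
      by_contra h
      rw [not_le] at h
      have h5 : a3 + a2 + a1 ≤ m' := by omega
      have h6 := Nat.mul_le_mul_left f h5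
      rw [hq] at h6
      have e : f * (a3 + a2 + a1) = f * a1 + f * a2 + f * a3 := by ring
      omega
    have hfm : f * a1 + f * a2 + f * a3 = Nat.card Q + f := by
      have e : f * a1 + f * a2 + f * a3 = f * (a3 + a2 + a1) := by ring
      rw [e, htot, mul_add, hq, mul_one]
    have mk_eq : ∀ x y z : Q, x + y + z - c ∈ F →
        (QuotientAddGroup.mk c : Q ⧸ F) = QuotientAddGroup.mk x + QuotientAddGroup.mk y +
          QuotientAddGroup.mk z := by
      intro x y z h
      rw [← QuotientAddGroup.mk_add, ← QuotientAddGroup.mk_add]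
      apply QuotientAddGroup.eq.2
      have e : -c + (x + y + z) = x + y + z - c := by abel
      rw [e]
      exact h
    -- step 1
    have S1 : ∀ x ∈ L k 3, ∀ y ∈ L k 1, ∀ z ∈ L k 1, x + y + z - c ∉ F := by
      intro x hx y hy z hz hmem
      have hc := mk_eq x y z hmem
      by_cases hC : (QuotientAddGroup.mk y : Q ⧸ F) = QuotientAddGroup.mk z
      · have t1 := one_class F (L k 1) (mk_mem_cl F hy)
        have t3 := one_class F (L k 3) (mk_mem_cl F hx)
        rw [← hf, ← ha1] at t1
        rw [← hf, ← ha3] at t3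
        obtain ⟨S, hS, hS'⟩ := pigeon F (L k 1) (L k 3) (QuotientAddGroup.mk y)
          (QuotientAddGroup.mk x) (c - y) (by
            rw [QuotientAddGroup.mk_sub, hc, ← hC]; abel) 2 (by rw [← hf]; omega)
        obtain ⟨w, hw, hwy⟩ := exists_avoid S {y} (by rw [Finset.card_singleton]; omega)
        rw [Finset.mem_singleton] at hwy
        obtain ⟨w1, w2⟩ := hS' w hw
        exact hA (c - y - w) y w (by abel) (mem_L.1 (mem_part.1 w2).1) (mem_L.1 hy)
          (mem_L.1 (mem_part.1 w1).1) (Or.inl (fun h => hwy h.symm))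
      · have t1 := two_class F (L k 1) (mk_mem_cl F hy) (mk_mem_cl F hz) hC
        rw [← hf, ← ha1] at t1
        obtain ⟨S, hS, hS'⟩ := pigeon F (L k 1) (L k 1) (QuotientAddGroup.mk y)
          (QuotientAddGroup.mk z) (c - x) (by
            rw [QuotientAddGroup.mk_sub, hc]; abel) 1 (by rw [← hf]; omega)
        obtain ⟨w, hw⟩ := Finset.card_pos.1 (show 0 < S.card by omega)
        obtain ⟨w1, w2⟩ := hS' w hw
        apply hA x w (c - x - w) (by abel) (mem_L.1 hx) (mem_L.1 (mem_part.1 w1).1)
          (mem_L.1 (mem_part.1 w2).1)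
        left
        intro he
        apply hC
        rw [← (mem_part.1 w1).2, ← (mem_part.1 w2).2, ← he]
    have T1 := k3c (L k 3) (L k 1) (L k 1) c h3 h1 F S1
      (fun E hFE hE => hmax E hFE (fun x hx y hy z hz => hE x hx y (s21 hy) z hz))
    rw [← ha3, ← ha1, ← hm'] at T1
    have hsub21 : cl F (L k 2) ⊆ cl F (L k 1) := by
      intro C hC
      obtain ⟨x, hx, rfl⟩ := mem_cl.1 hC
      exact mk_mem_cl F (s21 hx)
    have hsub32 : cl F (L k 3) ⊆ cl F (L k 2) := by
      intro C hC
      obtain ⟨x, hx, rfl⟩ := mem_cl.1 hC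
      exact mk_mem_cl F (s32 hx)
    have c21 : a2 ≤ a1 := Finset.card_le_card hsub21
    have c32 : a3 ≤ a2 := Finset.card_le_card hsub32
    have heq : cl F (L k 2) = cl F (L k 1) := Finset.eq_of_subset_of_card_le hsub21 (by omega)
    -- two distinct classes
    have S3' : ∀ C ∈ cl F (L k 2), ∀ C' ∈ cl F (L k 2), C ≠ C' → ∀ l ∈ L k 1,
        (QuotientAddGroup.mk c : Q ⧸ F) = C + C' + QuotientAddGroup.mk l → False := by
      intro C hC C' hC' hne l hl hc
      have t2 := two_class F (L k 2) hC hC' hne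
      rw [← hf, ← ha2] at t2
      obtain ⟨S, hS, hS'⟩ := pigeon F (L k 2) (L k 2) C C' (c - l) (by
        rw [QuotientAddGroup.mk_sub, hc]; abel) 3 (by rw [← hf]; omega)
      obtain ⟨w, hw, hwy⟩ := exists_avoid S {l, c - l - l} (by
        have := Finset.card_le_two (a := l) (b := c - l - l)
        omega)
      rw [Finset.mem_insert, Finset.mem_singleton, not_or] at hwy
      obtain ⟨w1, w2⟩ := hS' w hw
      apply hB w (c - l - w) l (by abel) ?_ (mem_L.1 (mem_part.1 w1).1)
        (mem_L.1 (mem_part.1 w2).1) (mem_L.1 hl) (fun h => hwy.1 h.symm)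
      · intro he
        apply hwy.2
        calc w = c - l - (c - l - w) := by abel
          _ = c - l - l := by rw [← he]
      · intro he
        apply hne
        rw [← (mem_part.1 w1).2, ← (mem_part.1 w2).2, ← he]
    have S3 : ∀ x ∈ L k 2, ∀ y ∈ L k 2, ∀ z ∈ L k 1, x + y + z - c ∉ F := by
      intro x hx y hy z hz hmem
      have hc := mk_eq x y z hmem
      by_cases hC : (QuotientAddGroup.mk x : Q ⧸ F) = QuotientAddGroup.mk y
      swap
      · exact S3' _ (mk_mem_cl F hx) _ (mk_mem_cl F hy) hC z hz hc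
      by_cases hC2 : (QuotientAddGroup.mk z : Q ⧸ F) = QuotientAddGroup.mk x
      swap
      · have hz2 : (QuotientAddGroup.mk z : Q ⧸ F) ∈ cl F (L k 2) := by
          rw [heq]
          exact mk_mem_cl F hz
        exact S3' _ hz2 _ (mk_mem_cl F hx) hC2 y (s21 hy) (by rw [hc]; abel)
      have t1 := one_class F (L k 1) (mk_mem_cl F hz)
      have t2 := one_class F (L k 2) (mk_mem_cl F hx)
      rw [← hf, ← ha1] at t1
      rw [← hf, ← ha2] at t2
      obtain ⟨h, hh⟩ := hhalf (c - x)
      obtain ⟨S, hS, hS'⟩ := pigeon F (L k 2) (L k 1) (QuotientAddGroup.mk x)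
        (QuotientAddGroup.mk z) (c - x) (by
          rw [QuotientAddGroup.mk_sub, hc, ← hC]; abel) 4 (by rw [← hf]; omega)
      obtain ⟨w, hw, hwy⟩ := exists_avoid S {x, c - x - x, h} (by
        have := Finset.card_le_three (a := x) (b := c - x - x) (c := h)
        omega)
      rw [Finset.mem_insert, Finset.mem_insert, Finset.mem_singleton, not_or, not_or] at hwy
      obtain ⟨w1, w2⟩ := hS' w hw
      apply hB x w (c - x - w) (by abel) (fun h => hwy.1 h.symm) (mem_L.1 hx)
        (mem_L.1 (mem_part.1 w1).1) (mem_L.1 (mem_part.1 w2).1)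
      · intro he
        apply hwy.2.1
        calc w = c - x - (c - x - w) := by abel
          _ = c - x - x := by rw [he]
      · intro he
        apply hwy.2.2
        apply hh
        calc w + w = w + (c - x - w) := by rw [he]
          _ = c - x := by abel
    have T2 := k3c (L k 2) (L k 2) (L k 1) c h2 h2 F S3
      (fun E hFE hE => hmax E hFE (fun x hx y hy z hz => hE x (s32 hx) y hy z hz))
    rw [← ha2, ← ha1, ← hm'] at T2
    have e1 : 3 * a2 = m' + 1 := by omega
    have hd : m' ∣ 3 ^ m := by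
      rw [← hm, ← hq]
      exact Dvd.intro_left _ rfl
    obtain ⟨e, _, he⟩ := (Nat.dvd_prime_pow Nat.prime_three).1 hd
    rcases e with _ | e
    · rw [pow_zero] at he
      omega
    · rw [pow_succ] at he
      omega

end Pool.Agent.N9
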