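import Pool.Agent.N9.KB

set_option autoImplicit false

/-! # Sets without three distinct elements of given sum -/

namespace Pool.Agent.N9
open Finset Pool.Agent.DG

/-- If `c` is not a triple modulo a subgroup of order three, a set without three distinct elements
of sum `c` has at most `|G| / 3 + 3` elements. -/
theorem keyA {G : Type*} [AddCommGroup G] [Finite G] {m : ℕ} (hm : Nat.card G = 3 ^ m)
    (P : AddSubgroup G) (hP : Nat.card P = 3) (W : Finset G) (c : G)
    (hc : ∀ y : G, y + y + y - c ∉ P)
    (hW : ∀ x ∈ W, ∀ y ∈ W, ∀ z ∈ W, x ≠ y → x ≠ z → y ≠ z → x + y + z ≠ c) :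
    3 * W.card ≤ Nat.card G + 9 := by
  classical
  have _ : Fintype (G ⧸ P) := Fintype.ofFinite _
  have hodd : Nat.card G % 2 = 1 := by
    rw [hm]
    exact Nat.odd_iff.1 (Odd.pow (by decide))
  have hq := card_quot P
  rw [hP] at hq
  obtain ⟨m', hm'⟩ : ∃ m', Nat.card (G ⧸ P) = 3 ^ m' := by
    have hd : Nat.card (G ⧸ P) ∣ 3 ^ m := by
      rw [← hm, ← hq]
      exact Dvd.intro_left _ rfl
    obtain ⟨e, _, he⟩ := (Nat.dvd_prime_pow Nat.prime_three).1 hd
    exact ⟨e, he⟩
  set k : G ⧸ P → ℕ := fun i => (part P W i).card with hk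
  have hsum : ∑ i, k i = W.card := by
    have h1 := card_sum_part P W
    rw [h1]
    symm
    apply Finset.sum_subset (Finset.subset_univ _)
    intro i _ hi
    change (part P W i).card = 0
    rw [Finset.card_eq_zero, Finset.eq_empty_iff_forall_notMem]
    intro x hx
    apply hi
    have := mem_part.1 hx
    rw [← this.2]
    exact mk_mem_cl P this.1
  have hk3 : ∀ i, k i ≤ 3 := fun i => by
    have := part_le P W i
    rwa [hP] at this
  have h0 : ∀ i : G ⧸ P, i + i + i ≠ QuotientAddGroup.mk c := by
    intro i h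
    obtain ⟨y, rfl⟩ := QuotientAddGroup.mk_surjective i
    rw [← QuotientAddGroup.mk_add, ← QuotientAddGroup.mk_add] at h
    have h1 := QuotientAddGroup.eq.1 h.symm
    rw [neg_add_eq_sub] at h1
    exact hc y h1
  have full : ∀ i, 3 ≤ k i → ∀ x, (QuotientAddGroup.mk x : G ⧸ P) = i → x ∈ W := by
    intro i hi x hx
    by_contra hxW
    have h1 : (insert x (part P W i)).card ≤ Nat.card P := by
      obtain ⟨g, rfl⟩ := QuotientAddGroup.mk_surjective i
      apply card_class_le P _ g
      intro a ha
      rw [Finset.mem_insert] at ha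
      rcases ha with rfl | ha
      · exact hx
      · exact (mem_part.1 ha).2
    rw [Finset.card_insert_of_notMem (fun h => hxW (mem_part.1 h).1), hP] at h1
    have h2 : 3 ≤ (part P W i).card := hi
    omega
  have mem_of : ∀ i, 1 ≤ k i → ∃ x ∈ W, (QuotientAddGroup.mk x : G ⧸ P) = i := by
    intro i hi
    obtain ⟨x, hx⟩ := Finset.card_pos.1 (show 0 < (part P W i).card from hi)
    exact ⟨x, (mem_part.1 hx).1, (mem_part.1 hx).2⟩
  -- a full coset used twice
  have twice : ∀ i l : G ⧸ P, i + i + l = QuotientAddGroup.mk c → i ≠ l → 3 ≤ k i → 1 ≤ k l →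
      False := by
    intro i l hil hne hi hl
    obtain ⟨z, hz, hzl⟩ := mem_of l hl
    obtain ⟨h, hh⟩ := pairing_half hodd (c - z)
    obtain ⟨y, hy, hyh⟩ := exists_avoid (part P W i) {h} (by
      rw [Finset.card_singleton]
      have h2 : 3 ≤ (part P W i).card := hi
      omega)
    rw [Finset.mem_singleton] at hyh
    obtain ⟨hyW, hyi⟩ := mem_part.1 hy
    have hx : c - z - y ∈ W := by
      apply full i hi
      rw [QuotientAddGroup.mk_sub, QuotientAddGroup.mk_sub, hyi, hzl, ← hil]
      abel
    have hxi : (QuotientAddGroup.mk (c - z - y) : G ⧸ P) = i := by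
      rw [QuotientAddGroup.mk_sub, QuotientAddGroup.mk_sub, hyi, hzl, ← hil]
      abel
    apply hW (c - z - y) hx y hyW z hz
    · intro he
      apply hyh
      apply BIG_two_inj hodd
      rw [hh]
      calc y + y = (c - z - y) + y := by rw [he]
        _ = c - z := by abel
    · intro he
      apply hne
      rw [← hxi, he, hzl]
    · intro he
      apply hne
      rw [← hyi, he, hzl]
    · abel
  have key := level hm' k (QuotientAddGroup.mk c) hk3 h0 ?_ ?_
  · rw [hsum] at key
    omega
  · intro i j l hijl hi hj hl hor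
    by_cases hij : i = j
    · by_cases hil : i = l
      · exact h0 i (by rw [← hij, ← hil] at hijl; exact hijl)
      · rw [← hij] at hijl
        exact twice i l hijl hil hi hl
    by_cases hil : i = l
    · apply twice i j _ hij hi hj
      rw [← hijl, ← hil]
      abel
    obtain ⟨y, z, hy, hz, hyj, hzl, hyz⟩ : ∃ y z, y ∈ W ∧ z ∈ W ∧
        (QuotientAddGroup.mk y : G ⧸ P) = j ∧ (QuotientAddGroup.mk z : G ⧸ P) = l ∧ y ≠ z := by
      by_cases hjl : j = l
      · rcases hor with h | h
        · exact absurd hjl h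
        · obtain ⟨y, hy, z, hz, hyz⟩ := Finset.one_lt_card.1
            (show 1 < (part P W j).card from h)
          exact ⟨y, z, (mem_part.1 hy).1, (mem_part.1 hz).1, (mem_part.1 hy).2,
            by rw [(mem_part.1 hz).2, hjl], hyz⟩
      · obtain ⟨y, hy, hyj⟩ := mem_of j hj
        obtain ⟨z, hz, hzl⟩ := mem_of l hl
        exact ⟨y, z, hy, hz, hyj, hzl, fun he => hjl (by rw [← hyj, ← hzl, he])⟩
    have hxi : (QuotientAddGroup.mk (c - y - z) : G ⧸ P) = i := by
      rw [QuotientAddGroup.mk_sub, QuotientAddGroup.mk_sub, hyj, hzl, ← hijl]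
      abel
    apply hW (c - y - z) (full i hi _ hxi) y hy z hz
    · intro he
      apply hij
      rw [← hxi, he, hyj]
    · intro he
      apply hil
      rw [← hxi, he, hzl]
    · exact hyz
    · abel
  · intro i j l hijl hij hi hj hl hli hlj
    obtain ⟨z, hz, hzl⟩ := mem_of l hl
    obtain ⟨S, hS, hS'⟩ := pigeon P W W i j (c - z) (by
      rw [QuotientAddGroup.mk_sub, hzl, ← hijl]; abel) 1 (by
      rw [hP]
      have h1 : 2 ≤ (part P W i).card := hi
      have h2 : 2 ≤ (part P W j).card := hj
      omega)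
    obtain ⟨x, hx⟩ := Finset.card_pos.1 (show 0 < S.card by omega)
    obtain ⟨w1, w2⟩ := hS' x hx
    apply hW x (mem_part.1 w1).1 (c - z - x) (mem_part.1 w2).1 z hz
    · intro he
      apply hij
      rw [← (mem_part.1 w1).2, ← (mem_part.1 w2).2, ← he]
    · intro he
      apply hli
      rw [← (mem_part.1 w1).2, he, hzl]
    · intro he
      apply hlj
      rw [← (mem_part.1 w2).2, he, hzl]
    · abel

end Pool.Agent.N9
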