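import Pool.Agent.N9.KC
import Pool.Agent.N9.G7

set_option autoImplicit false

/-! # Layers of an admissible set -/

namespace Pool.Agent.N9
open Finset Pool.Agent.DG

theorem card_zmult {G : Type*} [AddCommGroup G] {u : G} (hu0 : u ≠ 0) (hu3 : u + u + u = 0) :
    Nat.card (AddSubgroup.zmultiples u) = 3 := by
  rw [Nat.card_zmultiples]
  apply addOrderOf_eq_prime
  · rw [succ_nsmul, two_nsmul]
    exact hu3
  · exact hu0

theorem coset_adm {G : Type*} [AddCommGroup G] [Finite G] {m : ℕ} (hG : Nat.card G = 3 ^ m)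
    (H : AddSubgroup G) (u : G) (hu0 : u ≠ 0) (hu3 : u + u + u = 0) (huH : u ∈ H) (x0 : G)
    (h3 : x0 + x0 + x0 ∈ H)
    (hno : ∀ y ∈ H, (y + x0) + (y + x0) + (y + x0) ∉ AddSubgroup.zmultiples u)
    (X : Finset G) (hX : ∀ x ∈ X, x - x0 ∈ H) (hA : Adm X) : 3 * X.card ≤ Nat.card H + 9 := by
  obtain ⟨W, hW, hc⟩ := tr H X x0 hX
  obtain ⟨m', hm'⟩ := sub_pow hG H
  rw [← hc]
  set u' : H := ⟨u, huH⟩ with hu'
  have hP : Nat.card (AddSubgroup.zmultiples u') = 3 := by
    apply card_zmult
    · intro h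
      exact hu0 (congrArg (fun v : H => (v : G)) h)
    · exact Subtype.ext hu3
  apply keyA hm' (AddSubgroup.zmultiples u') hP W (-⟨x0 + x0 + x0, h3⟩)
  · intro y hy
    apply hno y.1 y.2
    obtain ⟨n, hn⟩ := AddSubgroup.mem_zmultiples_iff.1 hy
    rw [AddSubgroup.mem_zmultiples_iff]
    refine ⟨n, ?_⟩
    have h1 := congrArg (fun v : H => (v : G)) hn
    have h2 : n • u = (y : G) + y + y - -(x0 + x0 + x0) := h1
    rw [h2]
    abel
  · intro x hx y hy z hz hxy hxz hyz hs
    have hs' : (x : G) + y + z = -(x0 + x0 + x0) := congrArg (fun v : H => (v : G)) hs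
    apply hA _ (hW x hx) _ (hW y hy) _ (hW z hz)
    · intro h
      exact hxy (Subtype.ext (add_right_cancel h))
    · intro h
      exact hxz (Subtype.ext (add_right_cancel h))
    · intro h
      exact hyz (Subtype.ext (add_right_cancel h))
    · have e : (x : G) + x0 + (y + x0) + (z + x0) = (x + y + z) + (x0 + x0 + x0) := by abel
      rw [e, hs', neg_add_cancel]

theorem Adm_mono {G : Type*} [AddCommGroup G] {X Y : Finset G} (hXY : X ⊆ Y) (hY : Adm Y) :
    Adm X :=
  fun x hx y hy z hz => hY x (hXY hx) y (hXY hy) z (hXY hz)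

theorem smul_succ3 {P : Type*} [AddCommGroup P] (y : P) (n : ℕ) :
    3 ^ (n + 1) • y = 3 ^ n • y + 3 ^ n • y + 3 ^ n • y := by
  rw [pow_succ', mul_smul, succ_nsmul, two_nsmul]

section
variable {G : Type*} [AddCommGroup G] [Fintype G]

theorem lay_mono {P : Type*} [AddCommGroup P] (φ : G →+ P) (i : ℕ) :
    lay φ i ≤ lay φ (i + 1) := by
  intro x hx
  rw [mem_lay] at hx ⊢
  rw [smul_succ3, hx, add_zero, add_zero]

theorem lay_triple {P : Type*} [AddCommGroup P] (φ : G →+ P) (i : ℕ) {x : G}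
    (hx : x ∈ lay φ (i + 1)) : x + x + x ∈ lay φ i := by
  rw [mem_lay] at hx ⊢
  rw [map_add, map_add, smul_add, smul_add, ← smul_succ3]
  exact hx

theorem sub_index {m : ℕ} (hG : Nat.card G = 3 ^ m) {H H' : AddSubgroup G} (hle : H ≤ H')
    {x : G} (hx : x ∈ H') (hx' : x ∉ H) : 3 * Nat.card H ≤ Nat.card H' := by
  obtain ⟨t, ht⟩ := AddSubgroup.card_dvd_of_le hle
  obtain ⟨m', hm'⟩ := sub_pow hG H'
  have h1 : t ∣ 3 ^ m' := by
    rw [← hm', ht]
    exact Dvd.intro_left _ rfl
  obtain ⟨e, _, he⟩ := (Nat.dvd_prime_pow Nat.prime_three).1 h1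
  rcases e with _ | e
  · exfalso
    rw [he, pow_zero, mul_one] at ht
    have h2 : H = H' := AddSubgroup.eq_of_le_of_card_ge hle ht.le
    exact hx' (by rw [h2]; exact hx)
  · rw [ht, he, pow_succ]
    have : 1 ≤ 3 ^ e := Nat.one_le_pow _ _ (by norm_num)
    calc 3 * Nat.card H = Nat.card H * (1 * 3) := by ring
      _ ≤ Nat.card H * (3 ^ e * 3) := Nat.mul_le_mul_left _ (Nat.mul_le_mul_right _ this)

theorem layerA {m : ℕ} (hG : Nat.card G = 3 ^ m) {r : ℕ} (φ : G →+ ZMod (3 ^ (r + 1)))
    {u : G} (hu0 : u ≠ 0) (hu3 : u + u + u = 0) (huk : φ u = 0) (A : Finset G) (hA : Adm A)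
    (i : ℕ) : 3 * (cut A (lay φ i)).card + Nat.card (lay φ 0) ≤
      Nat.card (lay φ i) + 3 * (cut A (lay φ 0)).card + 18 * i := by
  classical
  have hmono : ∀ i, lay φ i ≤ lay φ (i + 1) := fun i => lay_mono φ i
  have hmono0 : ∀ i, lay φ 0 ≤ lay φ i := by
    intro i
    induction i with
    | zero => exact le_refl _
    | succ i ih => exact ih.trans (hmono i)
  induction i with
  | zero => omega
  | succ i ih =>
    -- a coset
    have coset : ∀ t : ZMod (3 ^ (r + 1)), t ≠ 0 →
        3 * (A.filter (fun x => x ∈ lay φ (i + 1) ∧ 3 ^ (i + 1) • φ x = t)).card ≤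
          Nat.card (lay φ i) + 9 := by
      intro t ht
      rcases Finset.eq_empty_or_nonempty
        (A.filter (fun x => x ∈ lay φ (i + 1) ∧ 3 ^ (i + 1) • φ x = t)) with h0 | ⟨x0, hx0⟩
      · rw [h0, Finset.card_empty]
        omega
      · rw [Finset.mem_filter] at hx0
        obtain ⟨_, hx1, hx2⟩ := hx0
        apply coset_adm hG (lay φ i) u hu0 hu3 ?_ x0 ?_ ?_ _ ?_
          (Adm_mono (Finset.filter_subset _ _) hA)
        · rw [mem_lay, huk, smul_zero]
        · exact lay_triple φ i hx1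
        · intro y hy hmem
          obtain ⟨n, hn⟩ := AddSubgroup.mem_zmultiples_iff.1 hmem
          have h1 : φ ((y + x0) + (y + x0) + (y + x0)) = 0 := by
            rw [← hn, map_zsmul, huk, smul_zero]
          have h2 : y + x0 ∈ lay φ 0 := by
            rw [mem_lay, smul3, ← map_add, ← map_add]
            exact h1
          have h3 := hmono0 i h2
          have h4 : x0 ∈ lay φ i := by
            have := (lay φ i).sub_mem h3 hy
            rwa [add_sub_cancel_left] at this
          apply ht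
          rw [← hx2]
          exact h4
        · intro x hx
          rw [Finset.mem_filter] at hx
          rw [mem_lay, map_sub, smul_sub, hx.2.2, hx2, sub_self]
    set U := A.filter (fun x => x ∈ lay φ (i + 1) ∧ x ∉ lay φ i) with hU
    have hsplit : (cut A (lay φ (i + 1))).card ≤ (cut A (lay φ i)).card + U.card := by
      rw [← Finset.card_union_of_disjoint]
      · apply Finset.card_le_card
        intro x hx
        rw [mem_cut] at hx
        rw [Finset.mem_union, mem_cut, hU, Finset.mem_filter]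
        by_cases h5 : x ∈ lay φ i
        · exact Or.inl ⟨hx.1, h5⟩
        · exact Or.inr ⟨hx.1, hx.2, h5⟩
      · rw [Finset.disjoint_left]
        intro x hx hx'
        exact (Finset.mem_filter.1 hx').2.2 (mem_cut.1 hx).2
    rcases Finset.eq_empty_or_nonempty U with h0 | ⟨x1, hx1⟩
    · rw [h0, Finset.card_empty] at hsplit
      have h1 : Nat.card (lay φ i) ≤ Nat.card (lay φ (i + 1)) :=
        Nat.le_of_dvd Nat.card_pos (AddSubgroup.card_dvd_of_le (hmono i))
      omega
    · rw [hU, Finset.mem_filter] at hx1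
      have hidx := sub_index hG (hmono i) hx1.2.1 hx1.2.2
      have hUle : U ⊆ (A.filter (fun x => x ∈ lay φ (i + 1) ∧ 3 ^ (i + 1) • φ x = cc r)) ∪
          (A.filter (fun x => x ∈ lay φ (i + 1) ∧ 3 ^ (i + 1) • φ x = cc r + cc r)) := by
        intro x hx
        rw [hU, Finset.mem_filter] at hx
        obtain ⟨hxA, hx2, hx3⟩ := hx
        have h1 : 3 ^ (i + 1) • φ x + 3 ^ (i + 1) • φ x + 3 ^ (i + 1) • φ x = 0 := by
          rw [← smul_succ3]
          exact hx2
        rw [Finset.mem_union, Finset.mem_filter, Finset.mem_filter]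
        rcases bot _ h1 with h | h | h
        · exact absurd h hx3
        · exact Or.inl ⟨hxA, hx2, h⟩
        · exact Or.inr ⟨hxA, hx2, h⟩
      have h2 := (Finset.card_le_card hUle).trans (Finset.card_union_le _ _)
      have h3 := coset _ (cc_ne r)
      have h4 := coset _ (cc2_ne r)
      omega

end

section
variable {G : Type*} [AddCommGroup G] [Fintype G] {r : ℕ} (φ : G →+ ZMod (3 ^ (r + 1)))

/-- The layer bound for admissible sets. -/
theorem nf_layerA {m : ℕ} (hG : Nat.card G = 3 ^ m) (hφ : Function.Surjective φ)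
    {u : G} (hu0 : u ≠ 0) (hu3 : u + u + u = 0) (huk : φ u = 0) {A : Finset G} (hA : Adm A) :
    3 * A.card + 3 * Nat.card φ.ker ≤
      Nat.card G + 3 * (nf φ A 0 + nf φ A (cc r) + nf φ A (cc r + cc r)) + 18 * r := by
  classical
  have hi : ∀ x, 3 ^ (r + 1) • φ x = 0 := fun x => by
    rw [nsmul_eq_mul]
    have h0 : (((3 ^ (r + 1) : ℕ)) : ZMod (3 ^ (r + 1))) = 0 := ZMod.natCast_self _
    have : ((3 ^ (r + 1) : ℕ) : ZMod (3 ^ (r + 1))) * φ x = 0 := by rw [h0, zero_mul]
    exact_mod_cast this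
  have h := layerA hG φ hu0 hu3 huk A hA r
  have h1 : cut A (lay φ r) = A := by
    ext x
    rw [mem_cut]
    exact ⟨fun h => h.1, fun h => ⟨h, hi x⟩⟩
  have h2 : Nat.card (lay φ r) = Nat.card G := by
    rw [← card_cut_univ]
    have : cut (univ : Finset G) (lay φ r) = univ := by
      ext x
      rw [mem_cut]
      exact ⟨fun h => h.1, fun h => ⟨h, hi x⟩⟩
    rw [this, Finset.card_univ, Nat.card_eq_fintype_card]
  have h3 : Nat.card (lay φ 0) = 3 * Nat.card φ.ker := by
    rw [← card_cut_univ, cut_lay, nf_univ φ hφ, nf_univ φ hφ, nf_univ φ hφ]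
    ring
  rw [h1, h2, h3, cut_lay] at h
  exact h

end

end Pool.Agent.N9
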