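import Pool.Agent.N9.KD

set_option autoImplicit false

/-! # The Fourier inequality for admissible sets -/

namespace Pool.Agent.N9
open Finset Pool.Agent.DG

section
variable {G : Type*} [AddCommGroup G] [Fintype G]

theorem trip_count (hodd : Nat.card G % 2 = 1) (A : Finset G) (hA : Adm A) {x : G} (hx : x ∈ A)
    [DecidableEq G] : ((A ×ˢ A).filter (fun p => x + p.1 + p.2 = 0)).card ≤ 3 := by
  obtain ⟨h, hh⟩ := pairing_half hodd (-x)
  refine le_trans ?_ (Finset.card_le_three (a := x) (b := -(x + x)) (c := h))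
  apply Finset.card_le_card_of_injOn Prod.fst
  · intro p hp
    have hp' := Finset.mem_filter.1 (Finset.mem_coe.1 hp)
    obtain ⟨hpA, hp0⟩ := hp'
    rw [Finset.mem_product] at hpA
    apply Finset.mem_coe.2
    rw [Finset.mem_insert, Finset.mem_insert, Finset.mem_singleton]
    by_cases h1 : x = p.1
    · exact Or.inl h1.symm
    by_cases h2 : x = p.2
    · right; left
      rw [← h2] at hp0
      have e : p.1 = (x + p.1 + x) + -(x + x) := by abel
      rw [e, hp0, zero_add]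
    by_cases h3 : p.1 = p.2
    · right; right
      rw [← h3] at hp0
      apply BIG_two_inj hodd
      rw [hh]
      have e : p.1 + p.1 = (x + p.1 + p.1) + -x := by abel
      rw [e, hp0, zero_add]
    exact absurd hp0 (hA x hx p.1 hpA.1 p.2 hpA.2 h1 h2 h3)
  · intro p hp p' hp' he
    have hp1 := (Finset.mem_filter.1 (Finset.mem_coe.1 hp)).2
    have hp2 := (Finset.mem_filter.1 (Finset.mem_coe.1 hp')).2
    have he' : p.1 = p'.1 := he
    apply Prod.ext he'
    rw [he'] at hp1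
    exact add_left_cancel (hp1.trans hp2.symm)

theorem G_cubeA (hodd : Nat.card G % 2 = 1) (A : Finset G) (hA : Adm A) :
    (∑ ψ : AddChar G ℂ, SG A ψ ^ 3).re ≤ 3 * (Fintype.card G : ℝ) * A.card := by
  classical
  have h1 : ∀ ψ : AddChar G ℂ, SG A ψ ^ 3 = ∑ x ∈ A, ∑ p ∈ A ×ˢ A, ψ (x + p.1 + p.2) := by
    intro ψ
    unfold SG
    rw [pow_succ, pow_two, Finset.sum_mul_sum, Finset.sum_mul]
    apply Finset.sum_congr rfl
    intro x _
    rw [Finset.sum_mul, Finset.sum_product]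
    apply Finset.sum_congr rfl
    intro y _
    rw [Finset.mul_sum]
    apply Finset.sum_congr rfl
    intro z _
    rw [AddChar.map_add_eq_mul, AddChar.map_add_eq_mul]
  have h2 : ∑ ψ : AddChar G ℂ, SG A ψ ^ 3 =
      ∑ x ∈ A, ((((A ×ˢ A).filter (fun p => x + p.1 + p.2 = 0)).card * (Fintype.card G) : ℕ) : ℂ) := by
    simp_rw [h1]
    rw [Finset.sum_comm]
    apply Finset.sum_congr rfl
    intro x _
    rw [Finset.sum_comm]
    have h3 : ∀ p ∈ A ×ˢ A, ∑ ψ : AddChar G ℂ, ψ (x + p.1 + p.2) =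
        if x + p.1 + p.2 = 0 then (Fintype.card G : ℂ) else 0 := by
      intro p _
      rw [AddChar.sum_apply_eq_ite]
    rw [Finset.sum_congr rfl h3, ← Finset.sum_filter, Finset.sum_const, nsmul_eq_mul]
    push_cast
    rfl
  rw [h2, Complex.re_sum]
  calc ∑ x ∈ A, (((((A ×ˢ A).filter (fun p => x + p.1 + p.2 = 0)).card *
        (Fintype.card G) : ℕ) : ℂ)).re
      ≤ ∑ _x ∈ A, 3 * (Fintype.card G : ℝ) := by
        apply Finset.sum_le_sum
        intro x hx
        rw [Complex.natCast_re]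
        have h4 := trip_count hodd A hA hx
        have h5 := Nat.mul_le_mul_right (Fintype.card G) h4
        have h6 : (((((A ×ˢ A).filter (fun p => x + p.1 + p.2 = 0)).card *
          (Fintype.card G) : ℕ) : ℝ)) ≤ ((3 * Fintype.card G : ℕ) : ℝ) := by exact_mod_cast h5
        rw [Nat.cast_mul 3] at h6
        exact_mod_cast h6
    _ = _ := by rw [Finset.sum_const, nsmul_eq_mul]; ring

/-- A non-trivial character with a large coefficient. -/
theorem fourierA (hodd : Nat.card G % 2 = 1) (A : Finset G) (hA : Adm A) (τ : ℝ) (hτ : 0 ≤ τ)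
    (h : ∀ ψ : AddChar G ℂ, ψ ≠ 0 →
      K (SG A ψ) ≤ τ ∧ K (SG A ψ * e9 6) ≤ τ ∧ K (SG A ψ * e9 3) ≤ τ) :
    (A.card : ℝ) ^ 3 ≤ 3 * (Fintype.card G : ℝ) * A.card +
      τ * ((Fintype.card G : ℝ) * A.card - (A.card : ℝ) ^ 2) := by
  classical
  have h1 : ∀ ψ : AddChar G ℂ, ψ ≠ 0 → -(SG A ψ ^ 3).re ≤ Complex.normSq (SG A ψ) * τ := by
    intro ψ hψ
    obtain ⟨h0, h1, h2⟩ := h ψ hψ
    exact cubic _ _ hτ h0 h1 h2
  have h2 : ∑ ψ ∈ univ.erase (0 : AddChar G ℂ), -(SG A ψ ^ 3).re ≤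
      ∑ ψ ∈ univ.erase (0 : AddChar G ℂ), Complex.normSq (SG A ψ) * τ :=
    Finset.sum_le_sum (fun ψ hψ => h1 ψ (Finset.ne_of_mem_erase hψ))
  have h3 : (A.card : ℝ) ^ 3 ≤ ∑ ψ ∈ univ.erase (0 : AddChar G ℂ), -(SG A ψ ^ 3).re +
      3 * (Fintype.card G : ℝ) * A.card := by
    have h4 : ∑ ψ : AddChar G ℂ, -(SG A ψ ^ 3).re ≥ -(3 * (Fintype.card G : ℝ) * A.card) := by
      rw [Finset.sum_neg_distrib, ← Complex.re_sum]
      have := G_cubeA hodd A hA
      linarith
    have h5 := Finset.add_sum_erase univ (fun ψ : AddChar G ℂ => -(SG A ψ ^ 3).re)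
      (Finset.mem_univ 0)
    have h6 : (SG A 0 ^ 3).re = (A.card : ℝ) ^ 3 := by
      rw [SG_zero]
      have : ((A.card : ℂ)) ^ 3 = (((A.card : ℝ) ^ 3 : ℝ) : ℂ) := by push_cast; rfl
      rw [this, Complex.ofReal_re]
    simp only [h6] at h5
    linarith
  have h7 : ∑ ψ ∈ univ.erase (0 : AddChar G ℂ), Complex.normSq (SG A ψ) * τ =
      τ * ((Fintype.card G : ℝ) * A.card - (A.card : ℝ) ^ 2) := by
    rw [← Finset.sum_mul]
    have h5 := Finset.add_sum_erase univ (fun ψ : AddChar G ℂ => Complex.normSq (SG A ψ))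
      (Finset.mem_univ 0)
    rw [G_sq] at h5
    have h6 : Complex.normSq (SG A 0) = (A.card : ℝ) ^ 2 := by
      rw [SG_zero]
      have : ((A.card : ℂ)) = ((A.card : ℝ) : ℂ) := by push_cast; rfl
      rw [this, Complex.normSq_ofReal]
      ring
    simp only [h6] at h5
    have h8 : ∑ ψ ∈ univ.erase (0 : AddChar G ℂ), Complex.normSq (SG A ψ) =
      (Fintype.card G : ℝ) * A.card - (A.card : ℝ) ^ 2 := by linarith
    rw [h8]
    ring
  rw [h7] at h2
  linarith

end

end Pool.Agent.N9
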