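import Pool.Agent.N9.KE
import Pool.Agent.N9.EE

set_option autoImplicit false

/-! # Fibres of admissible sets -/

namespace Pool.Agent.N9
open Finset Pool.Agent.DG

universe u

/-- An admissible set in a group of odd order is sum-free up to one set without three-term
arithmetic progressions. -/
theorem removal_sub (G : Type u) [AddCommGroup G] [Finite G] (hodd : Nat.card G % 2 = 1)
    (A : Finset G) (hA : Adm A) :
    ∃ A' F : Finset G, A' ⊆ A ∧ F ⊆ A ∧ SF A' ∧ ThreeAPFree (F : Set G) ∧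
      A.card = A'.card + F.card := by
  classical
  have _ := Fintype.ofFinite G
  rw [Nat.card_eq_fintype_card] at hodd
  obtain ⟨F, hFE, hcov, hF⟩ := cover (Nat.odd_iff.2 hodd) A hA
  set A' := A \ F with hA'
  have hA'A : A' ⊆ A := Finset.sdiff_subset
  have hFA : F ⊆ A := hFE.trans (Finset.filter_subset _ _)
  refine ⟨A', F, hA'A, hFA, ?_, hF, ?_⟩
  · have hdeg : ∀ x ∈ A', ∀ z ∈ A', x + x + z ≠ 0 := by
      intro x hx z hz h
      rw [hA', Finset.mem_sdiff] at hx hz
      have hz' : -(x + x) = z := neg_eq_of_add_eq_zero_right h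
      have hxE : x ∈ EE A := by
        rw [EE, Finset.mem_filter, hz']
        exact ⟨hx.1, hz.1⟩
      rcases hcov x hxE with h1 | h1
      · exact hx.2 h1
      · rw [hz'] at h1
        exact hz.2 h1
    intro x hx y hy z hz h
    by_cases hxy : x = y
    · subst hxy; exact hdeg x hx z hz h
    by_cases hxz : x = z
    · subst hxz
      apply hdeg x hx y hy
      rw [← h]; abel
    by_cases hyz : y = z
    · subst hyz
      apply hdeg y hy x hx
      rw [← h]; abel
    exact hA x (hA'A hx) y (hA'A hy) z (hA'A hz) hxy hxz hyz h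
  · have h5 := Finset.card_sdiff_add_card_eq_card hFA
    rw [← hA'] at h5
    omega

/-- `N` is large enough for Roth's theorem with density `ε`. -/
def Big (ε : ℝ) (N : ℕ) : Prop := ∀ (G : Type u) [AddCommGroup G] [Finite G],
    N ≤ Nat.card G → ∀ F : Finset G, ThreeAPFree (F : Set G) →
      (F.card : ℝ) ≤ ε * Nat.card G

theorem exists_Big (ε : ℝ) (hε : 0 < ε) : ∃ N, Big.{u} ε N := roth_small.{u} ε hε

/-- An admissible set in a coset `x0 + H` with `3 x0 ∈ H`. -/
theorem coset_thirdA {ε : ℝ} {N0 : ℕ} (hN0 : Big.{u} ε N0) {G : Type u} [AddCommGroup G]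
    [Finite G] {m : ℕ} (hG : Nat.card G = 3 ^ m) (H : AddSubgroup G) (hH : N0 ≤ Nat.card H)
    (X : Finset G) (x0 : G) (h3 : x0 + x0 + x0 ∈ H) (hX : ∀ x ∈ X, x - x0 ∈ H) (hA : Adm X) :
    (X.card : ℝ) ≤ (1 / 3 + ε) * Nat.card H := by
  have hodd : Nat.card G % 2 = 1 := by
    rw [hG]
    exact Nat.odd_iff.1 (Odd.pow (by decide))
  obtain ⟨A', F, hA'X, hFX, hA', hF, hcard⟩ := removal_sub G hodd X hA
  have h1 := coset_third hG H A' x0 h3 (fun x hx => hX x (hA'X hx)) hA'
  obtain ⟨W, hW, hWc⟩ := tr H F x0 (fun x hx => hX x (hFX hx))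
  have h2 : (W.card : ℝ) ≤ ε * Nat.card H := by
    apply hN0 H hH W
    intro a ha b hb c hc h
    have ha' := Finset.mem_coe.2 (hW a (Finset.mem_coe.1 ha))
    have hb' := Finset.mem_coe.2 (hW b (Finset.mem_coe.1 hb))
    have hc' := Finset.mem_coe.2 (hW c (Finset.mem_coe.1 hc))
    have h' : (a : G) + c = b + b := congrArg (fun v : H => (v : G)) h
    have h3 := hF ha' hb' hc' (by
      have e1 : (a : G) + x0 + (c + x0) = (a + c) + (x0 + x0) := by abel
      have e2 : (b : G) + x0 + (b + x0) = (b + b) + (x0 + x0) := by abel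
      rw [e1, e2, h'])
    exact Subtype.ext (add_right_cancel h3)
  rw [hWc] at h2
  have h4 : (X.card : ℝ) = A'.card + F.card := by exact_mod_cast hcard
  have h5 : 3 * (A'.card : ℝ) ≤ Nat.card H := by exact_mod_cast h1
  rw [h4]
  linarith

section
variable {G : Type*} [AddCommGroup G] [Fintype G] {r : ℕ} (φ : G →+ ZMod (3 ^ (r + 1)))

theorem nf_pairA (hφ : Function.Surjective φ) {A : Finset G} (hA : Adm A)
    {i j k : ZMod (3 ^ (r + 1))} (h : i + j + k = 0) (hij : i ≠ j) (hik : i ≠ k) (hjk : j ≠ k)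
    (hi : 0 < nf φ A i) : nf φ A j + nf φ A k ≤ Nat.card φ.ker := by
  classical
  unfold nf at hi ⊢
  obtain ⟨y, hy⟩ := Finset.card_pos.1 hi
  rw [Finset.mem_filter] at hy
  obtain ⟨x0, hx0⟩ := hφ j
  set Z := (A.filter (fun x => φ x = k)).image (fun z => -y - z) with hZ
  have hZc : Z.card = (A.filter (fun x => φ x = k)).card := by
    rw [hZ]
    exact Finset.card_image_of_injective _ (sub_right_injective)
  have hdisj : Disjoint (A.filter (fun x => φ x = j)) Z := by
    rw [Finset.disjoint_left]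
    intro x hx hxZ
    rw [hZ, Finset.mem_image] at hxZ
    obtain ⟨z, hz, rfl⟩ := hxZ
    rw [Finset.mem_filter] at hx hz
    apply hA _ hx.1 y hy.1 z hz.1
    · intro he
      apply hij
      rw [← hy.2, ← hx.2, he]
    · intro he
      apply hjk
      rw [← hx.2, he, hz.2]
    · intro he
      apply hik
      rw [← hy.2, he, hz.2]
    · abel
  rw [← hZc, ← Finset.card_union_of_disjoint hdisj]
  apply coset_card φ.ker _ x0
  intro x hx
  apply sub_mem_ker
  rw [hx0]
  rw [Finset.mem_union] at hx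
  rcases hx with hx | hx
  · exact (Finset.mem_filter.1 hx).2
  · rw [hZ, Finset.mem_image] at hx
    obtain ⟨z, hz, rfl⟩ := hx
    rw [Finset.mem_filter] at hz
    rw [map_sub, map_neg, hy.2, hz.2]
    have : j = -i - k := by
      rw [← sub_eq_zero]
      rw [← h]; abel
    rw [this]

theorem af_pairA (hφ : Function.Surjective φ) {A : Finset G} (hA : Adm A)
    {i j k : ZMod (3 ^ (r + 1))} (h : i + j + k = 0) (hij : i ≠ j) (hik : i ≠ k) (hjk : j ≠ k)
    (hi : 0 < af φ A i) : af φ A j + af φ A k ≤ 1 := by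
  have h1 := nf_pairA φ hφ hA h hij hik hjk ((af_pos φ).1 hi)
  unfold af
  rw [← add_div, div_le_one (kerpos φ)]
  exact_mod_cast h1

/-- The profile bound with the pairs that are used. -/
theorem profileA {r : ℕ} (α : ZMod (3 ^ (r + 1)) → ℝ) (h0 : ∀ j, 0 ≤ α j)
    (h1 : ∀ j, j ≠ 0 → j ≠ cc r → α j + α (cc r - j) ≤ 1) :
    ∑ j, α j * kq r j ≤ (3 ^ r + Sq r) / 2 - 1 + α 0 + α (cc r) - (∑ j, α j) / 2 := by
  classical
  set w : ZMod (3 ^ (r + 1)) → ℝ := fun j => max (kq r j + 1 / 2) 0 with hw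
  have w0 : ∀ j, 0 ≤ w j := fun j => le_max_right _ _
  have wsymm : ∀ j, w (cc r - j) = w j := by
    intro j
    simp only [hw]
    rw [kq_symm]
  have wz : w 0 = 1 := by
    simp only [hw]
    rw [kq_zero]
    norm_num
  have wc : w (cc r) = 1 := by
    simp only [hw]
    rw [kq_cc]
    norm_num
  have s1 : ∑ j, α j * kq r j + (∑ j, α j) / 2 ≤ ∑ j, α j * w j := by
    rw [Finset.sum_div, ← Finset.sum_add_distrib]
    apply Finset.sum_le_sum
    intro j _
    have : α j * kq r j + α j / 2 = α j * (kq r j + 1 / 2) := by ring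
    rw [this]
    exact mul_le_mul_of_nonneg_left (le_max_left _ _) (h0 j)
  have s2 : ∑ j, α j * w j = (∑ j, w j * (α j + α (cc r - j))) / 2 := by
    have e1 : ∑ j, α (cc r - j) * w (cc r - j) = ∑ j, α j * w j :=
      Equiv.sum_comp (Equiv.subLeft (cc r)) (fun j => α j * w j)
    have e2 : ∑ j, w j * (α j + α (cc r - j)) =
        ∑ j, α j * w j + ∑ j, α (cc r - j) * w (cc r - j) := by
      rw [← Finset.sum_add_distrib]
      apply Finset.sum_congr rfl
      intro j _
      rw [wsymm]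
      ring
    rw [e2, e1]
    ring
  set X := 1 - (α 0 + α (cc r)) with hX
  have s3 : ∑ j, w j * (α j + α (cc r - j)) ≤
      ∑ j, (w j - ((if j = 0 then X else 0) + (if j = cc r then X else 0))) := by
    apply Finset.sum_le_sum
    intro j _
    by_cases hj0 : j = 0
    · subst hj0
      rw [if_pos rfl, if_neg (cc_ne r).symm, wz, sub_zero]
      linarith
    · by_cases hjc : j = cc r
      · rw [if_neg hj0, if_pos hjc, hjc, wc, sub_self]
        linarith
      · rw [if_neg hj0, if_neg hjc]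
        have h2 := h1 j hj0 hjc
        have := mul_le_mul_of_nonneg_left h2 (w0 j)
        linarith
  have s4 : ∑ j, (w j - ((if j = 0 then X else 0) + (if j = cc r then X else 0))) =
      ∑ j, w j - 2 * X := by
    rw [Finset.sum_sub_distrib, Finset.sum_add_distrib, Finset.sum_ite_eq', Finset.sum_ite_eq',
      if_pos (Finset.mem_univ _), if_pos (Finset.mem_univ _)]
    ring
  have s5 : ∑ j, w j ≤ 3 ^ r + Sq r := W_le r
  rw [s4] at s3
  linarith

theorem zmod3_two {r : ℕ} {x y : ZMod (3 ^ (r + 1))} (h : x + x = y + y) : x = y := by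
  have hodd : Nat.card (ZMod (3 ^ (r + 1))) % 2 = 1 := by
    rw [Nat.card_zmod]
    exact Nat.odd_iff.1 (Odd.pow (by decide))
  exact BIG_two_inj hodd h

/-- Bound for one frequency. -/
theorem charBoundA (hφ : Function.Surjective φ) {A : Finset G} (hA : Adm A) {P : ℝ}
    (hP2 : P ≤ 1 / 2)
    (hpos : ∀ j, j + j + j = 0 → 0 < af φ A j) (hP : ∀ j, j + j + j = 0 → af φ A j ≤ P)
    {ψ : AddChar G ℂ} (hψ : ∀ x, ψ x = ZMod.stdAddChar (φ x)) (s : ZMod (3 ^ (r + 1)))
    (hs : s + s + s = 0) :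
    K (SG A ψ * ZMod.stdAddChar s) ≤ (Nat.card φ.ker : ℝ) *
      ((3 ^ r + Sq r) / 2 - 1 + 2 * P - (∑ j, af φ A j) / 2) := by
  have e1 : K (SG A ψ * ZMod.stdAddChar s) = (Nat.card φ.ker : ℝ) *
      ∑ j, af φ A (j - s) * kq r j := by
    unfold SG
    rw [Finset.sum_mul, K_sum]
    have e2 : ∀ x ∈ A, K (ψ x * ZMod.stdAddChar s) = kq r (φ x + s) := by
      intro x _
      unfold kq
      rw [hψ, AddChar.map_add_eq_mul]
    rw [Finset.sum_congr rfl e2, sum_nf φ A (fun j => kq r (j + s)), Finset.mul_sum]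
    rw [← Equiv.sum_comp (Equiv.subRight s) (fun j => (nf φ A j : ℝ) * kq r (j + s))]
    apply Finset.sum_congr rfl
    intro j _
    rw [Equiv.subRight_apply, nf_af, sub_add_cancel]
    ring
  rw [e1]
  apply mul_le_mul_of_nonneg_left _ (kerpos φ).le
  have h1 := profileA (fun j => af φ A (j - s)) (fun j => af_nonneg φ A _) ?_
  · have e3 : ∑ j, af φ A (j - s) = ∑ j, af φ A j :=
      Equiv.sum_comp (Equiv.subRight s) (fun j => af φ A j)
    rw [e3] at h1
    have h2 : af φ A (0 - s) ≤ P := by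
      apply hP
      have : 0 - s + (0 - s) + (0 - s) = -(s + s + s) := by abel
      rw [this, hs, neg_zero]
    have h3 : af φ A (cc r - s) ≤ P := by
      apply hP
      have : cc r - s + (cc r - s) + (cc r - s) = (cc r + cc r + cc r) - (s + s + s) := by abel
      rw [this, hs, cc3, sub_zero]
    linarith
  · intro j _ _
    have hb : cc r + cc r - s + (cc r + cc r - s) + (cc r + cc r - s) = 0 := by
      have : cc r + cc r - s + (cc r + cc r - s) + (cc r + cc r - s) =
        (cc r + cc r + cc r) + (cc r + cc r + cc r) - (s + s + s) := by abel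
      rw [this, hs, cc3, add_zero, sub_zero]
    have hc4 : (cc r + cc r) + (cc r + cc r) = cc r := by
      have : (cc r + cc r) + (cc r + cc r) = (cc r + cc r + cc r) + cc r := by abel
      rw [this, cc3, zero_add]
    by_cases hj : j = cc r + cc r
    · subst hj
      have e : cc r - (cc r + cc r) - s = cc r + cc r - s := by
        have : cc r - (cc r + cc r) = cc r + cc r - (cc r + cc r + cc r) := by abel
        rw [this, cc3, sub_zero]
      change af φ A (cc r + cc r - s) + af φ A (cc r - (cc r + cc r) - s) ≤ 1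
      rw [e]
      have := hP _ hb
      linarith
    · apply af_pairA φ hφ hA (i := cc r + cc r - s) _ _ _ _ (hpos _ hb)
      · have : cc r + cc r - s + (j - s) + (cc r - j - s) = (cc r + cc r + cc r) - (s + s + s) := by
          abel
        rw [this, cc3, hs, sub_zero]
      · intro h
        exact hj (sub_left_injective h).symm
      · intro h
        have h1 : cc r + cc r = cc r - j := sub_left_injective h
        apply hj
        have h2 : j = cc r - (cc r + cc r) := by rw [h1]; abel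
        rw [h2]
        have : cc r - (cc r + cc r) = cc r + cc r - (cc r + cc r + cc r) := by abel
        rw [this, cc3, sub_zero]
      · intro h
        have h1 : j = cc r - j := sub_left_injective h
        apply hj
        apply zmod3_two
        rw [hc4]
        calc j + j = j + (cc r - j) := by rw [← h1]
          _ = cc r := by abel

/-- Bottom fibres of full order. -/
theorem bottom_fullA {k : ℕ} (φ : G →+ ZMod (3 ^ (k + 1))) (hφ : Function.Surjective φ)
    (hexp : ∀ x : G, 3 ^ (k + 1) • x = 0) {A : Finset G} (hA : Adm A) {d : ℕ}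
    (hM : ∀ B : Finset φ.ker, Adm B → B.card ≤ d) {j : ZMod (3 ^ (k + 1))} (hj : j + j + j = 0) :
    nf φ A j ≤ d := by
  classical
  obtain ⟨g, hg⟩ := hφ 1
  set x0 := j.val • g with hx0
  have hφx0 : φ x0 = j := by
    rw [hx0, map_nsmul, hg, nsmul_eq_mul, mul_one, ZMod.natCast_zmod_val]
  have h3 : x0 + x0 + x0 = 0 := by
    have h4 : 3 ^ (k + 1) ∣ j.val + j.val + j.val := by
      rw [← ZMod.natCast_eq_zero_iff]
      push_cast
      rw [ZMod.natCast_zmod_val]
      exact hj
    obtain ⟨t, ht⟩ := h4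
    rw [hx0, ← add_smul, ← add_smul, ht, mul_comm, mul_smul, hexp, smul_zero]
  unfold nf
  obtain ⟨W, hW, hc⟩ := tr φ.ker (A.filter (fun x => φ x = j)) x0 (fun x hx =>
    sub_mem_ker ((Finset.mem_filter.1 hx).2.trans hφx0.symm))
  rw [← hc]
  apply hM
  intro x hx y hy z hz hxy hxz hyz hs
  have hx' := (Finset.mem_filter.1 (hW x hx)).1
  have hy' := (Finset.mem_filter.1 (hW y hy)).1
  have hz' := (Finset.mem_filter.1 (hW z hz)).1
  apply hA _ hx' _ hy' _ hz'
  · intro h
    exact hxy (Subtype.ext (add_right_cancel h))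
  · intro h
    exact hxz (Subtype.ext (add_right_cancel h))
  · intro h
    exact hyz (Subtype.ext (add_right_cancel h))
  · have hs' : (x : G) + y + z = 0 := congrArg (fun v : φ.ker => (v : G)) hs
    have e : (x : G) + x0 + (y + x0) + (z + x0) = (x + y + z) + (x0 + x0 + x0) := by abel
    rw [e, hs', h3, add_zero]

end

/-- Numerical consequence for characters of full order. -/
theorem num_fullA {r : ℕ} (hr : 2 ≤ r) {Λ δ : ℝ} (h1 : 8 / 27 ≤ δ) (h2 : δ ≤ 34 / 100)
    (h : Λ ≤ Sq r / 2 - 3 ^ r / 2 + 3 ^ (r + 1) * δ / 2) :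
    Λ ≤ 3 ^ (r + 1) * (δ ^ 2 / (1 - δ) - 1 / 40000) := by
  have hS := Sq_big r hr
  set Q : ℝ := 3 ^ (r + 1) with hQ
  have hQ3 : (3 : ℝ) ^ r = Q / 3 := by rw [hQ, pow_succ]; ring
  have hQ0 : 0 < Q := by rw [hQ]; positivity
  rw [hQ3] at h
  have h3 : Λ ≤ Q * (1384 / 10000 - 1 / 6 + δ / 2) := by linarith
  have h4 : 1384 / 10000 - 1 / 6 + δ / 2 + 1 / 40000 ≤ δ ^ 2 / (1 - δ) := by
    rw [le_div_iff₀ (by linarith)]
    nlinarith
  have h5 := mul_le_mul_of_nonneg_left h4 hQ0.le
  linarith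

/-- Numerical consequence for characters of smaller order. -/
theorem num_smallA {r : ℕ} {Λ δ : ℝ} (h1 : r = 0 → 22 / 81 ≤ δ) (h1' : r = 1 → 76 / 243 ≤ δ)
    (h1'' : 2 ≤ r → 32 / 100 ≤ δ) (h2 : δ ≤ 34 / 100)
    (h : Λ ≤ (3 ^ r + Sq r) / 2 - 1 / 3 + 1 / 20000 - 3 ^ (r + 1) * δ / 2) :
    Λ ≤ 3 ^ (r + 1) * (δ ^ 2 / (1 - δ) - 1 / 40000) := by
  rcases r with _ | _ | r
  · have h3 := h1 rfl
    rw [Sq_zero] at h
    norm_num at h ⊢
    have h4 : 2 / 3 - 3 * δ / 2 ≤ 3 * (δ ^ 2 / (1 - δ)) - 3 / 20000 := by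
      have h5 : (2 / 9 + 1 / 20000 - δ / 2) ≤ δ ^ 2 / (1 - δ) := by
        rw [le_div_iff₀ (by linarith)]
        nlinarith
      linarith
    linarith
  · have h3 := h1' rfl
    have hS := Sq_one
    norm_num at h ⊢
    have h4 : (2447 / 9000 + 1 / 20000 - δ / 2) ≤ δ ^ 2 / (1 - δ) := by
      rw [le_div_iff₀ (by linarith)]
      nlinarith
    linarith
  · have h3 := h1'' (by omega)
    have hS := Sq_big (r + 1 + 1) (by omega)
    set Q : ℝ := 3 ^ (r + 1 + 1 + 1) with hQ
    have hQ3 : (3 : ℝ) ^ (r + 1 + 1) = Q / 3 := by rw [hQ, pow_succ]; ring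
    have hQ0 : 3 ≤ Q := by
      rw [hQ]
      calc (3 : ℝ) = 3 ^ 1 := by norm_num
        _ ≤ 3 ^ (r + 1 + 1 + 1) := pow_le_pow_right₀ (by norm_num) (by omega)
    rw [hQ3] at h
    have h4 : 1384 / 10000 + 1 / 6 - δ / 2 + 1 / 20000 ≤ δ ^ 2 / (1 - δ) := by
      rw [le_div_iff₀ (by linarith)]
      nlinarith
    have h5 := mul_le_mul_of_nonneg_left h4 (by linarith : (0 : ℝ) ≤ Q)
    linarith

end Pool.Agent.N9
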