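import Pool.Agent.N9.KF

set_option autoImplicit false
set_option linter.unusedVariables false

/-! # Perturbed linear inequalities for the nine fibres -/

namespace Pool.Agent.N9

theorem lem_TA {a0 a1 a2 a3 a4 a5 a6 a7 a8 p : ℝ} (n0 : 0 ≤ a0) (n1 : 0 ≤ a1) (n2 : 0 ≤ a2)
    (n3 : 0 ≤ a3) (n4 : 0 ≤ a4) (n5 : 0 ≤ a5) (n6 : 0 ≤ a6) (n7 : 0 ≤ a7) (n8 : 0 ≤ a8)
    (p0 : a0 ≤ p) (p3 : a3 ≤ p) (p6 : a6 ≤ p) (plo : 2 / 9 ≤ p) (phi : p ≤ 2 / 7 + 1 / 1000000)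
    (c1 : a1 + a4 + a7 ≤ 1 + 1 / 1000000) (c2 : a2 + a5 + a8 ≤ 1 + 1 / 1000000) (u1 : 2 / 3 < a1)
    (t1 : a8 = 0 ∨ a1 + a8 + a0 ≤ 10 / 9) (t3 : a2 = 0 ∨ a1 + a2 + a6 ≤ 10 / 9)
    (t5 : a5 = 0 ∨ a1 + a5 + a3 ≤ 10 / 9) :
    a0 + a1 + a2 + a3 + a4 + a5 + a6 + a7 + a8 ≤ 2 + 2 * p := by
  rcases t3 with q1 | q1 <;> rcases t5 with q2 | q2 <;> rcases t1 with q3 | q3 <;> linarith

theorem lem_LA {a0 a1 a2 a3 a4 a5 a6 a7 a8 p : ℝ} (n0 : 0 ≤ a0) (n1 : 0 ≤ a1) (n2 : 0 ≤ a2)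
    (n3 : 0 ≤ a3) (n4 : 0 ≤ a4) (n5 : 0 ≤ a5) (n6 : 0 ≤ a6) (n7 : 0 ≤ a7) (n8 : 0 ≤ a8)
    (p0 : a0 ≤ p) (p3 : a3 ≤ p) (p6 : a6 ≤ p) (plo : 2 / 9 ≤ p) (phi : p ≤ 2 / 7 + 1 / 1000000)
    (c1 : a1 + a4 + a7 ≤ 1) (c2 : a2 + a5 + a8 ≤ 1)
    (u1 : a1 ≤ 2 / 3) (u2 : a2 ≤ 2 / 3) (u4 : a4 ≤ 2 / 3) (u5 : a5 ≤ 2 / 3) (u7 : a7 ≤ 2 / 3)
    (u8 : a8 ≤ 2 / 3) (hT : 2 + 2 * p - 1 / 1000000 ≤ a0 + a1 + a2 + a3 + a4 + a5 + a6 + a7 + a8)
    (t1 : TN a1 a8 a0) (t2 : TU a1 a7) (t3 : TN a1 a2 a6) (t4 : TU a2 a5) (t5 : TN a2 a4 a3)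
    (t6 : TU a8 a2) :
    1 / 2 * (a0 + a3) + 94 / 100 * (a1 + a2) - 1736 / 10000 * (a4 + a8) - 766 / 1000 * (a5 + a7)
      - a6 ≤ 24 / 25 * (a0 + a1 + a2 + a3 + a4 + a5 + a6 + a7 + a8) - 36 / 25 - 1 / 3000 := by
  rcases t5 with q1 | q1 | q1 | q1 | ⟨q1_1, q1_2, q1_3, q1_4, q1_5, q1_6, q1_7⟩
  · linarith
  · rcases t2 with q2 | q2 | q2 | ⟨q2_1, q2_2⟩
    · linarith
    · linarith
    · linarith
    · linarith
  · rcases t3 with q2 | q2 | q2 | q2 | ⟨q2_1, q2_2, q2_3, q2_4, q2_5, q2_6, q2_7⟩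
    · linarith
    · linarith
    · linarith
    · linarith
    · linarith
  · rcases t2 with q2 | q2 | q2 | ⟨q2_1, q2_2⟩
    · linarith
    · rcases t3 with q3 | q3 | q3 | q3 | ⟨q3_1, q3_2, q3_3, q3_4, q3_5, q3_6, q3_7⟩
      · linarith
      · linarith
      · rcases t1 with q4 | q4 | q4 | q4 | ⟨q4_1, q4_2, q4_3, q4_4, q4_5, q4_6, q4_7⟩
        · linarith
        · rcases t4 with q5 | q5 | q5 | ⟨q5_1, q5_2⟩
          · linarith
          · linarith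
          · linarith
          · linarith
        · linarith
        · rcases t4 with q5 | q5 | q5 | ⟨q5_1, q5_2⟩
          · linarith
          · linarith
          · linarith
          · linarith
        · linarith
      · rcases t1 with q4 | q4 | q4 | q4 | ⟨q4_1, q4_2, q4_3, q4_4, q4_5, q4_6, q4_7⟩
        · linarith
        · linarith
        · linarith
        · rcases t4 with q5 | q5 | q5 | ⟨q5_1, q5_2⟩
          · linarith
          · linarith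
          · linarith
          · linarith
        · linarith
      · rcases t6 with q4 | q4 | q4 | ⟨q4_1, q4_2⟩
        · linarith
        · linarith
        · linarith
        · linarith
    · rcases t3 with q3 | q3 | q3 | q3 | ⟨q3_1, q3_2, q3_3, q3_4, q3_5, q3_6, q3_7⟩
      · linarith
      · linarith
      · rcases t6 with q4 | q4 | q4 | ⟨q4_1, q4_2⟩
        · linarith
        · linarith
        · linarith
        · linarith
      · rcases t6 with q4 | q4 | q4 | ⟨q4_1, q4_2⟩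
        · linarith
        · linarith
        · linarith
        · linarith
      · rcases t6 with q4 | q4 | q4 | ⟨q4_1, q4_2⟩
        · linarith
        · linarith
        · linarith
        · linarith
    · linarith
  · rcases t3 with q2 | q2 | q2 | q2 | ⟨q2_1, q2_2, q2_3, q2_4, q2_5, q2_6, q2_7⟩
    · linarith
    · linarith
    · rcases t6 with q3 | q3 | q3 | ⟨q3_1, q3_2⟩
      · linarith
      · linarith
      · linarith
      · linarith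
    · rcases t6 with q3 | q3 | q3 | ⟨q3_1, q3_2⟩
      · linarith
      · linarith
      · linarith
      · linarith
    · rcases t6 with q3 | q3 | q3 | ⟨q3_1, q3_2⟩
      · linarith
      · linarith
      · linarith
      · linarith

end Pool.Agent.N9
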