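import Pool.Agent.N9.KG

set_option autoImplicit false

/-! # The nine fibres of an admissible set -/

namespace Pool.Agent.N9
open Finset Pool.Agent.DG

/-- The nine fibres of an admissible set. -/
def FamAd {H : Type*} [AddCommGroup H] (A : ZMod 9 → Finset H) : Prop :=
  ∀ i j k : ZMod 9, i + j + k = 0 → i ≠ j → i ≠ k → j ≠ k → NZ (A i) (A j) (A k)

section
variable {H : Type*} [AddCommGroup H] [Finite H] {m : ℕ} {A A' : ZMod 9 → Finset H} {p : ℝ}

theorem famA_big (hm : Nat.card H = 3 ^ m) (hA : FamAd A) (i j k : ZMod 9) (h : i + j + k = 0)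
    (hij : i ≠ j) (hik : i ≠ k) (hjk : j ≠ k) (hk : (A k).Nonempty) (hbig : 2 / 3 < al A i) :
    al A j = 0 ∨ al A i + al A j + al A k ≤ 10 / 9 := by
  by_cases hj : (A j).Nonempty
  swap
  · exact Or.inl (al_eq_zero j hj)
  have hi : (A i).Nonempty := by
    by_contra hi
    rw [al_eq_zero i hi] at hbig
    norm_num at hbig
  rcases three hm (A i) (A j) (A k) hi hj hk (hA i j k h hij hik hjk) with
    h1 | ⟨F, hF, c1, c2, c3, h1⟩
  · exact Or.inr (al_sum3 i j k h1)
  · exfalso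
    have b1 := unit_bound (A := A) F hF i
    have h2 : (cl F (A i)).card ≤ 2 := by omega
    have h3 : ((cl F (A i)).card : ℝ) ≤ 2 := by exact_mod_cast h2
    linarith

/-- `A'` is a sum-free subfamily of `A` of almost the same size. -/
structure Sub (A A' : ZMod 9 → Finset H) : Prop where
  sub : ∀ i, A' i ⊆ A i
  sf : FamSF A'
  le : tot A ≤ tot A' + 1 / 1000000

theorem al_mono (h : Sub A A') (i : ZMod 9) : al A' i ≤ al A i := by
  unfold al
  apply div_le_div_of_nonneg_right _ (cardH_pos (H := H)).le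
  exact_mod_cast Finset.card_le_card (h.sub i)

theorem fam_oneA (hm : Nat.card H = 3 ^ m) (hA : FamAd A) (hS : Sub A A') (plo : 2 / 9 ≤ p)
    (phi : p ≤ 2 / 7 + 1 / 1000000) (hp : ∀ i : ZMod 9, i + i + i = 0 → al A i ≤ p)
    (hne : ∀ i : ZMod 9, i + i + i = 0 → (A i).Nonempty) (hT : 2 + 2 * p < tot A) :
    al A 1 ≤ 2 / 3 := by
  by_contra hcon
  rw [not_le] at hcon
  have c1 := fam_class hm hS.sf 1 (Or.inl rfl)
  have c2 := fam_class hm hS.sf 2 (Or.inr rfl)
  rw [show (1 : ZMod 9) + 3 = 4 from rfl, show (1 : ZMod 9) + 6 = 7 from rfl] at c1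
  rw [show (2 : ZMod 9) + 3 = 5 from rfl, show (2 : ZMod 9) + 6 = 8 from rfl] at c2
  have hle := hS.le
  have hM : ∀ i : ZMod 9, al A' i ≤ al A i := al_mono hS
  have m0 := hM 0
  have m1 := hM 1
  have m2 := hM 2
  have m3 := hM 3
  have m4 := hM 4
  have m5 := hM 5
  have m6 := hM 6
  have m7 := hM 7
  have m8 := hM 8
  unfold tot at hle
  rw [sum9, sum9] at hle
  have t1 := famA_big hm hA 1 8 0 (by decide) (by decide) (by decide) (by decide)
    (hne 0 (by decide)) hcon
  have t3 := famA_big hm hA 1 2 6 (by decide) (by decide) (by decide) (by decide)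
    (hne 6 (by decide)) hcon
  have t5 := famA_big hm hA 1 5 3 (by decide) (by decide) (by decide) (by decide)
    (hne 3 (by decide)) hcon
  have := lem_TA (al_nonneg (A := A) 0) (al_nonneg (A := A) 1) (al_nonneg (A := A) 2)
    (al_nonneg (A := A) 3) (al_nonneg (A := A) 4) (al_nonneg (A := A) 5) (al_nonneg (A := A) 6)
    (al_nonneg (A := A) 7) (al_nonneg (A := A) 8) (hp 0 (by decide)) (hp 3 (by decide))
    (hp 6 (by decide)) plo phi (by linarith) (by linarith) hcon t1 t3 t5
  unfold tot at hT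
  rw [sum9] at hT
  linarith

theorem tot_mul (u : (ZMod 9)ˣ) (B : ZMod 9 → Finset H) : tot (fun j => B (u * j)) = tot B := by
  unfold tot
  exact (Equiv.sum_comp (Units.mulLeft u) (fun i => al B i))

theorem fam_unitA (hm : Nat.card H = 3 ^ m) (hA : FamAd A) (hS : Sub A A') (plo : 2 / 9 ≤ p)
    (phi : p ≤ 2 / 7 + 1 / 1000000) (hp : ∀ i : ZMod 9, i + i + i = 0 → al A i ≤ p)
    (hne : ∀ i : ZMod 9, i + i + i = 0 → (A i).Nonempty) (hT : 2 + 2 * p < tot A)
    (u : (ZMod 9)ˣ) : al A u ≤ 2 / 3 := by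
  have hinj : ∀ i j : ZMod 9, i ≠ j → (u : ZMod 9) * i ≠ u * j := by
    intro i j hij h
    exact hij ((Units.mul_right_inj u).1 h)
  have h := fam_oneA (A := fun j => A (u * j)) (A' := fun j => A' (u * j)) (p := p) hm ?_ ?_ plo
    phi ?_ ?_ ?_
  · have e : al (fun j => A (u * j)) 1 = al A u := by
      unfold al
      simp only [mul_one]
    rwa [e] at h
  · intro i j k hijk hij hik hjk
    apply hA
    · rw [← mul_add, ← mul_add, hijk, mul_zero]
    · exact hinj _ _ hij
    · exact hinj _ _ hik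
    · exact hinj _ _ hjk
  · constructor
    · intro i
      exact hS.sub _
    · intro i j k hijk
      apply hS.sf
      rw [← mul_add, ← mul_add, hijk, mul_zero]
    · rw [tot_mul, tot_mul]
      exact hS.le
  · intro i hi
    apply hp
    rw [← mul_add, ← mul_add, hi, mul_zero]
  · intro i hi
    apply hne
    rw [← mul_add, ← mul_add, hi, mul_zero]
  · rw [tot_mul]
    exact hT

theorem fam_LA (hm : Nat.card H = 3 ^ m) (hA : FamAd A) (hS : Sub A A') (plo : 2 / 9 ≤ p)
    (phi : p ≤ 2 / 7 + 1 / 1000000) (hp : ∀ i : ZMod 9, i + i + i = 0 → al A i ≤ p)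
    (hne : ∀ i : ZMod 9, i + i + i = 0 → (A i).Nonempty) (hT : 2 + 2 * p < tot A)
    {κ : ZMod 9 → ℝ} (hκ : Kap κ) :
    ∑ j, al A j * κ j ≤ 24 / 25 * tot A - 36 / 25 - 1 / 4000 := by
  have c1 := fam_class hm hS.sf 1 (Or.inl rfl)
  have c2 := fam_class hm hS.sf 2 (Or.inr rfl)
  rw [show (1 : ZMod 9) + 3 = 4 from rfl, show (1 : ZMod 9) + 6 = 7 from rfl] at c1
  rw [show (2 : ZMod 9) + 3 = 5 from rfl, show (2 : ZMod 9) + 6 = 8 from rfl] at c2
  have t1 := fam_TN hm hS.sf 1 8 0 (by decide) (by decide)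
  have t2 := fam_TU hm hS.sf 1 7 (by decide)
  have t3 := fam_TN hm hS.sf 1 2 6 (by decide) (by decide)
  have t4 := fam_TU hm hS.sf 2 5 (by decide)
  have t5 := fam_TN hm hS.sf 2 4 3 (by decide) (by decide)
  have t6 := fam_TU hm hS.sf 8 2 (by decide)
  have n0 := al_nonneg (A := A') 0
  have n1 := al_nonneg (A := A') 1
  have n2 := al_nonneg (A := A') 2
  have n3 := al_nonneg (A := A') 3
  have n4 := al_nonneg (A := A') 4
  have n5 := al_nonneg (A := A') 5
  have n6 := al_nonneg (A := A') 6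
  have n7 := al_nonneg (A := A') 7
  have n8 := al_nonneg (A := A') 8
  have hle := hS.le
  have hM : ∀ i : ZMod 9, al A' i ≤ al A i := al_mono hS
  have U : ∀ i : ZMod 9, IsUnit i → al A' i ≤ 2 / 3 := by
    rintro i ⟨u, rfl⟩
    exact (hM _).trans (fam_unitA hm hA hS plo phi hp hne hT u)
  have key := lem_LA n0 n1 n2 n3 n4 n5 n6 n7 n8 ((hM 0).trans (hp 0 (by decide)))
    ((hM 3).trans (hp 3 (by decide)))
    ((hM 6).trans (hp 6 (by decide))) plo phi c1 c2 (U 1 (isUnit9 1 (by decide)))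
    (U 2 (isUnit9 2 (by decide)))
    (U 4 (isUnit9 4 (by decide))) (U 5 (isUnit9 5 (by decide))) (U 7 (isUnit9 7 (by decide)))
    (U 8 (isUnit9 8 (by decide)))
    (by
      have h := hT
      have h' := hle
      unfold tot at h h'
      rw [sum9 (fun i => al A' i)] at h'
      linarith) t1 t2 t3 t4 t5 t6
  have hc : ∀ j : ZMod 9, κ j ≤ 1 := by
    have hd : ∀ j : ZMod 9, j = 0 ∨ j = 1 ∨ j = 2 ∨ j = 3 ∨ j = 4 ∨ j = 5 ∨ j = 6 ∨ j = 7 ∨
        j = 8 := by decide
    intro j
    rcases hd j with rfl | rfl | rfl | rfl | rfl | rfl | rfl | rfl | rfl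
    · exact hκ.k0.trans (by norm_num)
    · exact hκ.k1.trans (by norm_num)
    · exact hκ.k2.trans (by norm_num)
    · exact hκ.k3.trans (by norm_num)
    · exact hκ.k4.trans (by norm_num)
    · exact hκ.k5.trans (by norm_num)
    · exact hκ.k6.trans (by norm_num)
    · exact hκ.k7.trans (by norm_num)
    · exact hκ.k8.trans (by norm_num)
  have s1 : ∑ j, al A j * κ j ≤ ∑ j, al A' j * κ j + (tot A - tot A') := by
    unfold tot
    rw [← Finset.sum_sub_distrib, ← Finset.sum_add_distrib]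
    apply Finset.sum_le_sum
    intro j _
    have h1 := mul_le_mul_of_nonneg_left (hc j) (sub_nonneg.2 (hM j))
    have e : al A j * κ j = al A' j * κ j + (al A j - al A' j) * κ j := by ring
    rw [e]
    linarith
  have s2 : ∑ j, al A' j * κ j ≤ 24 / 25 * tot A' - 36 / 25 - 1 / 3000 := by
    unfold tot
    rw [sum9, sum9]
    have g0 := mul_le_mul_of_nonneg_left hκ.k0 n0
    have g1 := mul_le_mul_of_nonneg_left hκ.k1 n1
    have g2 := mul_le_mul_of_nonneg_left hκ.k2 n2
    have g3 := mul_le_mul_of_nonneg_left hκ.k3 n3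
    have g4 := mul_le_mul_of_nonneg_left hκ.k4 n4
    have g5 := mul_le_mul_of_nonneg_left hκ.k5 n5
    have g6 := mul_le_mul_of_nonneg_left hκ.k6 n6
    have g7 := mul_le_mul_of_nonneg_left hκ.k7 n7
    have g8 := mul_le_mul_of_nonneg_left hκ.k8 n8
    linarith
  linarith

theorem tot_add (s : ZMod 9) (B : ZMod 9 → Finset H) : tot (fun j => B (j + s)) = tot B := by
  unfold tot
  exact (Equiv.sum_comp (Equiv.addRight s) (fun i => al B i))

theorem fam_shiftA (hm : Nat.card H = 3 ^ m) (hA : FamAd A) (hS : Sub A A') (plo : 2 / 9 ≤ p)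
    (phi : p ≤ 2 / 7 + 1 / 1000000) (hp : ∀ i : ZMod 9, i + i + i = 0 → al A i ≤ p)
    (hne : ∀ i : ZMod 9, i + i + i = 0 → (A i).Nonempty) (hT : 2 + 2 * p < tot A)
    {κ : ZMod 9 → ℝ} (hκ : Kap κ) (s : ZMod 9) (hs : s + s + s = 0) :
    ∑ j, al A j * κ (j - s) ≤ 24 / 25 * tot A - 36 / 25 - 1 / 4000 := by
  have e2 : ∑ j, al (fun j => A (j + s)) j * κ j = ∑ j, al A j * κ (j - s) := by
    have := Equiv.sum_comp (Equiv.addRight s) (fun i => al A i * κ (i - s))
    rw [← this]
    apply Finset.sum_congr rfl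
    intro j _
    have e3 : (Equiv.addRight s) j - s = j := by
      rw [Equiv.coe_addRight, add_sub_cancel_right]
    rw [e3]
    rfl
  have h3 : ∀ i j k : ZMod 9, i + j + k = 0 → i + s + (j + s) + (k + s) = 0 := by
    intro i j k hijk
    have : i + s + (j + s) + (k + s) = (i + j + k) + (s + s + s) := by ring
    rw [this, hijk, hs, add_zero]
  have h := fam_LA (A := fun j => A (j + s)) (A' := fun j => A' (j + s)) (p := p) hm ?_ ?_ plo phi
    ?_ ?_ ?_ hκ
  · rw [tot_add, e2] at h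
    exact h
  · intro i j k hijk hij hik hjk
    apply hA _ _ _ (h3 i j k hijk)
    · exact fun h => hij (add_right_cancel h)
    · exact fun h => hik (add_right_cancel h)
    · exact fun h => hjk (add_right_cancel h)
  · constructor
    · intro i
      exact hS.sub _
    · intro i j k hijk
      exact hS.sf _ _ _ (h3 i j k hijk)
    · rw [tot_add, tot_add]
      exact hS.le
  · intro i hi
    exact hp _ (h3 i i i hi)
  · intro i hi
    exact hne _ (h3 i i i hi)
  · rw [tot_add]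
    exact hT

end

section
variable {G : Type*} [AddCommGroup G] [Fintype G] (φ : G →+ ZMod 9)

theorem fam_f9A {g : G} (h9 : 9 • g = 0) (hg : φ g = 1) {A : Finset G} (hA : Adm A) :
    FamAd (f9 φ g A) := by
  intro i j k hijk hij hik hjk x hx y hy z hz hs
  rw [mem_f9] at hx hy hz
  have hφ : ∀ (w : φ.ker) (i : ZMod 9), φ ((w : G) + i.val • g) = i := by
    intro w i
    rw [map_add, AddMonoidHom.mem_ker.1 w.2, zero_add, phi_g φ hg]
  apply hA _ hx _ hy _ hz
  · intro h
    apply hij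
    rw [← hφ x i, h, hφ]
  · intro h
    apply hik
    rw [← hφ x i, h, hφ]
  · intro h
    apply hjk
    rw [← hφ y j, h, hφ]
  · obtain ⟨t, ht⟩ := dec9 i j k hijk
    have hs' : (x : G) + y + z = 0 := congrArg (fun v : φ.ker => (v : G)) hs
    have e : (x : G) + i.val • g + (y + j.val • g) + (z + k.val • g) =
        (x + y + z) + (i.val + j.val + k.val) • g := by
      rw [add_smul, add_smul]; abel
    rw [e, hs', ht, mul_comm, mul_smul, h9, smul_zero, add_zero]

theorem fam_f9A3 {g : G} (h9 : 9 • g = 0) {A : Finset G} (hA : Adm A) {i : ZMod 9}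
    (hi : i + i + i = 0) : Adm (f9 φ g A i) := by
  intro x hx y hy z hz hxy hxz hyz hs
  rw [mem_f9] at hx hy hz
  apply hA _ hx _ hy _ hz
  · intro h
    exact hxy (Subtype.ext (add_right_cancel h))
  · intro h
    exact hxz (Subtype.ext (add_right_cancel h))
  · intro h
    exact hyz (Subtype.ext (add_right_cancel h))
  · obtain ⟨t, ht⟩ := dec9 i i i hi
    have hs' : (x : G) + y + z = 0 := congrArg (fun v : φ.ker => (v : G)) hs
    have e : (x : G) + i.val • g + (y + i.val • g) + (z + i.val • g) =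
        (x + y + z) + (i.val + i.val + i.val) • g := by
      rw [add_smul, add_smul]; abel
    rw [e, hs', ht, mul_comm, mul_smul, h9, smul_zero, add_zero]

theorem nineStepA {m : ℕ} (hm : Nat.card φ.ker = 3 ^ m) (hφ : Function.Surjective φ)
    (h9 : ∀ x : G, 9 • x = 0) {A A' : Finset G} (hA : Adm A) (hsub : A' ⊆ A) (hA' : SF A')
    (hle : (A.card : ℝ) ≤ A'.card + (Nat.card φ.ker : ℝ) * (1 / 1000000))
    {p : ℝ} (plo : 2 / 9 ≤ p)
    (phi : p ≤ 2 / 7 + 1 / 1000000)
    (hM : ∀ B : Finset φ.ker, Adm B → (B.card : ℝ) ≤ p * (Nat.card φ.ker : ℝ))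
    (hne : ∀ j : ZMod 9, j + j + j = 0 → ∃ x ∈ A, φ x = j)
    {t : ℝ} (ht : (A.card : ℝ) = (Nat.card φ.ker : ℝ) * t) (hT : 2 + 2 * p < t)
    {ψ : AddChar G ℂ} (hψ : ∀ x, ψ x = e9 (φ x)) (s : ZMod 9) (hs : s + s + s = 0) :
    K (SG A ψ * e9 (-s)) ≤ (Nat.card φ.ker : ℝ) * (24 / 25 * t - 36 / 25 - 1 / 4000) := by
  classical
  obtain ⟨g, hg⟩ := hφ 1
  have hfam := fam_f9A φ (h9 g) hg hA
  have hpos : (0 : ℝ) < (Nat.card φ.ker : ℝ) := by exact_mod_cast Nat.card_pos
  have hp : ∀ i : ZMod 9, i + i + i = 0 → al (f9 φ g A) i ≤ p := by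
    intro i hi
    have h1 := hM (f9 φ g A i) (fam_f9A3 φ (h9 g) hA hi)
    unfold al
    rw [div_le_iff₀ hpos]
    exact h1
  have htot : ∀ B : Finset G, (B.card : ℝ) = (Nat.card φ.ker : ℝ) * tot (f9 φ g B) := by
    intro B
    have h1 := sum_f9 φ hg B (fun _ => 1)
    simp only [mul_one, Finset.sum_const, nsmul_eq_mul] at h1
    exact h1
  have htA : tot (f9 φ g A) = t := by
    have h1 := htot A
    rw [ht] at h1
    exact (mul_left_cancel₀ hpos.ne' h1).symm
  have hS : Sub (f9 φ g A) (f9 φ g A') := by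
    constructor
    · intro i w hw
      rw [mem_f9] at hw ⊢
      exact hsub hw
    · exact fam_f9 φ (h9 g) hA'
    · rw [htot A, htot A', ← mul_add] at hle
      exact le_of_mul_le_mul_left hle hpos
  have hne' : ∀ i : ZMod 9, i + i + i = 0 → (f9 φ g A i).Nonempty := by
    intro i hi
    obtain ⟨x, hx, hxi⟩ := hne i hi
    rw [← Finset.card_pos, card_f9 φ hg, Finset.card_pos]
    exact ⟨x, Finset.mem_filter.2 ⟨hx, hxi⟩⟩
  have h2 := fam_shiftA hm hfam hS plo phi hp hne' (by rw [htA]; exact hT) kap_bounds s hs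
  rw [htA] at h2
  have e1 : K (SG A ψ * e9 (-s)) = (Nat.card φ.ker : ℝ) *
      ∑ j, al (f9 φ g A) j * kap (j - s) := by
    rw [← sum_f9 φ hg A (fun j => kap (j - s))]
    unfold SG
    rw [Finset.sum_mul, K_sum]
    apply Finset.sum_congr rfl
    intro x _
    unfold kap
    rw [hψ, sub_eq_add_neg, AddChar.map_add_eq_mul]
  rw [e1]
  exact mul_le_mul_of_nonneg_left h2 hpos.le

end

end Pool.Agent.N9
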