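import Pool.Agent.N9.KH

set_option autoImplicit false

/-! # The main step for admissible sets -/

namespace Pool.Agent.N9
open Finset Pool.Agent.DG

universe u

/-- Admissible subsets of the kernel of every surjection to `ZMod (3^(k+1))` have at most `d`
elements. -/
def KerD (G : Type*) [AddCommGroup G] (k d : ℕ) : Prop :=
  ∀ H : AddSubgroup G, (∃ φ : G →+ ZMod (3 ^ (k + 1)), Function.Surjective φ ∧ φ.ker = H) →
    ∀ B : Finset H, Adm B → B.card ≤ d

theorem exists_three {H : Type*} [AddCommGroup H] [Finite H] (h : 3 ∣ Nat.card H) :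
    ∃ u : H, u ≠ 0 ∧ u + u + u = 0 := by
  have hp : Fact (Nat.Prime 3) := ⟨Nat.prime_three⟩
  obtain ⟨u, hu⟩ := exists_prime_addOrderOf_dvd_card' (G := H) 3 h
  refine ⟨u, ?_, ?_⟩
  · rintro rfl
    rw [addOrderOf_zero] at hu
    omega
  · have := addOrderOf_nsmul_eq_zero u
    rw [hu, succ_nsmul, two_nsmul] at this
    exact this

section
variable {G : Type u} [AddCommGroup G] [Fintype G]

theorem ker_three {m : ℕ} (hG : Nat.card G = 3 ^ m) {r : ℕ} (φ : G →+ ZMod (3 ^ (r + 1)))
    (h : 2 ≤ Nat.card φ.ker) : ∃ u : G, u ≠ 0 ∧ u + u + u = 0 ∧ φ u = 0 := by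
  obtain ⟨m', hm'⟩ := sub_pow hG φ.ker
  have h3 : 3 ∣ Nat.card φ.ker := by
    rw [hm']
    apply dvd_pow_self
    rintro rfl
    rw [hm', pow_zero] at h
    omega
  obtain ⟨u, hu0, hu3⟩ := exists_three h3
  refine ⟨u, ?_, ?_, ?_⟩
  · intro h
    exact hu0 (Subtype.ext h)
  · exact congrArg (fun v : φ.ker => (v : G)) hu3
  · exact AddMonoidHom.mem_ker.1 u.2

theorem bot3 {r : ℕ} {j : ZMod (3 ^ (r + 1))} (hj : j = 0 ∨ j = cc r ∨ j = cc r + cc r) :
    j + j + j = 0 := by
  rcases hj with rfl | rfl | rfl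
  · rw [add_zero, add_zero]
  · exact cc3 r
  · have : cc r + cc r + (cc r + cc r) + (cc r + cc r) = (cc r + cc r + cc r) +
      (cc r + cc r + cc r) := by abel
    rw [this, cc3, add_zero]

theorem af_layerA {m : ℕ} (hG : Nat.card G = 3 ^ m) {r : ℕ} (φ : G →+ ZMod (3 ^ (r + 1)))
    (hφ : Function.Surjective φ) (h : 2 ≤ Nat.card φ.ker) {A : Finset G} (hA : Adm A) :
    ∑ j, af φ A j ≤
      3 ^ r - 1 + (af φ A 0 + af φ A (cc r) + af φ A (cc r + cc r)) +
        6 * r / (Nat.card φ.ker : ℝ) := by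
  obtain ⟨u, hu0, hu3, huk⟩ := ker_three hG φ h
  have h1 := nf_layerA φ hG hφ hu0 hu3 huk hA
  rw [card_G φ hφ] at h1
  have h2 : ((3 * A.card + 3 * Nat.card φ.ker : ℕ) : ℝ) ≤ ((3 ^ (r + 1) * Nat.card φ.ker +
    3 * (nf φ A 0 + nf φ A (cc r) + nf φ A (cc r + cc r)) + 18 * r : ℕ) : ℝ) := by
    exact_mod_cast h1
  push_cast at h2
  rw [sum_af φ A, nf_af, nf_af, nf_af] at h2
  have e0 : (3 : ℝ) ^ (r + 1) = 3 * 3 ^ r := by ring
  rw [e0] at h2
  have h3 := kerpos φ
  have e1 : (Nat.card φ.ker : ℝ) * (6 * r / (Nat.card φ.ker : ℝ)) = 6 * r := by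
    field_simp
  have h4 : (Nat.card φ.ker : ℝ) * ∑ j, af φ A j ≤ (Nat.card φ.ker : ℝ) *
      (3 ^ r - 1 + (af φ A 0 + af φ A (cc r) + af φ A (cc r + cc r)) +
        6 * r / (Nat.card φ.ker : ℝ)) := by
    rw [mul_add, e1]
    nlinarith
  exact le_of_mul_le_mul_left h4 h3

theorem af_thirdA {ε : ℝ} {N0 : ℕ} (hN0 : Big.{u} ε N0) {m : ℕ} (hG : Nat.card G = 3 ^ m)
    {r : ℕ} (φ : G →+ ZMod (3 ^ (r + 1))) (hφ : Function.Surjective φ)
    (hH : N0 ≤ Nat.card φ.ker) {A : Finset G}
    (hA : Adm A) {j : ZMod (3 ^ (r + 1))} (h : j + j + j = 0) : af φ A j ≤ 1 / 3 + ε := by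
  classical
  obtain ⟨x0, hx0⟩ := hφ j
  unfold af
  rw [div_le_iff₀ (kerpos φ)]
  unfold nf
  apply coset_thirdA hN0 hG φ.ker hH _ x0
  · rw [AddMonoidHom.mem_ker, map_add, map_add, hx0, h]
  · intro x hx
    exact sub_mem_ker ((Finset.mem_filter.1 hx).2.trans hx0.symm)
  · exact Adm_mono (Finset.filter_subset _ _) hA

end

theorem mainStepA : ∃ C1 : ℕ, 2 ≤ C1 ∧ ∀ (G : Type u) [AddCommGroup G] [Fintype G] (m : ℕ)
    (_ : Nat.card G = 3 ^ m) (k : ℕ) (_ : 1 ≤ k) (_ : ∀ x : G, 3 ^ (k + 1) • x = 0) (N d : ℕ)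
    (_ : Nat.card G = 3 ^ (k + 1) * N) (_ : C1 ≤ N) (_ : 2 * N ≤ 9 * d)
    (_ : (d : ℝ) ≤ (1 / 3 + 1 / 10000000) * N)
    (_ : k = 1 → (d : ℝ) ≤ (2 / 7 + 1 / 10000000) * N)
    (_ : KerD G k d) (A : Finset G) (_ : Adm A), A.card ≤ (3 ^ k - 1) * N + 2 * d + 6 * k := by
  classical
  obtain ⟨N0, hN0⟩ := exists_Big.{u} (1 / 10000000) (by norm_num)
  refine ⟨max N0 200000, le_trans (by norm_num) (le_max_right _ _), ?_⟩
  intro G _ _ m hG k hk hexp N d hN hNC hf1 hf2 hf3 hM A hA
  have hNN0 : N0 ≤ N := (le_max_left _ _).trans hNC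
  have hN2 : 200000 ≤ N := (le_max_right _ _).trans hNC
  by_contra hcon
  rw [not_le] at hcon
  have hNpos : 0 < N := by omega
  have hNR : (0 : ℝ) < N := by exact_mod_cast hNpos
  have hodd : Nat.card G % 2 = 1 := by
    rw [hG]
    exact Nat.odd_iff.1 (Odd.pow (by decide))
  set p : ℝ := (d : ℝ) / N with hp
  have hpN : (d : ℝ) = p * N := by rw [hp, div_mul_cancel₀ _ hNR.ne']
  have hp1 : 2 / 9 ≤ p := by
    rw [hp, le_div_iff₀ hNR]
    have : ((2 * N : ℕ) : ℝ) ≤ ((9 * d : ℕ) : ℝ) := by exact_mod_cast hf1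
    push_cast at this
    linarith
  have hp2 : p ≤ 1 / 3 + 1 / 10000000 := by
    rw [hp, div_le_iff₀ hNR]
    exact hf2
  have hp3 : k = 1 → p ≤ 2 / 7 + 1 / 10000000 := by
    intro h
    rw [hp, div_le_iff₀ hNR]
    exact hf3 h
  set q : ℝ := 3 ^ (k + 1) with hq
  have hq9 : 9 ≤ q := by
    rw [hq]
    calc (9 : ℝ) = 3 ^ 2 := by norm_num
      _ ≤ 3 ^ (k + 1) := pow_le_pow_right₀ (by norm_num) (by omega)
  have hq3 : (3 : ℝ) ^ k = q / 3 := by rw [hq, pow_succ]; ring
  have hGR : (Nat.card G : ℝ) = q * N := by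
    rw [hN]; push_cast; rfl
  have hGpos : (0 : ℝ) < (Nat.card G : ℝ) := by rw [hGR]; positivity
  have hbig : (q / 3 - 1) * N + 2 * (p * N) + 6 * k < (A.card : ℝ) := by
    have h1 : (((3 ^ k - 1) * N + 2 * d + 6 * k : ℕ) : ℝ) < (A.card : ℝ) := by exact_mod_cast hcon
    have h2 : 1 ≤ 3 ^ k := Nat.one_le_pow _ _ (by norm_num)
    rw [Nat.cast_add, Nat.cast_add, Nat.cast_mul, Nat.cast_sub h2] at h1
    push_cast at h1
    rw [hq3, hpN] at h1
    exact h1
  set δ : ℝ := (A.card : ℝ) / (Nat.card G : ℝ) with hδ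
  have hAδ : (A.card : ℝ) = (Nat.card G : ℝ) * δ := by
    rw [hδ, mul_div_cancel₀ _ hGpos.ne']
  have hδ0 : q / 3 - 1 + 2 * p + 6 * k / (N : ℝ) < q * δ := by
    rw [hAδ, hGR] at hbig
    have e1 : (6 * k / (N : ℝ)) * N = 6 * k := by field_simp
    have h1 : (q / 3 - 1 + 2 * p + 6 * k / (N : ℝ)) * N < (q * δ) * N := by
      rw [add_mul, e1]
      linarith
    exact lt_of_mul_lt_mul_right h1 hNR.le
  have hkN : 0 ≤ 6 * k / (N : ℝ) := by positivity
  have hδ1 : q / 3 - 1 + 2 * p < q * δ := by linarith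
  obtain ⟨A', F, hA'A, hFA, hA', hF, hAF⟩ := removal_sub G hodd A hA
  have hcardle : N ≤ Nat.card G := by
    rw [hN]
    exact Nat.le_mul_of_pos_left N (by positivity)
  have hFle : (F.card : ℝ) ≤ 1 / 10000000 * Nat.card G := hN0 G (hNN0.trans hcardle) F hF
  have hAFR : (A.card : ℝ) = A'.card + F.card := by exact_mod_cast hAF
  have hδ2 : δ ≤ 34 / 100 := by
    have h1 : 3 * A'.card ≤ Nat.card G := third hG A' 0 hA'
    rw [hδ, div_le_iff₀ hGpos]
    have : ((3 * A'.card : ℕ) : ℝ) ≤ (Nat.card G : ℝ) := by exact_mod_cast h1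
    push_cast at this
    rw [hAFR]
    linarith
  have hδ3 : 22 / 81 < δ := by
    have h1 : q * (1 / 3 - δ) < 5 / 9 := by linarith
    by_contra h
    rw [not_lt] at h
    have h2 : 9 * (1 / 3 - δ) ≤ q * (1 / 3 - δ) :=
      mul_le_mul_of_nonneg_right hq9 (by linarith)
    linarith
  set B : ℝ := δ ^ 2 / (1 - δ) - 1 / 40000 with hB
  have h1δ : 0 < 1 - δ := by linarith
  have hB0 : 0 ≤ B := by
    have h1 : δ ^ 2 ≤ δ ^ 2 / (1 - δ) := by
      rw [le_div_iff₀ h1δ]
      nlinarith
    rw [hB]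
    nlinarith
  -- the bound for every non-trivial character
  have key : ∀ ψ : AddChar G ℂ, ψ ≠ 0 → K (SG A ψ) ≤ (Nat.card G : ℝ) * B ∧
      K (SG A ψ * e9 6) ≤ (Nat.card G : ℝ) * B ∧ K (SG A ψ * e9 3) ≤ (Nat.card G : ℝ) * B := by
    intro ψ hψ0
    obtain ⟨r, φ, hφ, hψ⟩ := char_hom hG ψ hψ0
    have hrk := order_le φ hφ hexp
    have hker : (Nat.card G : ℝ) = 3 ^ (r + 1) * (Nat.card φ.ker : ℝ) := by
      rw [card_G φ hφ]; push_cast; rfl
    have hkpos := kerpos φ
    have hkerN : Nat.card φ.ker = 3 ^ (k - r) * N := by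
      have h1 := card_G φ hφ
      rw [hN] at h1
      have e : 3 ^ (k + 1) = 3 ^ (r + 1) * 3 ^ (k - r) := by
        rw [← pow_add]
        congr 1
        omega
      rw [e, mul_assoc] at h1
      exact (Nat.eq_of_mul_eq_mul_left (by positivity) h1).symm
    have hkerle : N ≤ Nat.card φ.ker := by
      rw [hkerN]
      exact Nat.le_mul_of_pos_left N (by positivity)
    have ht : ∑ j, af φ A j = 3 ^ (r + 1) * δ := by
      have h1 := sum_af φ A
      rw [hAδ, hker] at h1
      have h2 : (Nat.card φ.ker : ℝ) * ∑ j, af φ A j =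
        (Nat.card φ.ker : ℝ) * (3 ^ (r + 1) * δ) := by rw [← h1]; ring
      exact mul_left_cancel₀ hkpos.ne' h2
    have hlay := af_layerA hG φ hφ (by omega) hA
    -- it is enough to bound the normalised sums
    have fin : ∀ P : ℝ, P ≤ 1 / 2 → (∀ j, j + j + j = 0 → 0 < af φ A j) →
        (∀ j, j + j + j = 0 → af φ A j ≤ P) →
        (3 ^ r + Sq r) / 2 - 1 + 2 * P - (∑ j, af φ A j) / 2 ≤ 3 ^ (r + 1) * B →
        K (SG A ψ) ≤ (Nat.card G : ℝ) * B ∧
          K (SG A ψ * e9 6) ≤ (Nat.card G : ℝ) * B ∧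
          K (SG A ψ * e9 3) ≤ (Nat.card G : ℝ) * B := by
      intro P hP2 hpos hP hle
      have h2 : ∀ s : ZMod (3 ^ (r + 1)), s + s + s = 0 →
          K (SG A ψ * ZMod.stdAddChar s) ≤ (Nat.card G : ℝ) * B := by
        intro s hs
        have h3 := charBoundA φ hφ hA hP2 hpos hP hψ s hs
        have h4 := mul_le_mul_of_nonneg_left hle hkpos.le
        rw [hker]
        calc K (SG A ψ * ZMod.stdAddChar s) ≤ _ := h3
          _ ≤ _ := h4
          _ = _ := by ring
      refine ⟨?_, ?_, ?_⟩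
      · have := h2 0 (by simp)
        rwa [AddChar.map_zero_eq_one, mul_one] at this
      · rw [e9_6_eq r]
        exact h2 _ (bot3 (Or.inr (Or.inr rfl)))
      · rw [← std_cc r]
        exact h2 _ (cc3 r)
    have hb1 := cc3 r
    have hb2 : cc r + cc r + (cc r + cc r) + (cc r + cc r) = 0 := bot3 (Or.inr (Or.inr rfl))
    have posP : ∀ P : ℝ, (∀ j, j + j + j = 0 → af φ A j ≤ P) → 3 ^ r - 1 + 2 * P +
        6 * r / (Nat.card φ.ker : ℝ) <
        3 ^ (r + 1) * δ → ∀ j, j + j + j = 0 → 0 < af φ A j := by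
      intro P hP hlt j hj
      by_contra h0
      have h1 : af φ A j = 0 := le_antisymm (not_lt.1 h0) (af_nonneg φ A j)
      have g0 := hP 0 (by simp)
      have g1 := hP _ hb1
      have g2 := hP _ hb2
      rw [ht] at hlay
      rcases bot j hj with rfl | rfl | rfl <;> linarith
    rcases Nat.lt_or_ge r k with hlt | hge
    · -- smaller order
      set d' : ℝ := 3 ^ (k - r) with hd
      have hd3 : 3 ≤ d' := by
        rw [hd]
        calc (3 : ℝ) = 3 ^ 1 := by norm_num
          _ ≤ 3 ^ (k - r) := pow_le_pow_right₀ (by norm_num) (by omega)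
      have hqd : q = 3 ^ (r + 1) * d' := by
        rw [hq, hd, ← pow_add]
        congr 1
        omega
      have hQ3 : (3 : ℝ) ^ r = 3 ^ (r + 1) / 3 := by rw [pow_succ]; ring
      have hkerR : (Nat.card φ.ker : ℝ) = d' * N := by
        rw [hkerN, hd]; push_cast; rfl
      have hlow0 : 3 ^ r - 5 / 27 + 6 * k / (Nat.card φ.ker : ℝ) < 3 ^ (r + 1) * δ := by
        rw [hQ3]
        set Q : ℝ := 3 ^ (r + 1) with hQ
        rw [hqd] at hδ0
        have e1 : 6 * k / (N : ℝ) = d' * (6 * k / (Nat.card φ.ker : ℝ)) := by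
          rw [hkerR]
          field_simp
        rw [e1] at hδ0
        set w : ℝ := 6 * k / (Nat.card φ.ker : ℝ) with hw
        by_contra h
        rw [not_lt] at h
        have h1 : 5 / 27 ≤ Q * (1 / 3 - δ) + w := by linarith
        have h2 : d' * (5 / 27) ≤ d' * (Q * (1 / 3 - δ) + w) :=
          mul_le_mul_of_nonneg_left h1 (by linarith)
        have h3 : d' * (Q * (1 / 3 - δ) + w) < 5 / 9 := by
          have : d' * (Q * (1 / 3 - δ) + w) = Q * d' / 3 - Q * d' * δ + d' * w := by ring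
          rw [this]
          linarith
        linarith
      have hw0 : 6 * r / (Nat.card φ.ker : ℝ) ≤ 6 * k / (Nat.card φ.ker : ℝ) := by
        apply div_le_div_of_nonneg_right _ hkpos.le
        have : (r : ℝ) ≤ k := by exact_mod_cast hrk
        linarith
      have hw1 : 0 ≤ 6 * k / (Nat.card φ.ker : ℝ) := by positivity
      have hlow : 3 ^ r - 5 / 27 ≤ 3 ^ (r + 1) * δ := by linarith
      have hthird : ∀ j : ZMod (3 ^ (r + 1)), j + j + j = 0 → af φ A j ≤ 1 / 3 + 1 / 10000000 :=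
        fun j hj => af_thirdA hN0 hG φ hφ (hNN0.trans hkerle) hA hj
      apply fin (1 / 3 + 1 / 10000000) (by norm_num)
      · apply posP (1 / 3 + 1 / 10000000) hthird
        linarith
      · exact hthird
      · rw [ht, hB]
        apply num_smallA
        · rintro rfl
          norm_num at hlow
          linarith
        · rintro rfl
          norm_num at hlow
          linarith
        · intro hr2
          have hQ27 : (27 : ℝ) ≤ 3 ^ (r + 1) := by
            calc (27 : ℝ) = 3 ^ 3 := by norm_num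
              _ ≤ 3 ^ (r + 1) := pow_le_pow_right₀ (by norm_num) (by omega)
          rw [hQ3] at hlow
          by_contra h
          rw [not_le] at h
          nlinarith
        · exact hδ2
        · linarith
    · -- full order
      have hrk' : r = k := le_antisymm hrk hge
      subst hrk'
      have hNk : (N : ℝ) = (Nat.card φ.ker : ℝ) := by
        rw [hGR, ← hq] at hker
        exact mul_left_cancel₀ (by positivity) hker
      have hMφ := hM φ.ker ⟨φ, hφ, rfl⟩
      have hP : ∀ j, j + j + j = 0 → af φ A j ≤ p := by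
        intro j hj
        have h1 := bottom_fullA φ hφ hexp hA hMφ hj
        unfold af
        rw [div_le_iff₀ hkpos, ← hNk, ← hpN]
        exact_mod_cast h1
      have hpos : ∀ j, j + j + j = 0 → 0 < af φ A j := by
        apply posP p hP
        rw [hq3, ← hq, ← hNk]
        exact hδ0
      rcases Nat.lt_or_ge r 2 with hr1 | hr2
      · -- exponent nine
        have hr : r = 1 := by omega
        subst hr
        have e39 : 3 ^ (1 + 1) = 9 := rfl
        set ρ := ZMod.ringEquivCongr e39 with hρ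
        set φ9 : G →+ ZMod 9 := (ρ.toAddMonoidHom : ZMod (3 ^ (1 + 1)) →+ ZMod 9).comp φ with hφ9
        have hφ9s : Function.Surjective φ9 := ρ.surjective.comp hφ
        have hker9 : φ9.ker = φ.ker := by
          ext x
          rw [AddMonoidHom.mem_ker, AddMonoidHom.mem_ker]
          change ρ (φ x) = 0 ↔ φ x = 0
          exact map_eq_zero_iff ρ ρ.injective
        have hψ9 : ∀ x, ψ x = e9 (φ9 x) := by
          intro x
          rw [hψ x]
          exact (std_congr e39 (φ x)).symm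
        have h9 : ∀ x : G, 9 • x = 0 := hexp
        obtain ⟨m', hm'⟩ := sub_pow hG φ9.ker
        have hc9 : (Nat.card φ9.ker : ℝ) = (Nat.card φ.ker : ℝ) := by rw [hker9]
        have hG9 : (Nat.card G : ℝ) = 9 * (Nat.card φ9.ker : ℝ) := by
          rw [hc9, hker]; norm_num
        have hle9 : (A.card : ℝ) ≤ A'.card + (Nat.card φ9.ker : ℝ) * (1 / 1000000) := by
          rw [hAFR]
          rw [hG9] at hFle
          have : (0 : ℝ) < (Nat.card φ9.ker : ℝ) := by rw [hc9]; exact hkpos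
          linarith
        have hne9 : ∀ j : ZMod 9, j + j + j = 0 → ∃ x ∈ A, φ9 x = j := by
          intro j hj
          have h1 := hpos (ρ.symm j) (by rw [← map_add, ← map_add, hj, map_zero])
          have h2 := (af_pos φ).1 h1
          unfold nf at h2
          obtain ⟨x, hx⟩ := Finset.card_pos.1 h2
          rw [Finset.mem_filter] at hx
          refine ⟨x, hx.1, ?_⟩
          change ρ (φ x) = j
          rw [hx.2, RingEquiv.apply_symm_apply]
        have hres : ∀ s : ZMod 9, s + s + s = 0 →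
            K (SG A ψ * e9 (-s)) ≤ (Nat.card G : ℝ) * B := by
          intro s hs
          have h1 := nineStepA φ9 hm' hφ9s h9 hA hA'A hA' hle9 hp1
            (by have := hp3 rfl; linarith) ?_ hne9 (t := 9 * δ) ?_ ?_ hψ9 s hs
          · apply h1.trans
            rw [hG9, mul_comm 9 (Nat.card φ9.ker : ℝ), mul_assoc]
            apply mul_le_mul_of_nonneg_left _ (by positivity)
            rw [hB]
            have h2 : 24 / 25 * δ - 4 / 25 ≤ δ ^ 2 / (1 - δ) := by
              rw [le_div_iff₀ h1δ]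
              nlinarith [sq_nonneg (7 * δ - 2)]
            linarith
          · intro D hD
            have h2 := hM φ9.ker ⟨φ, hφ, hker9.symm⟩ D hD
            have h3 : (D.card : ℝ) ≤ (d : ℝ) := by exact_mod_cast h2
            rw [hpN, hNk, ← hc9] at h3
            exact h3
          · rw [hAδ, hG9]; ring
          · have hq' : q = 9 := by rw [hq]; norm_num
            rw [hq'] at hδ1
            linarith
        refine ⟨?_, ?_, ?_⟩
        · have := hres 0 (by decide)
          rwa [neg_zero, AddChar.map_zero_eq_one, mul_one] at this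
        · have := hres 3 (by decide)
          rwa [show (-3 : ZMod 9) = 6 from rfl] at this
        · have := hres 6 (by decide)
          rwa [show (-6 : ZMod 9) = 3 from rfl] at this
      · apply fin p (by linarith) hpos hP
        rw [ht, hB]
        apply num_fullA hr2
        · have hQ27 : (27 : ℝ) ≤ q := by
            rw [hq]
            calc (27 : ℝ) = 3 ^ 3 := by norm_num
              _ ≤ 3 ^ (r + 1) := pow_le_pow_right₀ (by norm_num) (by omega)
          by_contra h
          rw [not_le] at h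
          nlinarith
        · exact hδ2
        · rw [← hq, hq3]
          linarith
  have hF := fourierA hodd A hA ((Nat.card G : ℝ) * B) (mul_nonneg hGpos.le hB0) key
  rw [← Nat.card_eq_fintype_card, hAδ] at hF
  have hg200 : (200000 : ℝ) ≤ (Nat.card G : ℝ) := by exact_mod_cast hN2.trans hcardle
  set g : ℝ := (Nat.card G : ℝ) with hg
  have h5 : (g ^ 2 * δ) * (g * δ ^ 2) ≤ (g ^ 2 * δ) * (3 + g * (B * (1 - δ))) := by
    have e1 : (g * δ) ^ 3 = (g ^ 2 * δ) * (g * δ ^ 2) := by ring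
    have e2 : 3 * g * (g * δ) + g * B * (g * (g * δ) - (g * δ) ^ 2) =
      (g ^ 2 * δ) * (3 + g * (B * (1 - δ))) := by ring
    rw [← e1, ← e2]
    exact hF
  have hgd : 0 < g ^ 2 * δ := mul_pos (pow_pos hGpos 2) (by linarith)
  have h6 := le_of_mul_le_mul_left h5 hgd
  have h7 : B * (1 - δ) = δ ^ 2 - 1 / 40000 * (1 - δ) := by
    rw [hB]
    field_simp
  rw [h7] at h6
  nlinarith

end Pool.Agent.N9
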