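import Pool.Agent.N9.KI
import Pool.Agent.N9.G12
import Pool.Agent.DG.Rank2

set_option autoImplicit false

/-! # Invariants and the elements of order three -/

namespace Pool.Agent.N9
open Finset Pool.Agent.DG

universe u

/-- The number of entries which are at least two. -/
def bg : List ℕ → ℕ
  | [] => 0
  | k :: L => bg L + (if 2 ≤ k then 1 else 0)

theorem bg_cons (k : ℕ) (L : List ℕ) : bg (k :: L) = bg L + (if 2 ≤ k then 1 else 0) := rfl

theorem bg_zero (L : List ℕ) (h : bg L = 0) : ∀ j ∈ L, j ≤ 1 := by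
  induction L with
  | nil => intro j hj; exact absurd hj (by simp)
  | cons k L ih =>
    rw [bg_cons] at h
    intro j hj
    rcases List.mem_cons.1 hj with rfl | hj
    · by_contra hcon
      rw [if_pos (by omega)] at h
      omega
    · exact ih (by omega) j hj

theorem bg_of_le (L : List ℕ) (h : ∀ j ∈ L, j ≤ 1) : bg L = 0 := by
  induction L with
  | nil => rfl
  | cons k L ih =>
    rw [bg_cons, ih (fun j hj => h j (List.mem_cons_of_mem _ hj)), if_neg]
    have := h k List.mem_cons_self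
    omega

theorem sz_pow (L : List ℕ) : ∃ m, sz L = 3 ^ m := by
  induction L with
  | nil => exact ⟨0, rfl⟩
  | cons k L ih =>
    obtain ⟨m, hm⟩ := ih
    exact ⟨k + m, by rw [sz_cons, hm, pow_add]⟩

theorem sz_one (L : List ℕ) (h1 : ∀ k ∈ L, 1 ≤ k) (h : ∀ j ∈ L, j ≤ 1) : sz L = 3 ^ L.length := by
  induction L with
  | nil => rfl
  | cons k L ih =>
    have h2 := h1 k List.mem_cons_self
    have h3 := h k List.mem_cons_self
    have h4 : k = 1 := le_antisymm h3 h2
    rw [sz_cons, ih (fun j hj => h1 j (List.mem_cons_of_mem _ hj))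
      (fun j hj => h j (List.mem_cons_of_mem _ hj)), h4, List.length_cons, pow_succ]
    ring

theorem card_Om_list {G : Type*} [AddCommGroup G] [Finite G] {L : List ℕ}
    (hL1 : ∀ k ∈ L, 1 ≤ k) (hI : Inv G L) : Nat.card (Om G) = 3 ^ L.length := by
  have h1 : Nat.card (Om G) = tors G 1 := by
    unfold tors
    apply Nat.card_congr
    refine Equiv.subtypeEquivRight ?_
    intro x
    change x + x + x = 0 ↔ 3 ^ 1 • x = 0
    rw [pow_one, succ_nsmul, two_nsmul]
  rw [h1, hI.1 1]
  have h2 : L.map (fun k => tors (ZMod (3 ^ k)) 1) = L.map (fun _ => 3) := by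
    apply List.map_congr_left
    intro k hk
    exact tors_one_eq (hL1 k hk)
  rw [h2, List.map_const', List.prod_replicate]

theorem adm_om_le {G : Type*} [AddCommGroup G] [Finite G] {n : ℕ}
    (h : Nat.card (Om G) = 3 ^ n) {R : ℕ}
    (hR : ∀ W : Finset (Fin n → ZMod 3), ThreeAPFree (W : Set (Fin n → ZMod 3)) → W.card ≤ R)
    (A : Finset G) (hA : Adm A) (hA3 : ∀ x ∈ A, x + x + x = 0) : A.card ≤ R := by
  obtain ⟨e⟩ := om_equiv h
  obtain ⟨W, hW, hc⟩ := tr (Om G) A 0 (fun x hx => by
    rw [sub_zero]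
    exact hA3 x hx)
  rw [← hc]
  have hW' : ThreeAPFree (W : Set (Om G)) := by
    intro a ha b hb c hc' habc
    have ha1 := hW a (Finset.mem_coe.1 ha)
    have hb1 := hW b (Finset.mem_coe.1 hb)
    have hc1 := hW c (Finset.mem_coe.1 hc')
    rw [add_zero] at ha1 hb1 hc1
    have h0 : (a : G) + c = b + b := congrArg (fun v : Om G => (v : G)) habc
    by_contra hne
    have hneG : (a : G) ≠ b := fun h => hne (Subtype.ext h)
    apply hA _ ha1 _ hb1 _ hc1 hneG
    · intro hac
      apply hneG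
      rw [← hac] at h0
      have h3 : (a : G) + a + a = b + b + b := by
        rw [hA3 _ ha1, hA3 _ hb1]
      rw [h0] at h3
      exact add_left_cancel h3
    · intro hbc
      apply hneG
      rw [← hbc] at h0
      exact add_right_cancel h0
    · have e1 : (a : G) + b + c = (a + c) + b := by abel
      rw [e1, h0]
      exact hA3 _ hb1
  obtain ⟨W', hW'', hWc⟩ := ap_transport e W hW'
  rw [← hWc]
  exact hR W' hW''

theorem inv_exp {G : Type*} [AddCommGroup G] [Finite G] {k : ℕ} {L : List ℕ}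
    (hI : Inv G (k :: L)) (hkL : ∀ j ∈ L, j ≤ k) : ∀ x : G, 3 ^ k • x = 0 := by
  obtain ⟨hT, hc⟩ := hI
  have h1 := hT k
  have h2 : ((k :: L).map (fun j => tors (ZMod (3 ^ j)) k)).prod = sz (k :: L) := by
    unfold sz
    congr 1
    apply List.map_congr_left
    intro j hj
    apply tors_full
    rcases List.mem_cons.1 hj with rfl | h
    · exact le_rfl
    · exact hkL j h
  rw [h2, ← hc] at h1
  unfold tors at h1
  intro x
  by_contra hx
  have hlt : Nat.card {x : G // 3 ^ k • x = 0} < Nat.card G := by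
    exact Finite.card_subtype_lt (p := fun x : G => 3 ^ k • x = 0) (x := x) hx
  omega

theorem tors_le (G : Type*) [AddCommGroup G] [Finite G] (i : ℕ) : tors G i ≤ Nat.card G := by
  unfold tors
  exact Finite.card_subtype_le _

theorem tors_lt (κ : ℕ) : tors (ZMod (3 ^ (κ + 1))) κ < 3 ^ (κ + 1) := by
  have h : ¬ (3 ^ κ • (1 : ZMod (3 ^ (κ + 1))) = 0) := by
    intro h
    rw [nsmul_eq_mul, mul_one, ZMod.natCast_eq_zero_iff] at h
    have := (Nat.pow_dvd_pow_iff_le_right (by norm_num : 1 < 3)).1 h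
    omega
  have h1 := Finite.card_subtype_lt (p := fun x : ZMod (3 ^ (κ + 1)) => 3 ^ κ • x = 0) (x := 1) h
  rw [Nat.card_zmod] at h1
  exact h1

theorem prod_tors_le (L : List ℕ) (i : ℕ) :
    (L.map (fun j => tors (ZMod (3 ^ j)) i)).prod ≤ sz L := by
  induction L with
  | nil => exact le_refl _
  | cons k L ih =>
    rw [List.map_cons, List.prod_cons, sz_cons]
    apply Nat.mul_le_mul _ ih
    have := tors_le (ZMod (3 ^ k)) i
    rwa [Nat.card_zmod] at this

theorem inv_full {G : Type*} [AddCommGroup G] [Finite G] {κ : ℕ} {L : List ℕ}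
    (hI : Inv G ((κ + 1) :: L)) : ∃ x : G, 3 ^ κ • x ≠ 0 := by
  by_contra hcon
  push Not at hcon
  have h1 : tors G κ = Nat.card G := by
    unfold tors
    exact Nat.card_congr (Equiv.subtypeUnivEquiv hcon)
  rw [hI.1 κ, hI.2, List.map_cons, List.prod_cons, sz_cons] at h1
  have h2 := Nat.mul_le_mul_left (tors (ZMod (3 ^ (κ + 1))) κ) (prod_tors_le L κ)
  have h3 := Nat.mul_lt_mul_of_pos_right (tors_lt κ) (sz_pos L)
  omega

theorem inv_ker {G : Type*} [AddCommGroup G] [Finite G] {κ : ℕ} {L : List ℕ}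
    (hI : Inv G ((κ + 1) :: L)) (hexp : ∀ x : G, 3 ^ (κ + 1) • x = 0)
    (φ : G →+ ZMod (3 ^ (κ + 1))) (hφ : Function.Surjective φ) : Inv φ.ker L := by
  obtain ⟨e⟩ := split φ hφ hexp
  obtain ⟨hT, hc⟩ := hI
  constructor
  · intro i
    have h1 := tors_congr e i
    rw [tors_prod, hT i, List.map_cons, List.prod_cons] at h1
    exact (Nat.eq_of_mul_eq_mul_left (tors_pos _ _) h1).symm
  · have h1 := Nat.card_congr e.toEquiv
    rw [Nat.card_prod, Nat.card_zmod, hc, sz_cons] at h1
    exact (Nat.eq_of_mul_eq_mul_left (by positivity) h1).symm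

end Pool.Agent.N9
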