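import Pool.Agent.N9.KJ

set_option autoImplicit false

/-! # The upper bound for admissible sets in finite abelian 3-groups -/

namespace Pool.Agent.N9
open Finset Pool.Agent.DG

universe u

section
variable {G : Type u} [AddCommGroup G] [Fintype G]

/-- The layer bound in the form used for the induction. -/
theorem layer_form {m : ℕ} (hG : Nat.card G = 3 ^ m) {κ : ℕ} (φ : G →+ ZMod (3 ^ (κ + 1)))
    (hφ : Function.Surjective φ) {N : ℕ} (hN : Nat.card φ.ker = N) (hN2 : 2 ≤ N)
    {A : Finset G} (hA : Adm A) {S : ℕ} (hS : (cut A (lay φ 0)).card ≤ S) :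
    A.card ≤ (3 ^ κ - 1) * N + S + 6 * κ := by
  obtain ⟨u, hu0, hu3, huk⟩ := ker_three hG φ (by omega)
  have h1 := nf_layerA φ hG hφ hu0 hu3 huk hA
  rw [card_G φ hφ, hN, ← cut_lay] at h1
  obtain ⟨w, hw⟩ : ∃ w, 3 ^ κ = w + 1 := ⟨3 ^ κ - 1, by
    have : 1 ≤ 3 ^ κ := Nat.one_le_pow _ _ (by norm_num)
    omega⟩
  generalize (cut A (lay φ 0)).card = c at h1 hS
  rw [pow_succ, hw] at h1
  rw [hw, Nat.add_sub_cancel]
  have e : (w + 1) * 3 * N = 3 * (w * N) + 3 * N := by ring
  rw [e] at h1
  omega

theorem cut_lay_le {κ : ℕ} (φ : G →+ ZMod (3 ^ (κ + 1))) (hφ : Function.Surjective φ)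
    (A : Finset G) : (cut A (lay φ 0)).card ≤ 3 * Nat.card φ.ker := by
  classical
  have h1 : (cut A (lay φ 0)).card ≤ (cut (univ : Finset G) (lay φ 0)).card := by
    apply Finset.card_le_card
    intro x hx
    rw [mem_cut] at hx ⊢
    exact ⟨Finset.mem_univ _, hx.2⟩
  refine h1.trans ?_
  rw [cut_lay, nf_univ φ hφ, nf_univ φ hφ, nf_univ φ hφ]
  omega

theorem cut_om {κ : ℕ} {L : List ℕ} (hL1 : ∀ k ∈ L, 1 ≤ k) (hL2 : ∀ k ∈ L, k ≤ 1)
    (hI : Inv G ((κ + 1) :: L)) (φ : G →+ ZMod (3 ^ (κ + 1)))
    (hφ : Function.Surjective φ) (hN : Nat.card φ.ker = sz L) {A : Finset G} (hA : Adm A)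
    {R : ℕ} (hR : ∀ W : Finset (Fin (L.length + 1) → ZMod 3),
      ThreeAPFree (W : Set (Fin (L.length + 1) → ZMod 3)) → W.card ≤ R) :
    (cut A (lay φ 0)).card ≤ R := by
  classical
  have h1 : Nat.card (Om G) = 3 ^ (L.length + 1) := by
    have := card_Om_list (G := G) (L := (κ + 1) :: L) (by
      intro k hk
      rcases List.mem_cons.1 hk with rfl | hk
      · omega
      · exact hL1 k hk) hI
    rwa [List.length_cons] at this
  have h2 : Nat.card (lay φ 0) = 3 ^ (L.length + 1) := by
    rw [← card_cut_univ, cut_lay, nf_univ φ hφ, nf_univ φ hφ, nf_univ φ hφ, hN,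
      sz_one L hL1 hL2, pow_succ]
    ring
  have hle : Om G ≤ lay φ 0 := by
    intro x hx
    rw [mem_lay, smul3, ← map_add, ← map_add, mem_Om.1 hx, map_zero]
  have heq : Om G = lay φ 0 := by
    apply AddSubgroup.eq_of_le_of_card_ge hle
    rw [h1, h2]
  apply adm_om_le h1 hR _ (Adm_mono (fun x hx => (mem_cut.1 hx).1) hA)
  intro x hx
  have h3 := (mem_cut.1 hx).2
  rw [← heq] at h3
  exact mem_Om.1 h3

end

theorem mainListA : ∃ C : ℕ, ∀ (R : ℕ → ℕ), (∀ n, ∀ W : Finset (Fin n → ZMod 3),
    ThreeAPFree (W : Set (Fin n → ZMod 3)) → W.card ≤ R n) →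
    ∀ (K : ℕ) (L : List ℕ), (∀ k ∈ L, 1 ≤ k) → (∀ k ∈ L, k ≤ K + 1) →
    L.Pairwise (fun a b => b ≤ a) →
    ∀ (G : Type u) [AddCommGroup G] [Finite G], Inv G L → ∀ A : Finset G, Adm A →
      (bg L = 0 → A.card ≤ R L.length) ∧
      (∀ s, bg L = s + 1 → A.card + 6 * K ≤ F L + 2 ^ s * R (L.length - s) +
        2 ^ (s + 1) * (6 * K + C)) := by
  classical
  obtain ⟨C1, hC1, hstep⟩ := mainStepA.{u}
  obtain ⟨N0, hN0⟩ := exists_Big.{u} (1 / 10000000) (by norm_num)
  set M := max C1 N0 with hM
  refine ⟨3 * M + 2, ?_⟩
  intro R hR K L
  induction L with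
  | nil =>
    intro hL1 hL2 _ G _ _ hI A hA
    refine ⟨?_, ?_⟩
    · intro _
      have h1 := card_Om_list (G := G) (L := []) (by simp) hI
      apply adm_om_le h1 (hR _) A hA
      intro x _
      have h2 : Nat.card G = 1 := hI.2
      have h3 : Subsingleton G := (Nat.card_eq_one_iff_unique.1 h2).1
      exact Subsingleton.elim _ _
    · intro s hs
      exact absurd hs (by
        change ¬ (0 = s + 1)
        omega)
  | cons k L ih =>
    intro hL1 hL2 hsort G _ _ hI A hA
    have hft : Fintype G := Fintype.ofFinite G
    have hk1 := hL1 k List.mem_cons_self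
    have hkK := hL2 k List.mem_cons_self
    have hL1' : ∀ j ∈ L, 1 ≤ j := fun j hj => hL1 j (List.mem_cons_of_mem _ hj)
    have hL2' : ∀ j ∈ L, j ≤ K + 1 := fun j hj => hL2 j (List.mem_cons_of_mem _ hj)
    have hsort0 := hsort
    rw [List.pairwise_cons] at hsort
    obtain ⟨hkL, hsort'⟩ := hsort
    obtain ⟨m, hm⟩ := sz_pow (k :: L)
    have hG : Nat.card G = 3 ^ m := hI.2.trans hm
    have hexp := inv_exp hI hkL
    refine ⟨?_, ?_⟩
    · intro hb
      have hall := bg_zero _ hb
      have hk : k = 1 := le_antisymm (hall k List.mem_cons_self) hk1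
      apply adm_om_le (card_Om_list hL1 hI) (hR _) A hA
      intro x _
      have := hexp x
      rw [hk, pow_one, succ_nsmul, two_nsmul] at this
      exact this
    · intro s hs
      have hk2 : 2 ≤ k := by
        by_contra hk2
        have h1 : bg (k :: L) = 0 := by
          apply bg_of_le
          intro j hj
          rcases List.mem_cons.1 hj with rfl | hj
          · omega
          · have := hkL j hj
            omega
        omega
      rw [bg_cons, if_pos hk2] at hs
      have hs' : bg L = s := by omega
      obtain ⟨κ, rfl⟩ : ∃ κ, k = κ + 1 := ⟨k - 1, by omega⟩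
      have hκ1 : 1 ≤ κ := by omega
      have hκK : κ ≤ K := by omega
      rw [F_cons, Nat.add_sub_cancel]
      have hc : Nat.card G = 3 ^ (κ + 1) * sz L := by rw [hI.2, sz_cons]
      obtain ⟨x, hx⟩ := inv_full hI
      obtain ⟨φ, hφ⟩ := exists_full hG hexp hx
      have hIk := inv_ker hI hexp φ hφ
      have h2s : 1 ≤ 2 ^ s := Nat.one_le_pow _ _ (by norm_num)
      have h2s' : 2 ^ (s + 1) = 2 * 2 ^ s := by rw [pow_succ]; ring
      -- a lower bound for the last term
      have hlast : 2 * (6 * K + (3 * M + 2)) ≤ 2 ^ (s + 1) * (6 * K + (3 * M + 2)) := by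
        rw [h2s']
        apply Nat.mul_le_mul_right
        omega
      rcases List.eq_nil_or_concat L with hL0 | hL0
      · -- cyclic groups
        subst hL0
        have hs0 : s = 0 := by rw [← hs']; rfl
        have h1 : Nat.card (tor3 G) ≤ 9 := by
          have h2 := card_Om_list hL1 hI
          have h3 : Nat.card (tor3 G) = Nat.card (Om G) := by
            apply Nat.card_congr
            refine Equiv.subtypeEquivRight ?_
            intro x
            rw [mem_tor3, mem_Om]
          rw [h3, h2]
          norm_num
        have h4 := rank2_up (κ + 1) G (by omega) (by rw [hc]; exact mul_one _) h1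
        have h5 := card_le_D hA
        have h6 : Nat.card G = 3 * 3 ^ κ := by
          rw [hc, pow_succ]
          change 3 ^ κ * 3 * 1 = _
          ring
        have h7 : 1 ≤ 3 ^ κ := Nat.one_le_pow _ _ (by norm_num)
        change A.card + 6 * K ≤ (3 ^ κ - 1) * 1 + 2 * 0 + _ + _
        omega
      · have hN2 : 2 ≤ sz L := by
          obtain ⟨L0, b, rfl⟩ := hL0
          have hb := hL1' b (by simp)
          have h1 : sz (L0 ++ [b]) = sz L0 * 3 ^ b := by
            unfold sz
            rw [List.map_append, List.prod_append]
            simp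
          have h2 := sz_pos L0
          have h3 : 3 ^ 1 ≤ 3 ^ b := Nat.pow_le_pow_right (by norm_num) hb
          rw [List.concat_eq_append] at *
          rw [h1]
          nlinarith
        have hIk2 := hIk.2
        rcases Nat.eq_zero_or_pos s with hs0 | hspos
        · -- the tail is elementary
          subst hs0
          have hall := bg_zero _ hs'
          have h1 := layer_form hG φ hφ hIk2 hN2 hA
            (cut_om hL1' hall hI φ hφ hIk2 hA (hR (L.length + 1)))
          rw [F_zero L hall]
          rw [List.length_cons, Nat.sub_zero, pow_zero, one_mul]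
          omega
        · obtain ⟨s', rfl⟩ : ∃ s', s = s' + 1 := ⟨s - 1, by omega⟩
          rcases Nat.lt_or_ge (sz L) M with hlt | hge
          · -- the tail is small
            have h1 := layer_form hG φ hφ hIk2 hN2 hA (cut_lay_le φ hφ A)
            rw [hIk2] at h1
            have h2 : 0 ≤ 2 ^ (s' + 1) * R (((κ + 1) :: L).length - (s' + 1)) := Nat.zero_le _
            omega
          · -- the main case
            have hihL := ih hL1' hL2' hsort'
            set e0 := F L + 2 ^ s' * R (L.length - s') + 2 ^ (s' + 1) * (6 * K + (3 * M + 2)) with he0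
            have h6K : 6 * K ≤ 2 ^ (s' + 1) * (6 * K + (3 * M + 2)) := by
              have : 1 ≤ 2 ^ (s' + 1) := Nat.one_le_pow _ _ (by norm_num)
              nlinarith
            obtain ⟨e1, he1⟩ : ∃ e1, e0 = F L + e1 + 6 * K := ⟨e0 - F L - 6 * K, by omega⟩
            set fl := ⌊(1 / 10000000 : ℝ) * (sz L : ℝ)⌋₊ with hfl
            have hflR : (fl : ℝ) ≤ (1 / 10000000 : ℝ) * (sz L : ℝ) :=
              Nat.floor_le (by positivity)
            set d := F L + min e1 fl with hd
            have hd1 : d ≤ F L + e1 := by
              rw [hd]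
              exact Nat.add_le_add_left (min_le_left _ _) _
            have hd2 : d ≤ F L + fl := by
              rw [hd]
              exact Nat.add_le_add_left (min_le_right _ _) _
            have hdR : (d : ℝ) ≤ (F L : ℝ) + (1 / 10000000 : ℝ) * (sz L : ℝ) := by
              have : (d : ℝ) ≤ ((F L + fl : ℕ) : ℝ) := by exact_mod_cast hd2
              push_cast at this
              linarith
            have hFL : 3 * (F L : ℝ) ≤ sz L := by exact_mod_cast F_le L hL1'
            have hmain := hstep G m hG κ hκ1 hexp (sz L) d hc ((le_max_left _ _).trans hge) ?_ ?_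
              ?_ ?_ A hA
            · have e2 : 2 * d ≤ 2 * F L + 2 * e1 := by omega
              have e3 : ((κ + 1) :: L).length - (s' + 1) = L.length - s' := by
                rw [List.length_cons]
                omega
              rw [e3]
              have e4 : 2 ^ (s' + 1) * R (L.length - s') = 2 * (2 ^ s' * R (L.length - s')) := by
                rw [pow_succ]; ring
              have e5 : 2 ^ (s' + 1 + 1) * (6 * K + (3 * M + 2)) =
                2 * (2 ^ (s' + 1) * (6 * K + (3 * M + 2))) := by
                rw [pow_succ 2 (s' + 1)]; ring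
              rw [e4, e5]
              omega
            · -- the head of the tail is at least two
              have h1 : 2 * sz L ≤ 9 * F L := by
                cases L with
                | nil => exact absurd hs' (by
                    change ¬ (0 = s' + 1)
                    omega)
                | cons k' L' =>
                  apply F_big
                  rw [List.pairwise_cons] at hsort'
                  by_contra hcon
                  have h1 : bg (k' :: L') = 0 := by
                    apply bg_of_le
                    intro j hj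
                    rcases List.mem_cons.1 hj with rfl | hj
                    · omega
                    · have := hsort'.1 j hj
                      omega
                  omega
              omega
            · linarith
            · intro hκ
              have h1 : 7 * F L ≤ 2 * sz L := by
                apply F_nine L hL1'
                intro j hj
                have := hkL j hj
                omega
              have h2 : 7 * (F L : ℝ) ≤ 2 * sz L := by exact_mod_cast h1
              linarith
            · rintro H ⟨φ', hφ', rfl⟩ B hB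
              have hIk' := inv_ker hI hexp φ' hφ'
              have h1 := (hihL φ'.ker hIk' B hB).2 s' hs'
              have h2 : B.card ≤ F L + e1 := by omega
              have h3 : B.card ≤ F L + fl := by
                obtain ⟨m', hm'⟩ := sub_pow hG φ'.ker
                have hodd : Nat.card φ'.ker % 2 = 1 := by
                  rw [hm']
                  exact Nat.odd_iff.1 (Odd.pow (by decide))
                obtain ⟨B', F', _, _, hB', hF', hBF⟩ := removal_sub φ'.ker hodd B hB
                have h4 := main_list L hL1' hsort' φ'.ker hIk' B' hB'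
                have h5 : (F'.card : ℝ) ≤ 1 / 10000000 * Nat.card φ'.ker := by
                  apply hN0 φ'.ker _ F' hF'
                  rw [hIk'.2]
                  exact (le_max_right _ _).trans hge
                rw [hIk'.2] at h5
                have h6 : F'.card ≤ fl := Nat.le_floor h5
                omega
              rw [hd]
              rcases min_cases e1 fl with ⟨h4, _⟩ | ⟨h4, _⟩ <;> omega

end Pool.Agent.N9
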