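import Pool.Agent.N9.KK

set_option autoImplicit false

/-! # The upper bound for groups given by their invariants -/

namespace Pool.Agent.N9
open Finset Pool.Agent.DG

universe u

theorem bg_ofFn : ∀ (n : ℕ) (k : Fin n → ℕ), bg (List.ofFn k) = ns k := by
  intro n
  induction n with
  | zero =>
    intro k
    rfl
  | succ n ih =>
    intro k
    rw [List.ofFn_succ, bg_cons, ih]
    unfold ns
    rw [Fin.card_filter_univ_succ]
    split_ifs <;> rfl

theorem upper_adm : ∃ C : ℕ, ∀ (R : ℕ → ℕ), (∀ n, ∀ W : Finset (Fin n → ZMod 3),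
    ThreeAPFree (W : Set (Fin n → ZMod 3)) → W.card ≤ R n) →
    ∀ (G : Type u) [AddCommGroup G] [Finite G] (n : ℕ) (k : Fin n → ℕ), Antitone k →
    (∀ i, 1 ≤ k i) → Nonempty (G ≃+ ((i : Fin n) → ZMod (3 ^ k i))) →
    ∀ A : Finset G, Adm A →
      (ns k = 0 → A.card ≤ R n) ∧
      (∀ s K, ns k = s + 1 → (∀ i, k i ≤ K + 1) →
        A.card + 6 * K ≤ val k + 2 ^ s * R (n - s) + 2 ^ (s + 1) * (6 * K + C)) := by
  obtain ⟨C, hC⟩ := mainListA.{u}
  refine ⟨C, ?_⟩
  rintro R hR G _ _ n k hk hk1 ⟨e⟩ A hA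
  have hI := inv_congr e (inv_pi k)
  have h1 : ∀ a ∈ List.ofFn k, 1 ≤ a := by
    intro a ha
    rw [List.mem_ofFn] at ha
    obtain ⟨i, rfl⟩ := ha
    exact hk1 i
  have h2 : (List.ofFn k).Pairwise (fun a b => b ≤ a) := by
    rw [List.pairwise_ofFn]
    intro i j hij
    exact hk hij.le
  have hlen : (List.ofFn k).length = n := List.length_ofFn
  constructor
  · intro hs
    have h3 : ∀ a ∈ List.ofFn k, a ≤ 0 + 1 := bg_zero _ ((bg_ofFn n k).trans hs)
    have h4 := (hC R hR 0 (List.ofFn k) h1 h3 h2 G hI A hA).1 ((bg_ofFn n k).trans hs)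
    rwa [hlen] at h4
  · intro s K hs hK
    have h3 : ∀ a ∈ List.ofFn k, a ≤ K + 1 := by
      intro a ha
      rw [List.mem_ofFn] at ha
      obtain ⟨i, rfl⟩ := ha
      exact hK i
    have h4 := (hC R hR K (List.ofFn k) h1 h3 h2 G hI A hA).2 s ((bg_ofFn n k).trans hs)
    rw [hlen, ← val_eq] at h4
    exact h4

end Pool.Agent.N9
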