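import Pool.Agent.N9.Fam2

set_option autoImplicit false

/-! # The weights -/

namespace Pool.Agent.N9
open Finset Real

/-- The real part of `exp (-π i / 3) z`. -/
noncomputable def K (z : ℂ) : ℝ := z.re / 2 + √3 / 2 * z.im

theorem K_add (z w : ℂ) : K (z + w) = K z + K w := by
  unfold K
  rw [Complex.add_re, Complex.add_im]
  ring

theorem K_zero : K 0 = 0 := by
  unfold K
  simp

theorem K_sum {ι : Type*} (s : Finset ι) (f : ι → ℂ) : K (∑ i ∈ s, f i) = ∑ i ∈ s, K (f i) := by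
  classical
  induction s using Finset.induction_on with
  | empty => simp [K_zero]
  | insert a s ha ih => rw [Finset.sum_insert ha, Finset.sum_insert ha, K_add, ih]

theorem K_mul_real (z : ℂ) (r : ℝ) : K ((r : ℂ) * z) = r * K z := by
  unfold K
  simp
  ring

/-- The standard character of `ZMod 9`. -/
noncomputable abbrev e9 : AddChar (ZMod 9) ℂ := ZMod.stdAddChar

theorem e9_nat (j : ℕ) : e9 ((j : ℕ) : ZMod 9) =
    Complex.exp (((2 * π * j / 9 : ℝ) : ℂ) * Complex.I) := by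
  have h := ZMod.stdAddChar_coe (N := 9) (j : ℤ)
  have h2 : (((j : ℤ)) : ZMod 9) = ((j : ℕ) : ZMod 9) := by push_cast; rfl
  rw [h2] at h
  rw [show e9 ((j : ℕ) : ZMod 9) = ZMod.stdAddChar ((j : ℕ) : ZMod 9) from rfl, h]
  congr 1
  push_cast
  ring

theorem e9_re (j : ℕ) : (e9 ((j : ℕ) : ZMod 9)).re = Real.cos (2 * π * j / 9) := by
  rw [e9_nat, Complex.exp_ofReal_mul_I_re]

theorem e9_im (j : ℕ) : (e9 ((j : ℕ) : ZMod 9)).im = Real.sin (2 * π * j / 9) := by
  rw [e9_nat, Complex.exp_ofReal_mul_I_im]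

/-- The weights. -/
noncomputable def kap (j : ZMod 9) : ℝ := K (e9 j)

theorem kap_nat (j : ℕ) : kap ((j : ℕ) : ZMod 9) = Real.cos (2 * π * j / 9 - π / 3) := by
  unfold kap K
  rw [e9_re, e9_im, Real.cos_sub, Real.cos_pi_div_three, Real.sin_pi_div_three]
  ring

theorem c1_bound : Real.cos (π / 9) ≤ 94 / 100 := by
  have h3 := Real.cos_three_mul (π / 9)
  have h4 : 3 * (π / 9) = π / 3 := by ring
  rw [h4, Real.cos_pi_div_three] at h3
  set c := Real.cos (π / 9)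
  by_contra hcon
  rw [not_le] at hcon
  nlinarith [mul_pos (sub_pos.2 hcon) (sub_pos.2 hcon), sq_nonneg (c - 94 / 100),
    mul_pos (sub_pos.2 hcon) (mul_pos (sub_pos.2 hcon) (sub_pos.2 hcon))]

theorem c2_bound : 766 / 1000 ≤ Real.cos (2 * π / 9) := by
  have h3 := Real.cos_three_mul (2 * π / 9)
  have h4 : 3 * (2 * π / 9) = π - π / 3 := by ring
  rw [h4, Real.cos_pi_sub, Real.cos_pi_div_three] at h3
  have h5 : 1 / 2 < Real.cos (2 * π / 9) := by
    rw [← Real.cos_pi_div_three]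
    apply Real.cos_lt_cos_of_nonneg_of_le_pi_div_two
    · positivity
    · linarith [Real.pi_pos]
    · linarith [Real.pi_pos]
  set c := Real.cos (2 * π / 9)
  by_contra hcon
  rw [not_le] at hcon
  have h6 : 0 < (766 / 1000 - c) * (4 * (c ^ 2 + 766 / 1000 * c + (766 / 1000) ^ 2) - 3) := by
    apply mul_pos (sub_pos.2 hcon)
    nlinarith
  nlinarith

theorem c4_bound : 1736 / 10000 ≤ Real.cos (4 * π / 9) := by
  have h3 := Real.cos_three_mul (4 * π / 9)
  have h4 : 3 * (4 * π / 9) = π / 3 + π := by ring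
  rw [h4, Real.cos_add_pi, Real.cos_pi_div_three] at h3
  have h5 : Real.cos (4 * π / 9) < 1 / 2 := by
    rw [← Real.cos_pi_div_three]
    apply Real.cos_lt_cos_of_nonneg_of_le_pi_div_two
    · positivity
    · linarith [Real.pi_pos]
    · linarith [Real.pi_pos]
  have h7 : 0 < Real.cos (4 * π / 9) := by
    apply Real.cos_pos_of_mem_Ioo
    constructor
    · linarith [Real.pi_pos]
    · linarith [Real.pi_pos]
  set c := Real.cos (4 * π / 9)
  by_contra hcon
  rw [not_le] at hcon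
  have h6 : 0 < (1736 / 10000 - c) * (3 - 4 * (c ^ 2 + 1736 / 10000 * c + (1736 / 10000) ^ 2)) := by
    apply mul_pos (sub_pos.2 hcon)
    nlinarith
  nlinarith

theorem kap_bounds : Kap kap where
  k0 := by
    have h := kap_nat 0
    rw [show ((0 : ℕ) : ZMod 9) = 0 from rfl] at h
    rw [h, show 2 * π * ((0 : ℕ) : ℝ) / 9 - π / 3 = -(π / 3) by push_cast; ring, Real.cos_neg,
      Real.cos_pi_div_three]
  k3 := by
    have h := kap_nat 3
    rw [show ((3 : ℕ) : ZMod 9) = 3 from rfl] at h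
    rw [h, show 2 * π * ((3 : ℕ) : ℝ) / 9 - π / 3 = π / 3 by push_cast; ring,
      Real.cos_pi_div_three]
  k1 := by
    have h := kap_nat 1
    rw [show ((1 : ℕ) : ZMod 9) = 1 from rfl] at h
    rw [h, show 2 * π * ((1 : ℕ) : ℝ) / 9 - π / 3 = -(π / 9) by push_cast; ring, Real.cos_neg]
    exact c1_bound
  k2 := by
    have h := kap_nat 2
    rw [show ((2 : ℕ) : ZMod 9) = 2 from rfl] at h
    rw [h, show 2 * π * ((2 : ℕ) : ℝ) / 9 - π / 3 = π / 9 by push_cast; ring]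
    exact c1_bound
  k4 := by
    have h := kap_nat 4
    rw [show ((4 : ℕ) : ZMod 9) = 4 from rfl] at h
    rw [h, show 2 * π * ((4 : ℕ) : ℝ) / 9 - π / 3 = π - 4 * π / 9 by push_cast; ring,
      Real.cos_pi_sub]
    linarith [c4_bound]
  k8 := by
    have h := kap_nat 8
    rw [show ((8 : ℕ) : ZMod 9) = 8 from rfl] at h
    rw [h, show 2 * π * ((8 : ℕ) : ℝ) / 9 - π / 3 = 4 * π / 9 + π by push_cast; ring,
      Real.cos_add_pi]
    linarith [c4_bound]
  k5 := by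
    have h := kap_nat 5
    rw [show ((5 : ℕ) : ZMod 9) = 5 from rfl] at h
    rw [h, show 2 * π * ((5 : ℕ) : ℝ) / 9 - π / 3 = π - 2 * π / 9 by push_cast; ring,
      Real.cos_pi_sub]
    linarith [c2_bound]
  k7 := by
    have h := kap_nat 7
    rw [show ((7 : ℕ) : ZMod 9) = 7 from rfl] at h
    rw [h, show 2 * π * ((7 : ℕ) : ℝ) / 9 - π / 3 = 2 * π / 9 + π by push_cast; ring,
      Real.cos_add_pi]
    linarith [c2_bound]
  k6 := by
    have h := kap_nat 6
    rw [show ((6 : ℕ) : ZMod 9) = 6 from rfl] at h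
    rw [h, show 2 * π * ((6 : ℕ) : ℝ) / 9 - π / 3 = π by push_cast; ring, Real.cos_pi]

theorem kap0 : kap 0 = 1 / 2 := by
  have h := kap_nat 0
  rw [show ((0 : ℕ) : ZMod 9) = 0 from rfl] at h
  rw [h, show 2 * π * ((0 : ℕ) : ℝ) / 9 - π / 3 = -(π / 3) by push_cast; ring, Real.cos_neg,
    Real.cos_pi_div_three]

theorem kap3 : kap 3 = 1 / 2 := by
  have h := kap_nat 3
  rw [show ((3 : ℕ) : ZMod 9) = 3 from rfl] at h
  rw [h, show 2 * π * ((3 : ℕ) : ℝ) / 9 - π / 3 = π / 3 by push_cast; ring,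
    Real.cos_pi_div_three]

theorem kap6 : kap 6 = -1 := by
  have h := kap_nat 6
  rw [show ((6 : ℕ) : ZMod 9) = 6 from rfl] at h
  rw [h, show 2 * π * ((6 : ℕ) : ℝ) / 9 - π / 3 = π by push_cast; ring, Real.cos_pi]

theorem e9_3 : e9 3 = ⟨-(1 / 2), √3 / 2⟩ := by
  apply Complex.ext
  · have h := e9_re 3
    rw [show ((3 : ℕ) : ZMod 9) = 3 from rfl] at h
    rw [h, show 2 * π * ((3 : ℕ) : ℝ) / 9 = π - π / 3 by push_cast; ring, Real.cos_pi_sub,
      Real.cos_pi_div_three]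
  · have h := e9_im 3
    rw [show ((3 : ℕ) : ZMod 9) = 3 from rfl] at h
    rw [h, show 2 * π * ((3 : ℕ) : ℝ) / 9 = π - π / 3 by push_cast; ring, Real.sin_pi_sub,
      Real.sin_pi_div_three]

theorem e9_6 : e9 6 = ⟨-(1 / 2), -(√3 / 2)⟩ := by
  apply Complex.ext
  · have h := e9_re 6
    rw [show ((6 : ℕ) : ZMod 9) = 6 from rfl] at h
    rw [h, show 2 * π * ((6 : ℕ) : ℝ) / 9 = π / 3 + π by push_cast; ring, Real.cos_add_pi,
      Real.cos_pi_div_three]
  · have h := e9_im 6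
    rw [show ((6 : ℕ) : ZMod 9) = 6 from rfl] at h
    rw [h, show 2 * π * ((6 : ℕ) : ℝ) / 9 = π / 3 + π by push_cast; ring, Real.sin_add_pi,
      Real.sin_pi_div_three]

/-- The elementary cubic inequality. -/
theorem cubic (z : ℂ) (τ : ℝ) (hτ : 0 ≤ τ) (h0 : K z ≤ τ) (h1 : K (z * e9 6) ≤ τ)
    (h2 : K (z * e9 3) ≤ τ) : -(z ^ 3).re ≤ Complex.normSq z * τ := by
  have hs : √3 * √3 = 3 := Real.mul_self_sqrt (by norm_num)
  have e1 : K (z * e9 6) = -z.re := by
    unfold K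
    rw [e9_6, Complex.mul_re, Complex.mul_im]
    simp only
    have : (z.re * -(1 / 2) - z.im * -(√3 / 2)) / 2 + √3 / 2 * (z.re * -(√3 / 2) +
      z.im * -(1 / 2)) = -z.re / 4 - (√3 * √3) * z.re / 4 := by ring
    rw [this, hs]; ring
  have e2 : K (z * e9 3) = z.re / 2 - √3 / 2 * z.im := by
    unfold K
    rw [e9_3, Complex.mul_re, Complex.mul_im]
    simp only
    have : (z.re * -(1 / 2) - z.im * (√3 / 2)) / 2 + √3 / 2 * (z.re * (√3 / 2) +
      z.im * -(1 / 2)) = -z.re / 4 + (√3 * √3) * z.re / 4 - √3 / 2 * z.im := by ring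
    rw [this, hs]; ring
  rw [e1] at h1
  rw [e2] at h2
  unfold K at h0
  have e3 : (z ^ 3).re = z.re ^ 3 - 3 * z.re * z.im ^ 2 := by
    rw [pow_succ, pow_two, Complex.mul_re, Complex.mul_re, Complex.mul_im]
    ring
  rw [e3, Complex.normSq_apply]
  set x := z.re
  set y := z.im
  set t := √3 with ht
  set r0 := x / 2 + t / 2 * y with hr0
  set r2 := x / 2 - t / 2 * y with hr2
  have hx : x = r0 + r2 := by rw [hr0, hr2]; ring
  have hprod : -(x ^ 3 - 3 * x * y ^ 2) = 4 * r0 * (-x) * r2 := by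
    rw [hr0, hr2]
    have : 4 * (x / 2 + t / 2 * y) * (-x) * (x / 2 - t / 2 * y) =
      -(x ^ 3 - (t * t) * x * y ^ 2) := by ring
    rw [this, hs]
  have hy : x * x + y * y = x ^ 2 + (r0 - r2) ^ 2 / 3 := by
    have : r0 - r2 = t * y := by rw [hr0, hr2]; ring
    rw [this]
    have : (t * y) ^ 2 = (t * t) * y ^ 2 := by ring
    rw [this, hs]; ring
  rw [hprod, hy]
  rw [hx] at h1 ⊢
  clear_value r0 r2
  have hq : 0 ≤ (r0 + r2) ^ 2 + (r0 - r2) ^ 2 / 3 := by positivity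
  -- cases on the signs
  rcases le_or_gt (4 * r0 * (-(r0 + r2)) * r2) 0 with hP | hP
  · exact hP.trans (mul_nonneg hq hτ)
  rcases le_or_gt (r0 + r2) 0 with hA | hA
  · -- then `-(r0 + r2) > 0` or zero and `r0 * r2 > 0`
    have h4 : 4 * r0 * r2 ≤ (r0 + r2) ^ 2 := by nlinarith [sq_nonneg (r0 - r2)]
    have h5 : 4 * r0 * (-(r0 + r2)) * r2 ≤ (r0 + r2) ^ 2 * (-(r0 + r2)) := by
      have := mul_le_mul_of_nonneg_right h4 (neg_nonneg.2 hA)
      linarith
    have h6 : (r0 + r2) ^ 2 * (-(r0 + r2)) ≤ (r0 + r2) ^ 2 * τ :=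
      mul_le_mul_of_nonneg_left h1 (sq_nonneg _)
    have h7 : 0 ≤ (r0 - r2) ^ 2 / 3 * τ := by positivity
    linarith
  · -- `r0 * r2 < 0`
    have hneg : r0 * r2 < 0 := by
      by_contra hcon
      rw [not_lt] at hcon
      have := mul_nonneg hcon hA.le
      linarith
    rcases lt_or_ge r2 0 with h2n | h2n
    · have hr0p : 0 < r0 := by linarith
      have h4 : 4 * (-(r0 + r2)) * r2 ≤ r0 ^ 2 := by nlinarith [sq_nonneg (r0 + 2 * r2)]
      have h5 : 4 * r0 * (-(r0 + r2)) * r2 ≤ r0 ^ 2 * r0 := by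
        have := mul_le_mul_of_nonneg_right h4 hr0p.le
        linarith
      have h6 : r0 ^ 2 * r0 ≤ r0 ^ 2 * τ := mul_le_mul_of_nonneg_left h0 (sq_nonneg _)
      have h7 : r0 ^ 2 ≤ (r0 + r2) ^ 2 + (r0 - r2) ^ 2 / 3 := by nlinarith [sq_nonneg (r0 + 2 * r2)]
      have h8 := mul_le_mul_of_nonneg_right h7 hτ
      linarith
    · have hr2p : 0 < r2 := by
        rcases h2n.lt_or_eq with h | h
        · exact h
        · rw [← h] at hneg; simp at hneg
      have h4 : 4 * (-(r0 + r2)) * r0 ≤ r2 ^ 2 := by nlinarith [sq_nonneg (r2 + 2 * r0)]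
      have h5 : 4 * r0 * (-(r0 + r2)) * r2 ≤ r2 ^ 2 * r2 := by
        have := mul_le_mul_of_nonneg_right h4 hr2p.le
        linarith
      have h6 : r2 ^ 2 * r2 ≤ r2 ^ 2 * τ := mul_le_mul_of_nonneg_left h2 (sq_nonneg _)
      have h7 : r2 ^ 2 ≤ (r0 + r2) ^ 2 + (r0 - r2) ^ 2 / 3 := by nlinarith [sq_nonneg (r2 + 2 * r0)]
      have h8 := mul_le_mul_of_nonneg_right h7 hτ
      linarith

end Pool.Agent.N9
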