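import Pool.Agent.N9.LinL

set_option autoImplicit false
set_option linter.unusedVariables false

/-! # Linear inequalities for the nine fibres: a unit fibre of density above `2/3` -/

namespace Pool.Agent.N9

theorem TN_big {u v w : ℝ} (h : TN u v w) (hu : 2 / 3 < u) :
    v = 0 ∨ w = 0 ∨ u + v + w ≤ 10 / 9 := by
  rcases h with h | h | h | h | ⟨h, _⟩
  · linarith
  · exact Or.inl h
  · exact Or.inr (Or.inl h)
  · exact Or.inr (Or.inr h)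
  · linarith

theorem TU_big {u w : ℝ} (h : TU u w) (hu : 2 / 3 < u) (hw : 0 ≤ w) : w = 0 := by
  rcases h with h | h | h | ⟨h, _⟩
  · linarith
  · exact h
  · linarith
  · linarith

theorem lem_T {a0 a1 a2 a3 a4 a5 a6 a7 a8 p : ℝ} (n0 : 0 ≤ a0) (n1 : 0 ≤ a1) (n2 : 0 ≤ a2)
    (n3 : 0 ≤ a3) (n4 : 0 ≤ a4) (n5 : 0 ≤ a5) (n6 : 0 ≤ a6) (n7 : 0 ≤ a7) (n8 : 0 ≤ a8)
    (p0 : a0 ≤ p) (p3 : a3 ≤ p) (p6 : a6 ≤ p) (plo : 2 / 9 ≤ p) (phi : p ≤ 2 / 7)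
    (c1 : a1 + a4 + a7 ≤ 1) (c2 : a2 + a5 + a8 ≤ 1) (u1 : 2 / 3 < a1)
    (t1 : TN a1 a8 a0) (t2 : TU a1 a7) (t3 : TN a1 a2 a6) (t5 : TN a1 a5 a3) :
    a0 + a1 + a2 + a3 + a4 + a5 + a6 + a7 + a8 ≤ 2 + 2 * p := by
  have h7 := TU_big t2 u1 n7
  rcases TN_big t3 u1 with q1 | q1 | q1
  · rcases TN_big t5 u1 with q2 | q2 | q2
    · rcases TN_big t1 u1 with q3 | q3 | q3 <;> linarith
    · linarith
    · rcases TN_big t1 u1 with q3 | q3 | q3 <;> linarith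
  · linarith
  · rcases TN_big t5 u1 with q2 | q2 | q2
    · rcases TN_big t1 u1 with q3 | q3 | q3 <;> linarith
    · linarith
    · rcases TN_big t1 u1 with q3 | q3 | q3 <;> linarith

end Pool.Agent.N9
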