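import Pool.Agent.DG.K3
import Pool.Agent.N9.LinT

set_option autoImplicit false

/-! # Kneser's theorem in finite 3-groups -/

namespace Pool.Agent.N9
open Finset Pool.Agent.DG

/-- No three elements (repetitions allowed) of `A` have sum `0`. -/
def SF {G : Type*} [AddCommGroup G] (A : Finset G) : Prop :=
  ∀ x ∈ A, ∀ y ∈ A, ∀ z ∈ A, x + y + z ≠ 0

theorem quot_pow {Q : Type*} [AddCommGroup Q] [Finite Q] {m : ℕ} (hm : Nat.card Q = 3 ^ m)
    (F : AddSubgroup Q) (x : Q) (hx : x ∉ F) :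
    ∃ j, 1 ≤ j ∧ Nat.card (Q ⧸ F) = 3 ^ j := by
  have h1 : Nat.card (Q ⧸ F) ∣ 3 ^ m := by
    rw [← hm]
    exact AddSubgroup.card_quotient_dvd_card F
  obtain ⟨j, _, hj⟩ := (Nat.dvd_prime_pow Nat.prime_three).1 h1
  refine ⟨j, ?_, hj⟩
  by_contra hcon
  have hj0 : j = 0 := by omega
  rw [hj0, pow_zero] at hj
  apply hx
  have hF : F = ⊤ := AddSubgroup.index_eq_one.1 hj
  rw [hF]
  trivial

theorem card_split {Q : Type*} [AddCommGroup Q] [Finite Q] (F : AddSubgroup Q) :
    Nat.card Q = Nat.card (Q ⧸ F) * Nat.card F :=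
  AddSubgroup.card_eq_card_quotient_mul_card_addSubgroup F

/-- In a finite 3-group a set `X` with `t ∉ X + X + X` has at most `|Q| / 3` elements. -/
theorem third {Q : Type*} [AddCommGroup Q] [Finite Q] {m : ℕ} (hm : Nat.card Q = 3 ^ m)
    (X : Finset Q) (t : Q) (h : ∀ x ∈ X, ∀ y ∈ X, ∀ z ∈ X, x + y + z ≠ t) :
    3 * X.card ≤ Nat.card Q := by
  classical
  rcases X.eq_empty_or_nonempty with h0 | hX
  · rw [h0]; simp
  set Z : Finset Q := X.image (fun x => x - t) with hZ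
  have hZne : Z.Nonempty := hX.image _
  have hNZ : NZ X X Z := by
    intro x hx y hy z hz hs
    rw [hZ, Finset.mem_image] at hz
    obtain ⟨z', hz', rfl⟩ := hz
    apply h x hx y hy z' hz'
    rw [← sub_eq_zero]
    rw [← hs]; abel
  obtain ⟨F, hF, hle⟩ := k3 X X Z hX hX hZne hNZ
  obtain ⟨x, hx⟩ := hX
  obtain ⟨z, hz⟩ := hZne
  obtain ⟨j, hj, hq⟩ := quot_pow hm F _ (hF x hx x hx z hz)
  have hclZ : (cl F Z).card = (cl F X).card := by
    have : cl F Z = (cl F X).image (fun c => c - (QuotientAddGroup.mk t : Q ⧸ F)) := by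
      ext c
      rw [mem_cl, Finset.mem_image]
      constructor
      · rintro ⟨w, hw, rfl⟩
        rw [hZ, Finset.mem_image] at hw
        obtain ⟨x', hx', rfl⟩ := hw
        exact ⟨_, mk_mem_cl F hx', rfl⟩
      · rintro ⟨d, hd, rfl⟩
        obtain ⟨x', hx', rfl⟩ := mem_cl.1 hd
        exact ⟨x' - t, Finset.mem_image_of_mem _ hx', rfl⟩
    rw [this]
    exact Finset.card_image_of_injective _ (sub_left_injective)
  rw [hclZ, hq] at hle
  have h3 : 3 * (cl F X).card ≤ 3 ^ j := by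
    obtain ⟨i, rfl⟩ : ∃ i, j = i + 1 := ⟨j - 1, by omega⟩
    rw [pow_succ] at hle ⊢
    omega
  have h4 := card_le_cl F X
  have h5 := card_split F
  rw [hq] at h5
  calc 3 * X.card ≤ 3 * (Nat.card F * (cl F X).card) := Nat.mul_le_mul_left _ h4
    _ = Nat.card F * (3 * (cl F X).card) := by ring
    _ ≤ Nat.card F * 3 ^ j := Nat.mul_le_mul_left _ h3
    _ = Nat.card Q := by rw [h5]; ring

/-- The three-set lemma. -/
theorem three {Q : Type*} [AddCommGroup Q] [Finite Q] {m : ℕ} (hm : Nat.card Q = 3 ^ m)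
    (X Y Z : Finset Q) (hX : X.Nonempty) (hY : Y.Nonempty) (hZ : Z.Nonempty) (h : NZ X Y Z) :
    9 * (X.card + Y.card + Z.card) ≤ 10 * Nat.card Q ∨
      ∃ F : AddSubgroup Q, Nat.card (Q ⧸ F) = 3 ∧ 1 ≤ (cl F X).card ∧ 1 ≤ (cl F Y).card ∧
        1 ≤ (cl F Z).card ∧ (cl F X).card + (cl F Y).card + (cl F Z).card ≤ 4 := by
  classical
  obtain ⟨F, hF, hle⟩ := k3 X Y Z hX hY hZ h
  obtain ⟨x, hx⟩ := hX
  obtain ⟨y, hy⟩ := hY
  obtain ⟨z, hz⟩ := hZ
  obtain ⟨j, hj, hq⟩ := quot_pow hm F _ (hF x hx y hy z hz)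
  have h1 := card_le_cl F X
  have h2 := card_le_cl F Y
  have h3 := card_le_cl F Z
  have h5 := card_split F
  rw [hq] at h5 hle
  by_cases hj1 : j = 1
  · right
    refine ⟨F, ?_, Finset.card_pos.2 ⟨_, mk_mem_cl F hx⟩, Finset.card_pos.2 ⟨_, mk_mem_cl F hy⟩,
      Finset.card_pos.2 ⟨_, mk_mem_cl F hz⟩, ?_⟩
    · rw [hq, hj1, pow_one]
    · rw [hj1, pow_one] at hle
      exact hle
  · left
    obtain ⟨i, rfl⟩ : ∃ i, j = i + 2 := ⟨j - 2, by omega⟩
    have h6 : 1 ≤ 3 ^ i := Nat.one_le_pow _ _ (by norm_num)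
    have h7 : 9 * ((cl F X).card + (cl F Y).card + (cl F Z).card) ≤ 10 * 3 ^ (i + 2) := by
      rw [pow_add] at hle ⊢
      omega
    calc 9 * (X.card + Y.card + Z.card)
        ≤ 9 * (Nat.card F * (cl F X).card + Nat.card F * (cl F Y).card +
          Nat.card F * (cl F Z).card) := by omega
      _ = Nat.card F * (9 * ((cl F X).card + (cl F Y).card + (cl F Z).card)) := by ring
      _ ≤ Nat.card F * (10 * 3 ^ (i + 2)) := Nat.mul_le_mul_left _ h7
      _ = 10 * Nat.card Q := by rw [h5]; ring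

/-- A sum-free set meeting `c` classes of a subgroup of index 3 has at most `c |Q| / 9`
elements. -/
theorem nonunit {Q : Type*} [AddCommGroup Q] [Finite Q] {m : ℕ} (hm : Nat.card Q = 3 ^ m)
    (F : AddSubgroup Q) (hF : Nat.card (Q ⧸ F) = 3) (X : Finset Q) (h : SF X) :
    9 * X.card ≤ Nat.card Q * (cl F X).card := by
  classical
  have h5 := card_split F
  rw [hF] at h5
  have hdF : Nat.card F ∣ 3 ^ m := by rw [← hm]; exact AddSubgroup.card_addSubgroup_dvd_card F
  obtain ⟨m', _, hm'⟩ := (Nat.dvd_prime_pow Nat.prime_three).1 hdF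
  have hcl : ∀ c ∈ cl F X, 3 * (X.filter (fun x => (QuotientAddGroup.mk x : Q ⧸ F) = c)).card ≤
      Nat.card F := by
    intro c _
    obtain ⟨g, rfl⟩ := QuotientAddGroup.mk_surjective c
    have h3g : g + g + g ∈ F := by
      have h3 : (3 : ℕ) • (QuotientAddGroup.mk g : Q ⧸ F) = 0 := by
        rw [← hF]
        exact card_nsmul_eq_zero'
      rw [← QuotientAddGroup.eq_zero_iff]
      rw [← h3]
      rw [succ_nsmul, two_nsmul]
      rfl
    -- the translated set inside `F`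
    set W : Finset F := (X.filter (fun x => (QuotientAddGroup.mk x : Q ⧸ F) =
      QuotientAddGroup.mk g)).attach.image (fun x => (⟨-g + x.1, QuotientAddGroup.eq.1
        (Finset.mem_filter.1 x.2).2.symm⟩ : F)) with hW
    have hWc : W.card = (X.filter (fun x => (QuotientAddGroup.mk x : Q ⧸ F) =
      QuotientAddGroup.mk g)).card := by
      rw [hW, Finset.card_image_of_injective, Finset.card_attach]
      intro x y hxy
      have := congrArg (fun v : F => (v : Q)) hxy
      exact Subtype.ext (add_left_cancel this)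
    rw [← hWc]
    apply third hm' W (-⟨g + g + g, h3g⟩)
    intro x hx y hy z hz hs
    rw [hW, Finset.mem_image] at hx hy hz
    obtain ⟨x', _, rfl⟩ := hx
    obtain ⟨y', _, rfl⟩ := hy
    obtain ⟨z', _, rfl⟩ := hz
    have hs' := congrArg (fun v : F => (v : Q)) hs
    apply h x'.1 (Finset.mem_filter.1 x'.2).1 y'.1 (Finset.mem_filter.1 y'.2).1 z'.1
      (Finset.mem_filter.1 z'.2).1
    have h7 : (-g + x'.1) + (-g + y'.1) + (-g + z'.1) = -(g + g + g) := hs'
    have h8 : x'.1 + y'.1 + z'.1 = ((-g + x'.1) + (-g + y'.1) + (-g + z'.1)) + (g + g + g) := by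
      abel
    rw [h8, h7, neg_add_cancel]
  have hsum : X.card = ∑ c ∈ cl F X,
      (X.filter (fun x => (QuotientAddGroup.mk x : Q ⧸ F) = c)).card :=
    Finset.card_eq_sum_card_fiberwise (fun x hx => mk_mem_cl F hx)
  have h9 : 3 * X.card ≤ (cl F X).card * Nat.card F := by
    rw [hsum, Finset.mul_sum]
    calc ∑ c ∈ cl F X, 3 * (X.filter (fun x => (QuotientAddGroup.mk x : Q ⧸ F) = c)).card
        ≤ ∑ _c ∈ cl F X, Nat.card F := Finset.sum_le_sum hcl
      _ = _ := by rw [Finset.sum_const, smul_eq_mul]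
  calc 9 * X.card = 3 * (3 * X.card) := by ring
    _ ≤ 3 * ((cl F X).card * Nat.card F) := Nat.mul_le_mul_left _ h9
    _ = Nat.card Q * (cl F X).card := by rw [h5]; ring

end Pool.Agent.N9
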