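import Mathlib

set_option autoImplicit false
set_option linter.unusedVariables false

/-! # Linear inequalities for the nine fibres of a sum-free set -/

namespace Pool.Agent.N9

/-- Three different fibres, two unit ones of densities `u`, `v` and a nonunit one of density `w`. -/
def TN (u v w : ℝ) : Prop :=
  u = 0 ∨ v = 0 ∨ w = 0 ∨ u + v + w ≤ 10 / 9 ∨
    (3 * u ≤ 2 ∧ 3 * v ≤ 2 ∧ 9 * w ≤ 2 ∧ 3 * u + 3 * v ≤ 3 ∧ 3 * u + 9 * w ≤ 3 ∧
      3 * v + 9 * w ≤ 3 ∧ 3 * u + 3 * v + 9 * w ≤ 4)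

/-- A unit fibre of density `u` used twice and another unit fibre of density `w`. -/
def TU (u w : ℝ) : Prop := u = 0 ∨ w = 0 ∨ 2 * u + w ≤ 10 / 9 ∨ (3 * u ≤ 1 ∧ 3 * w ≤ 2)

theorem lem_L {a0 a1 a2 a3 a4 a5 a6 a7 a8 p : ℝ} (n0 : 0 ≤ a0) (n1 : 0 ≤ a1) (n2 : 0 ≤ a2)
    (n3 : 0 ≤ a3) (n4 : 0 ≤ a4) (n5 : 0 ≤ a5) (n6 : 0 ≤ a6) (n7 : 0 ≤ a7) (n8 : 0 ≤ a8)
    (p0 : a0 ≤ p) (p3 : a3 ≤ p) (p6 : a6 ≤ p) (plo : 2 / 9 ≤ p) (phi : p ≤ 2 / 7)
    (c1 : a1 + a4 + a7 ≤ 1) (c2 : a2 + a5 + a8 ≤ 1)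
    (u1 : a1 ≤ 2 / 3) (u2 : a2 ≤ 2 / 3) (u4 : a4 ≤ 2 / 3) (u5 : a5 ≤ 2 / 3) (u7 : a7 ≤ 2 / 3)
    (u8 : a8 ≤ 2 / 3) (hT : 2 + 2 * p ≤ a0 + a1 + a2 + a3 + a4 + a5 + a6 + a7 + a8)
    (t1 : TN a1 a8 a0) (t2 : TU a1 a7) (t3 : TN a1 a2 a6) (t4 : TU a2 a5) (t5 : TN a2 a4 a3)
    (t6 : TU a8 a2) :
    1 / 2 * (a0 + a3) + 94 / 100 * (a1 + a2) - 1736 / 10000 * (a4 + a8) - 766 / 1000 * (a5 + a7)
      - a6 ≤ 24 / 25 * (a0 + a1 + a2 + a3 + a4 + a5 + a6 + a7 + a8) - 36 / 25 - 1 / 2000 := by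
  rcases t5 with q1 | q1 | q1 | q1 | ⟨q1_1, q1_2, q1_3, q1_4, q1_5, q1_6, q1_7⟩
  · linarith
  · rcases t2 with q2 | q2 | q2 | ⟨q2_1, q2_2⟩
    · linarith
    · linarith
    · linarith
    · linarith
  · rcases t3 with q2 | q2 | q2 | q2 | ⟨q2_1, q2_2, q2_3, q2_4, q2_5, q2_6, q2_7⟩
    · linarith
    · linarith
    · linarith
    · linarith
    · linarith
  · rcases t2 with q2 | q2 | q2 | ⟨q2_1, q2_2⟩
    · linarith
    · rcases t3 with q3 | q3 | q3 | q3 | ⟨q3_1, q3_2, q3_3, q3_4, q3_5, q3_6, q3_7⟩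
      · linarith
      · linarith
      · rcases t1 with q4 | q4 | q4 | q4 | ⟨q4_1, q4_2, q4_3, q4_4, q4_5, q4_6, q4_7⟩
        · linarith
        · rcases t4 with q5 | q5 | q5 | ⟨q5_1, q5_2⟩
          · linarith
          · linarith
          · linarith
          · linarith
        · linarith
        · rcases t4 with q5 | q5 | q5 | ⟨q5_1, q5_2⟩
          · linarith
          · linarith
          · linarith
          · linarith
        · linarith
      · rcases t1 with q4 | q4 | q4 | q4 | ⟨q4_1, q4_2, q4_3, q4_4, q4_5, q4_6, q4_7⟩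
        · linarith
        · linarith
        · linarith
        · rcases t4 with q5 | q5 | q5 | ⟨q5_1, q5_2⟩
          · linarith
          · linarith
          · linarith
          · linarith
        · linarith
      · rcases t6 with q4 | q4 | q4 | ⟨q4_1, q4_2⟩
        · linarith
        · linarith
        · linarith
        · linarith
    · rcases t3 with q3 | q3 | q3 | q3 | ⟨q3_1, q3_2, q3_3, q3_4, q3_5, q3_6, q3_7⟩
      · linarith
      · linarith
      · rcases t6 with q4 | q4 | q4 | ⟨q4_1, q4_2⟩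
        · linarith
        · linarith
        · linarith
        · linarith
      · rcases t6 with q4 | q4 | q4 | ⟨q4_1, q4_2⟩
        · linarith
        · linarith
        · linarith
        · linarith
      · rcases t6 with q4 | q4 | q4 | ⟨q4_1, q4_2⟩
        · linarith
        · linarith
        · linarith
        · linarith
    · linarith
  · rcases t3 with q2 | q2 | q2 | q2 | ⟨q2_1, q2_2, q2_3, q2_4, q2_5, q2_6, q2_7⟩
    · linarith
    · linarith
    · rcases t6 with q3 | q3 | q3 | ⟨q3_1, q3_2⟩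
      · linarith
      · linarith
      · linarith
      · linarith
    · rcases t6 with q3 | q3 | q3 | ⟨q3_1, q3_2⟩
      · linarith
      · linarith
      · linarith
      · linarith
    · rcases t6 with q3 | q3 | q3 | ⟨q3_1, q3_2⟩
      · linarith
      · linarith
      · linarith
      · linarith

end Pool.Agent.N9
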